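import Pool.Agent.H1.PP.Chk

set_option autoImplicit false
set_option linter.unusedSectionVars false

/-!
# PP Comp: the finite search is primitive recursive (helper1)

`Primrec` API: `Primrec.list_append`, `list_flatMap`, `list_map`, `list_cons`, `list_foldr`, `list_rec`, `list_length`, `list_take`, `nat_rec`, `Primrec.const`,
`PrimrecPred.exists_mem_list`, `PrimrecRel.exists_mem_list`, `PrimrecRel.forall_mem_list`, `Primrec.eq`, boolean combinations.
`primrec_reduce`: `FreeGroup.reduce` is a `List.rec` (use `Primrec.list_foldr` after showing `reduce L = L.foldr step []`, `step a t = match t with | [] => [a] | b :: t' => if ..`).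
`primrec_wordsLE`: `nat_rec`, the alphabet is a constant list. `primrec_subs`: `subs L = L.foldr (fun a acc => acc ++ acc.map (fun t => a :: t)) [[]]`.
`primrec_bd`: `bd (2 n) l`, `n` constant; powers by `nat_rec` (`Primrec` of `fun m => c ^ m` for constant `c`; then compose).
Membership of a list in a list of lists: `exists_mem_list` with equality. Bounded quantifiers over lists with parameters `(S, R, L)`: `PrimrecRel`.
-/

namespace PPos

open FreeGroup

theorem Comp_reduce_eq {n : ℕ} (L : List (Fin n × Bool)) :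
    FreeGroup.reduce L =
      L.foldr (fun a t => if t.head? = some (bar a) then t.tail else a :: t) [] := by
  induction L with
  | nil => rfl
  | cons x L ih =>
    rw [FreeGroup.reduce.cons, List.foldr_cons, ← ih]
    cases h : FreeGroup.reduce L with
    | nil => simp
    | cons hd tl =>
      have hiff : (some hd = some (bar x)) ↔ (x.1 = hd.1 ∧ x.2 = !hd.2) := by
        rw [Option.some.injEq]
        obtain ⟨x1, x2⟩ := x
        obtain ⟨y1, y2⟩ := hd
        simp only [bar, Prod.mk.injEq]
        constructor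
        · rintro ⟨h1, h2⟩
          exact ⟨h1.symm, by rw [h2, Bool.not_not]⟩
        · rintro ⟨h1, h2⟩
          exact ⟨h1.symm, by rw [h2, Bool.not_not]⟩
      simp only [List.head?_cons, List.tail_cons, hiff]

theorem Comp_bar (n : ℕ) : Primrec (bar : Fin n × Bool → Fin n × Bool) := by
  have : Primrec (fun a : Fin n × Bool => (a.1, !a.2)) :=
    Primrec.pair Primrec.fst (Primrec.not.comp Primrec.snd)
  exact this.of_eq (fun a => rfl)

theorem primrec_reduce (n : ℕ) :
    Primrec (FreeGroup.reduce : List (Fin n × Bool) → List (Fin n × Bool)) := by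
  have hc : PrimrecPred (fun q : List (Fin n × Bool) × ((Fin n × Bool) × List (Fin n × Bool)) =>
      q.2.2.head? = some (bar q.2.1)) :=
    Primrec.eq.comp (Primrec.list_head?.comp (Primrec.snd.comp Primrec.snd))
      (Primrec.option_some.comp ((Comp_bar n).comp (Primrec.fst.comp Primrec.snd)))
  have hstep : Primrec₂ (fun (_ : List (Fin n × Bool)) (q : (Fin n × Bool) × List (Fin n × Bool)) =>
      if q.2.head? = some (bar q.1) then q.2.tail else q.1 :: q.2) :=
    Primrec.ite hc (Primrec.list_tail.comp (Primrec.snd.comp Primrec.snd))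
      (Primrec.list_cons.comp (Primrec.fst.comp Primrec.snd) (Primrec.snd.comp Primrec.snd))
  have h := Primrec.list_foldr (Primrec.id (α := List (Fin n × Bool)))
    (Primrec.const ([] : List (Fin n × Bool))) hstep
  refine h.of_eq (fun L => ?_)
  rw [Comp_reduce_eq]
  rfl

theorem primrec_wordsLE (n : ℕ) : Primrec (wordsLE n) := by
  have hstep : Primrec₂ (fun (_ : ℕ) (W : List (List (Fin n × Bool))) =>
      ([] : List (Fin n × Bool)) :: W.flatMap (fun l =>
        ((List.finRange n).flatMap (fun i => [(i, true), (i, false)])).map (fun a => a :: l))) := by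
    refine Primrec.list_cons.comp (Primrec.const _) ?_
    refine Primrec.list_flatMap Primrec.snd ?_
    refine Primrec.list_map (Primrec.const _) ?_
    exact Primrec.list_cons.comp Primrec.snd (Primrec.snd.comp Primrec.fst)
  refine (Primrec.nat_rec₁ [[]] hstep).of_eq (fun k => ?_)
  induction k with
  | zero => rfl
  | succ k ih =>
    simp only [wordsLE] at ih ⊢
    rw [← ih]

theorem Comp_subs_eq {β : Type} (L : List β) :
    subs L = L.foldr (fun a acc => acc ++ acc.map (fun t => a :: t)) [[]] := by
  induction L with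
  | nil => rfl
  | cons a L ih => rw [subs, List.foldr_cons, ← ih]

theorem primrec_subs (n : ℕ) :
    Primrec (subs : List (List (Fin n × Bool)) → List (List (List (Fin n × Bool)))) := by
  have hstep : Primrec₂ (fun (_ : List (List (Fin n × Bool)))
      (q : List (Fin n × Bool) × List (List (List (Fin n × Bool)))) =>
      q.2 ++ q.2.map (fun t => q.1 :: t)) := by
    refine Primrec.list_append.comp (Primrec.snd.comp Primrec.snd) ?_
    refine Primrec.list_map (Primrec.snd.comp Primrec.snd) ?_
    exact Primrec.list_cons.comp (Primrec.fst.comp (Primrec.snd.comp Primrec.fst)) Primrec.snd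
  have h := Primrec.list_foldr (Primrec.id (α := List (List (Fin n × Bool))))
    (Primrec.const ([[]] : List (List (List (Fin n × Bool))))) hstep
  refine h.of_eq (fun L => ?_)
  rw [Comp_subs_eq]
  rfl

theorem Comp_pow (c : ℕ) : Primrec (fun m : ℕ => c ^ m) := by
  have hstep : Primrec₂ (fun (_ : ℕ) (y : ℕ) => y * c) :=
    Primrec.nat_mul.comp Primrec.snd (Primrec.const c)
  refine (Primrec.nat_rec₁ 1 hstep).of_eq (fun k => ?_)
  induction k with
  | zero => rfl
  | succ k ih => rw [pow_succ, ← ih]

theorem primrec_bd (c : ℕ) : Primrec (bd c) := by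
  unfold bd
  refine Primrec.nat_add.comp ?_ (Primrec.const 1)
  refine Primrec.nat_mul.comp (Primrec.const 2) ?_
  refine Primrec.nat_mul.comp (Primrec.const c) ?_
  exact (Comp_pow 2).comp (Comp_pow (c + 1))

/-- membership in a list of words -/
theorem Comp_mem (n : ℕ) : PrimrecRel (fun (S : List (List (Fin n × Bool)))
    (b : List (Fin n × Bool)) => b ∈ S) := by
  have h := PrimrecRel.exists_mem_list (Primrec.eq (α := List (Fin n × Bool)))
  refine h.of_eq (fun S b => ?_)
  simp

theorem Comp_inS {γ : Type} [Primcodable γ] {n : ℕ} {S : γ → List (List (Fin n × Bool))}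
    {R : γ → ℕ} {u : γ → List (Fin n × Bool)} (hS : Primrec S) (hR : Primrec R)
    (hu : Primrec u) : PrimrecPred (fun q => inS (S q) (R q) (u q)) := by
  unfold inS
  exact (Comp_mem n).comp hS (Primrec.list_take.comp hR ((primrec_reduce n).comp hu))

/-- parameters `(S, R, L)` -/
abbrev Comp_Par (n : ℕ) : Type := List (List (Fin n × Bool)) × (ℕ × List (Fin n × Bool))

theorem Comp_rel1 (n : ℕ) : PrimrecRel (fun (h : List (Fin n × Bool)) (p : Comp_Par n) =>
    inS p.1 p.2.1 h → inS p.1 p.2.1 (h ++ p.2.2)) := by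
  have h1 : PrimrecPred (fun q : List (Fin n × Bool) × Comp_Par n => inS q.2.1 q.2.2.1 q.1) :=
    Comp_inS (Primrec.fst.comp Primrec.snd)
      (Primrec.fst.comp (Primrec.snd.comp Primrec.snd)) Primrec.fst
  have h2 : PrimrecPred (fun q : List (Fin n × Bool) × Comp_Par n =>
      inS q.2.1 q.2.2.1 (q.1 ++ q.2.2.2)) :=
    Comp_inS (Primrec.fst.comp Primrec.snd)
      (Primrec.fst.comp (Primrec.snd.comp Primrec.snd))
      (Primrec.list_append.comp Primrec.fst (Primrec.snd.comp (Primrec.snd.comp Primrec.snd)))
  exact (h1.not.or h2).of_eq (fun q => by tauto)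

theorem Comp_rel2 (n : ℕ) : PrimrecRel (fun (h : List (Fin n × Bool)) (p : Comp_Par n) =>
    ¬ inS p.1 p.2.1 h ∧ inS p.1 p.2.1 (h ++ p.2.2)) := by
  have h1 : PrimrecPred (fun q : List (Fin n × Bool) × Comp_Par n => inS q.2.1 q.2.2.1 q.1) :=
    Comp_inS (Primrec.fst.comp Primrec.snd)
      (Primrec.fst.comp (Primrec.snd.comp Primrec.snd)) Primrec.fst
  have h2 : PrimrecPred (fun q : List (Fin n × Bool) × Comp_Par n =>
      inS q.2.1 q.2.2.1 (q.1 ++ q.2.2.2)) :=
    Comp_inS (Primrec.fst.comp Primrec.snd)
      (Primrec.fst.comp (Primrec.snd.comp Primrec.snd))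
      (Primrec.list_append.comp Primrec.fst (Primrec.snd.comp (Primrec.snd.comp Primrec.snd)))
  exact h1.not.and h2

theorem Comp_checkR (n : ℕ) : PrimrecPred (fun q : ℕ × List (Fin n × Bool) =>
    checkR n q.1 q.2) := by
  have hW : Primrec (fun p : List (List (Fin n × Bool)) × (ℕ × List (Fin n × Bool)) =>
      wordsLE n (p.2.1 + p.2.2.length)) :=
    (primrec_wordsLE n).comp (Primrec.nat_add.comp (Primrec.fst.comp Primrec.snd)
      (Primrec.list_length.comp (Primrec.snd.comp Primrec.snd)))
  have h1 : PrimrecPred (fun p : Comp_Par n => ∀ h ∈ wordsLE n (p.2.1 + p.2.2.length),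
      (inS p.1 p.2.1 h → inS p.1 p.2.1 (h ++ p.2.2))) :=
    (PrimrecRel.forall_mem_list (Comp_rel1 n)).comp hW Primrec.id
  have h2 : PrimrecPred (fun p : Comp_Par n => ∃ h ∈ wordsLE n (p.2.1 + p.2.2.length),
      (¬ inS p.1 p.2.1 h ∧ inS p.1 p.2.1 (h ++ p.2.2))) :=
    (PrimrecRel.exists_mem_list (Comp_rel2 n)).comp hW Primrec.id
  have h3 : PrimrecRel (fun (S : List (List (Fin n × Bool))) (q : ℕ × List (Fin n × Bool)) =>
      (∀ h ∈ wordsLE n (q.1 + q.2.length), inS S q.1 h → inS S q.1 (h ++ q.2)) ∧
        ∃ h ∈ wordsLE n (q.1 + q.2.length), ¬ inS S q.1 h ∧ inS S q.1 (h ++ q.2)) :=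
    (h1.and h2).of_eq (fun p => Iff.rfl)
  have h4 := (PrimrecRel.exists_mem_list h3).comp
    ((primrec_subs n).comp ((primrec_wordsLE n).comp
      (Primrec.fst (α := ℕ) (β := List (Fin n × Bool))))) Primrec.id
  exact h4.of_eq (fun q => Iff.rfl)

theorem check_primrec (n : ℕ) : PrimrecPred (check n) := by
  have h := (Comp_checkR n).comp (Primrec.pair
    ((primrec_bd (2 * n)).comp (Primrec.list_length (α := Fin n × Bool))) Primrec.id)
  exact h.of_eq (fun L => Iff.rfl)

theorem check_computable (n : ℕ) : ComputablePred (check n) := by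
  obtain ⟨hd, hp⟩ := check_primrec n
  exact ⟨hd, hp.to_comp⟩

end PPos
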