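import Pool.Agent.H1.PP.PumpC

set_option autoImplicit false
set_option linter.unusedSectionVars false

/-!
# PP Chk: a finite search (helper1)

`wordsLE n k` = the list of all words of length `≤ k`; `subs L` contains every `L.filter p`.
`check_iff`. `→`: let `S` be as in `check n L`, `R = bd (2n) |L|`. `A = {g | g.toWord.take R ∈ S}`. `FC A` by `FC_of_radius` (radius `R`: `(mk (g.toWord.take R)).toWord.take R = g.toWord.take R`).
`g ∈ A → g * mk L ∈ A`: if `g.toWord.length ≤ R + |L|` take `h = g.toWord` (`reduce h = h`, `(g * mk L).toWord = reduce (h ++ L)`: `FreeGroup.mk` of `h ++ L`). If it is longer, `take_toWord_mul`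
(`(mk L).toWord.length ≤ L.length`: `FreeGroup.norm_mk_le`). The strict element: `g = mk h`.
`←`: `pump` for `w = mk L`, `l = L.length` gives `A` with `Pos (mk L) A` and radius `R` (`Fintype.card (Fin n × Bool) = 2 n` up to `mul_comm`). `S = (wordsLE n R).filter (fun u => mk u ∈ A)` (classical
decidability) is in `subs (wordsLE n R)`. For a word `h` (any length): `inS S R h ↔ mk h ∈ A`: `v = reduce h`, `v.take R` has length `≤ R`; `inS S R h ↔ mk (v.take R) ∈ A ↔ mk v ∈ A` (radius; if
`v.length ≤ R` then `v.take R = v`), `mk v = mk h`. The strict element `g`: its word must have length `≤ R + |L|`, otherwise `g` and `g * mk L` have the same prefix of length `R`.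
-/

namespace PPos

open FreeGroup

/-- all words of length at most `k` -/
def wordsLE (n : ℕ) : ℕ → List (List (Fin n × Bool))
  | 0 => [[]]
  | k + 1 => [] :: (wordsLE n k).flatMap (fun l =>
      ((List.finRange n).flatMap (fun i => [(i, true), (i, false)])).map (fun a => a :: l))

theorem mem_wordsLE {n k : ℕ} {l : List (Fin n × Bool)} : l ∈ wordsLE n k ↔ l.length ≤ k := by
  induction k generalizing l with
  | zero =>
    unfold wordsLE
    rw [List.mem_singleton, Nat.le_zero, List.length_eq_zero_iff]
  | succ k ih =>
    unfold wordsLE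
    rw [List.mem_cons, List.mem_flatMap]
    constructor
    · rintro (rfl | ⟨l', h1, h2⟩)
      · exact Nat.zero_le _
      · rw [List.mem_map] at h2
        obtain ⟨a, -, rfl⟩ := h2
        rw [List.length_cons]
        exact Nat.succ_le_succ (ih.mp h1)
    · intro h
      rcases l with _ | ⟨a, l⟩
      · exact Or.inl rfl
      · refine Or.inr ⟨l, ih.mpr (Nat.le_of_succ_le_succ h), ?_⟩
        rw [List.mem_map]
        refine ⟨a, ?_, rfl⟩
        rw [List.mem_flatMap]
        refine ⟨a.1, List.mem_finRange a.1, ?_⟩
        obtain ⟨i, b⟩ := a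
        cases b
        · simp
        · simp

/-- all sublists -/
def subs {β : Type} : List β → List (List β)
  | [] => [[]]
  | a :: l => subs l ++ (subs l).map (fun t => a :: t)

theorem filter_mem_subs {β : Type} (p : β → Bool) (L : List β) : L.filter p ∈ subs L := by
  induction L with
  | nil =>
    rw [List.filter_nil]
    exact List.mem_singleton.mpr rfl
  | cons a L ih =>
    rw [List.filter_cons]
    unfold subs
    rw [List.mem_append, List.mem_map]
    split_ifs
    · exact Or.inr ⟨_, ih, rfl⟩
    · exact Or.inl ih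

/-- the prefix of length `R` of the reduced word of `u` is in the list `S` -/
def inS {n : ℕ} (S : List (List (Fin n × Bool))) (R : ℕ) (u : List (Fin n × Bool)) : Prop :=
  (FreeGroup.reduce u).take R ∈ S

/-- the finite search with radius `R` -/
def checkR (n R : ℕ) (L : List (Fin n × Bool)) : Prop :=
  ∃ S ∈ subs (wordsLE n R),
    (∀ h ∈ wordsLE n (R + L.length), inS S R h → inS S R (h ++ L)) ∧
      ∃ h ∈ wordsLE n (R + L.length), ¬ inS S R h ∧ inS S R (h ++ L)

/-- the finite search -/
def check (n : ℕ) (L : List (Fin n × Bool)) : Prop := checkR n (bd (2 * n) L.length) L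

private theorem Chk_inS {n : ℕ} (S : List (List (Fin n × Bool))) (R : ℕ)
    (u : List (Fin n × Bool)) :
    inS S R u ↔ (mk u).toWord.take R ∈ S := by
  rw [toWord_mk]
  rfl

private theorem Chk_len {n : ℕ} (L : List (Fin n × Bool)) :
    (mk L : FreeGroup (Fin n)).toWord.length ≤ L.length := norm_mk_le

private theorem Chk_fwd {n R : ℕ} {L : List (Fin n × Bool)} (h : checkR n R L) :
    ∃ A, Pos (FreeGroup.mk L) A := by
  obtain ⟨S, -, h1, h0, h0len, h2, h3⟩ := h
  refine ⟨{g | g.toWord.take R ∈ S}, ?_, ?_, ?_⟩
  · refine FC_of_radius (R := R) ?_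
    intro g _
    have h4 : (mk (g.toWord.take R)).toWord = g.toWord.take R :=
      toWord_mk_of_isReduced (red_of_sub isReduced_toWord (List.take_prefix R g.toWord).isInfix)
    show g.toWord.take R ∈ S ↔ (mk (g.toWord.take R)).toWord.take R ∈ S
    rw [h4, List.take_take, min_self]
  · intro g hg
    have hg' : g.toWord.take R ∈ S := hg
    show (g * mk L).toWord.take R ∈ S
    rcases le_or_gt g.toWord.length (R + L.length) with hl | hl
    · have h4 := h1 g.toWord (mem_wordsLE.mpr hl) ((Chk_inS S R _).mpr (by
        rw [mk_toWord]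
        exact hg'))
      rw [Chk_inS, ← mul_mk, mk_toWord] at h4
      exact h4
    · rw [take_toWord_mul (by have := Chk_len L; omega)]
      exact hg'
  · refine ⟨mk h0, ?_, ?_⟩
    · intro h4
      exact h2 ((Chk_inS S R h0).mpr h4)
    · show (mk h0 * mk L).toWord.take R ∈ S
      rw [mul_mk]
      exact (Chk_inS S R (h0 ++ L)).mp h3

private theorem Chk_bwd {n R : ℕ} {L : List (Fin n × Bool)} {A : Set (FreeGroup (Fin n))}
    (hP : Pos (FreeGroup.mk L) A)
    (hR : ∀ g : FreeGroup (Fin n), R ≤ g.toWord.length → (g ∈ A ↔ mk (g.toWord.take R) ∈ A)) :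
    checkR n R L := by
  classical
  have key : ∀ u : List (Fin n × Bool),
      inS ((wordsLE n R).filter (fun u => decide (mk u ∈ A))) R u ↔ mk u ∈ A := by
    intro u
    rw [Chk_inS, List.mem_filter, decide_eq_true_iff]
    have h1 : (mk u).toWord.take R ∈ wordsLE n R := mem_wordsLE.mpr (List.length_take_le _ _)
    rw [and_iff_right h1]
    rcases le_total R (mk u).toWord.length with hl | hl
    · exact (hR (mk u) hl).symm
    · rw [List.take_of_length_le hl, mk_toWord]
  refine ⟨(wordsLE n R).filter (fun u => decide (mk u ∈ A)), filter_mem_subs _ _, ?_, ?_⟩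
  · intro h _ hh
    rw [key] at hh ⊢
    rw [← mul_mk]
    exact hP.low _ hh
  · obtain ⟨g, hg1, hg2⟩ := hP.str
    refine ⟨g.toWord, ?_, ?_, ?_⟩
    · rw [mem_wordsLE]
      by_contra hl
      push Not at hl
      have h1 : (g * mk L).toWord.take R = g.toWord.take R :=
        take_toWord_mul (by have := Chk_len L; omega)
      have h2 : R ≤ g.toWord.length := by omega
      have h3 : R ≤ (g * mk L).toWord.length := by
        have h4 := congrArg List.length h1
        rw [List.length_take, List.length_take, min_eq_left h2] at h4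
        exact min_eq_left_iff.mp h4
      apply hg1
      rw [hR g h2, ← h1, ← hR _ h3]
      exact hg2
    · rw [key, mk_toWord]
      exact hg1
    · rw [key, ← mul_mk, mk_toWord]
      exact hg2

theorem check_iff (n : ℕ) (L : List (Fin n × Bool)) :
    check n L ↔ ∃ A, Pos (FreeGroup.mk L) A := by
  constructor
  · intro h
    exact Chk_fwd h
  · intro h
    obtain ⟨A, hA, hR⟩ := pump (Chk_len L) h
    have hc : Fintype.card (Fin n × Bool) = 2 * n := by
      rw [Fintype.card_prod, Fintype.card_fin, Fintype.card_bool, mul_comm]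
    rw [hc] at hR
    exact Chk_bwd hA hR

end PPos
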