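import Pool.Agent.H1.PP.Word

set_option autoImplicit false
set_option linter.unusedSectionVars false

/-!
# PP AI: sets with finite coboundary, almost equality, crossing (helper1)

Everything here is elementary (finite unions of finite sets, images of finite sets under translations and automorphisms).
`Set.Infinite` is invariant under `Aeq`: `Set.Infinite.mono`/`Set.Finite.subset`: `A ⊆ B ∪ {g | ¬ (g ∈ A ↔ g ∈ B)}`.
`FC_of_gen`: if the condition holds for the generators `of i` then for their inverses (translate by `(of i)⁻¹`), and then for all `h` (`FreeGroup.induction_on`):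
`{g | ¬ (g ∈ A ↔ g (h h') ∈ A)} ⊆ {g | ¬ (g ∈ A ↔ g h ∈ A)} ∪ {g | ¬ (g h ∈ A ↔ (g h) h' ∈ A)}`.
`FC_C`: `g ∈ C a ↔ g x ∈ C a` for `x = of i` unless one of `g, g x` is `1`: right multiplication by a letter changes only the last letter of a reduced word. So the
exceptional set is contained in `{1, x⁻¹}`. (Use `toWord (g * lt b)`: either `g.toWord ++ [b]` or `dropLast`; or apply inversion to `toWord_lt_mul`.)
`FC_CB`: finite union of the `C a` (`ι` finite).
-/

namespace PPos

open FreeGroup

variable {ι : Type} [DecidableEq ι]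

theorem AI_getLast_tail {α : Type} (l : List α) (h : l.tail ≠ []) :
    l.tail.getLast? = l.getLast? := by
  cases l with
  | nil => simp at h
  | cons a l =>
    simp only [List.tail_cons] at h ⊢
    cases l with
    | nil => simp at h
    | cons b l => simp [List.getLast?_cons_cons]

theorem AI_getLast_cons {α : Type} (a : α) (l : List α) (h : l ≠ []) :
    (a :: l).getLast? = l.getLast? := by
  cases l with
  | nil => simp at h
  | cons b l => simp [List.getLast?_cons_cons]

theorem AI_head_inv (g : FreeGroup ι) : g.toWord.head? = g⁻¹.toWord.getLast?.map bar := by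
  rw [FreeGroup.toWord_inv]
  unfold FreeGroup.invRev
  rw [List.getLast?_reverse, List.head?_map, Option.map_map]
  have : (bar ∘ fun x : ι × Bool => (x.1, !x.2)) = id := by
    funext x
    simp [bar]
  simp [this]

theorem AI_head_mul (g : FreeGroup ι) (i : ι) (h1 : g ≠ 1) (h2 : g ≠ (FreeGroup.of i)⁻¹) :
    g.toWord.head? = (g * FreeGroup.of i).toWord.head? := by
  have hx : (FreeGroup.of i)⁻¹ = lt (i, false) := by
    have := lt_bar (i, true)
    simp only [bar, Bool.not_true] at this
    rw [this]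
    rfl
  rw [AI_head_inv g, AI_head_inv (g * FreeGroup.of i), mul_inv_rev, hx, toWord_lt_mul]
  have hg : g⁻¹.toWord ≠ [] := by
    intro hh
    rw [FreeGroup.toWord_eq_nil_iff] at hh
    exact h1 (inv_eq_one.1 hh)
  split_ifs with hc
  · rw [AI_getLast_tail]
    intro hh
    apply h2
    -- the word of g⁻¹ is the single letter bar (i, false)
    have hw : g⁻¹.toWord = [bar (i, false)] := by
      cases hl : g⁻¹.toWord with
      | nil => exact absurd hl hg
      | cons a l =>
        rw [hl] at hc hh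
        simp only [List.head?_cons, Option.some.injEq] at hc
        simp only [List.tail_cons] at hh
        rw [hc, hh]
    have : g⁻¹ = lt (bar (i, false)) := by
      rw [← FreeGroup.mk_toWord (x := g⁻¹), hw]
      rfl
    rw [← inv_inv g, this]
    rfl
  · rw [AI_getLast_cons _ _ hg]

theorem AI_tr_inf {g : FreeGroup ι} {S : Set (FreeGroup ι)} :
    (PPos.tr g S).Infinite ↔ S.Infinite := by
  have key : ∀ (x : FreeGroup ι) (T : Set (FreeGroup ι)), T.Finite → (PPos.tr x T).Finite :=
    fun x T hT => Set.Finite.preimage (f := fun y => x⁻¹ * y)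
      ((mul_right_injective x⁻¹).injOn) hT
  constructor
  · intro h hS
    exact h (key g S hS)
  · intro h hS
    apply h
    have := key g⁻¹ _ hS
    rwa [tr_tr, inv_mul_cancel, tr_one] at this

theorem AI_im_inf {τ : FreeGroup ι ≃* FreeGroup ι} {S : Set (FreeGroup ι)} :
    (PPos.im τ S).Infinite ↔ S.Infinite := by
  have key : ∀ (x : FreeGroup ι ≃* FreeGroup ι) (T : Set (FreeGroup ι)), T.Finite →
      (PPos.im x T).Finite :=
    fun x T hT => Set.Finite.preimage (f := fun y => x.symm y) (x.symm.injective.injOn) hT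
  constructor
  · intro h hS
    exact h (key τ S hS)
  · intro h hS
    apply h
    have h2 := key τ.symm _ hS
    have : PPos.im τ.symm (PPos.im τ S) = S := by
      ext x
      simp [PPos.im]
    rwa [this] at h2

theorem Aeq.refl (A : Set (FreeGroup ι)) : Aeq A A := by
  simp [Aeq]

theorem Aeq.of_eq {A B : Set (FreeGroup ι)} (h : A = B) : Aeq A B := by
  subst h; exact Aeq.refl A

theorem Aeq.symm {A B : Set (FreeGroup ι)} (h : Aeq A B) : Aeq B A := by
  refine Set.Finite.subset h ?_
  intro g hg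
  simp only [Set.mem_ofPred_eq] at hg ⊢
  tauto

theorem Aeq.trans {A B E : Set (FreeGroup ι)} (h : Aeq A B) (h' : Aeq B E) : Aeq A E := by
  refine Set.Finite.subset (Set.Finite.union h h') ?_
  intro g hg
  simp only [Set.mem_union, Set.mem_ofPred_eq] at hg ⊢
  tauto

theorem Aeq.compl {A B : Set (FreeGroup ι)} (h : Aeq A B) : Aeq Aᶜ Bᶜ := by
  refine Set.Finite.subset h ?_
  intro g hg
  simp only [Set.mem_compl_iff, Set.mem_ofPred_eq] at hg ⊢
  tauto

theorem Aeq.inter {A B A' B' : Set (FreeGroup ι)} (h : Aeq A B) (h' : Aeq A' B') :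
    Aeq (A ∩ A') (B ∩ B') := by
  refine Set.Finite.subset (Set.Finite.union h h') ?_
  intro g hg
  simp only [Set.mem_union, Set.mem_inter_iff, Set.mem_ofPred_eq] at hg ⊢
  tauto

theorem Aeq.union {A B A' B' : Set (FreeGroup ι)} (h : Aeq A B) (h' : Aeq A' B') :
    Aeq (A ∪ A') (B ∪ B') := by
  refine Set.Finite.subset (Set.Finite.union h h') ?_
  intro g hg
  simp only [Set.mem_union, Set.mem_ofPred_eq] at hg ⊢
  tauto

theorem Aeq.tr {A B : Set (FreeGroup ι)} (h : Aeq A B) (g : FreeGroup ι) :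
    Aeq (tr g A) (tr g B) := by
  exact Set.Finite.preimage (f := fun x => g⁻¹ * x)
    ((mul_right_injective g⁻¹).injOn) h

theorem Aeq.im {A B : Set (FreeGroup ι)} (h : Aeq A B) (τ : FreeGroup ι ≃* FreeGroup ι) :
    Aeq (im τ A) (im τ B) := by
  exact Set.Finite.preimage (f := fun x => τ.symm x) (τ.symm.injective.injOn) h

theorem Aeq.infinite {A B : Set (FreeGroup ι)} (h : Aeq A B) (hA : A.Infinite) : B.Infinite := by
  intro hB
  refine hA (Set.Finite.subset (Set.Finite.union hB h) ?_)
  intro g hg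
  simp only [Set.mem_union, Set.mem_ofPred_eq]
  tauto

theorem Aeq.NT {A B : Set (FreeGroup ι)} (h : Aeq A B) (hA : NT A) : NT B := by
  exact ⟨h.infinite hA.1, h.compl.infinite hA.2⟩

theorem Aeq.Cr {A B A' B' : Set (FreeGroup ι)} (h : Aeq A B) (h' : Aeq A' B') (hC : Cr A A') :
    Cr B B' := by
  exact ⟨(h.inter h').infinite hC.1, (h.inter h'.compl).infinite hC.2.1,
    (h.compl.inter h').infinite hC.2.2.1, (h.compl.inter h'.compl).infinite hC.2.2.2⟩

theorem FC.compl {A : Set (FreeGroup ι)} (h : FC A) : FC Aᶜ := by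
  intro x
  refine Set.Finite.subset (h x) ?_
  intro g hg
  simp only [Set.mem_compl_iff, Set.mem_ofPred_eq] at hg ⊢
  tauto

theorem FC.inter {A B : Set (FreeGroup ι)} (h : FC A) (h' : FC B) : FC (A ∩ B) := by
  intro x
  refine Set.Finite.subset (Set.Finite.union (h x) (h' x)) ?_
  intro g hg
  simp only [Set.mem_union, Set.mem_inter_iff, Set.mem_ofPred_eq] at hg ⊢
  tauto

theorem FC.union {A B : Set (FreeGroup ι)} (h : FC A) (h' : FC B) : FC (A ∪ B) := by
  intro x
  refine Set.Finite.subset (Set.Finite.union (h x) (h' x)) ?_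
  intro g hg
  simp only [Set.mem_union, Set.mem_ofPred_eq] at hg ⊢
  tauto

theorem FC.tr {A : Set (FreeGroup ι)} (h : FC A) (g : FreeGroup ι) : FC (tr g A) := by
  intro x
  have := Set.Finite.preimage (f := fun y => g⁻¹ * y) ((mul_right_injective g⁻¹).injOn) (h x)
  refine Set.Finite.subset this ?_
  intro y hy
  simp only [Set.mem_preimage, Set.mem_ofPred_eq, mem_tr, mul_assoc] at hy ⊢
  exact hy

theorem FC.im {A : Set (FreeGroup ι)} (h : FC A) (τ : FreeGroup ι ≃* FreeGroup ι) :
    FC (im τ A) := by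
  intro x
  have := Set.Finite.preimage (f := fun y => τ.symm y) (τ.symm.injective.injOn) (h (τ.symm x))
  refine Set.Finite.subset this ?_
  intro y hy
  simp only [Set.mem_preimage, Set.mem_ofPred_eq, PPos.im, _root_.map_mul] at hy ⊢
  exact hy

theorem FC.congr {A B : Set (FreeGroup ι)} (h : FC A) (h' : Aeq A B) : FC B := by
  intro x
  have h1 := Set.Finite.preimage (f := fun y => y * x) ((mul_left_injective x).injOn) h'
  refine Set.Finite.subset (Set.Finite.union (Set.Finite.union (h x) h') h1) ?_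
  intro y hy
  simp only [Set.mem_union, Set.mem_preimage, Set.mem_ofPred_eq] at hy ⊢
  tauto

theorem FC_of_gen {A : Set (FreeGroup ι)}
    (h : ∀ i : ι, {g | ¬ (g ∈ A ↔ g * FreeGroup.of i ∈ A)}.Finite) : FC A := by
  intro x
  have hinv : ∀ y : FreeGroup ι, {g | ¬ (g ∈ A ↔ g * y ∈ A)}.Finite →
      {g | ¬ (g ∈ A ↔ g * y⁻¹ ∈ A)}.Finite := by
    intro y hy
    have h1 := Set.Finite.preimage (f := fun z => z * y⁻¹) ((mul_left_injective y⁻¹).injOn) hy
    refine Set.Finite.subset h1 ?_
    intro z hz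
    simp only [Set.mem_preimage, Set.mem_ofPred_eq, inv_mul_cancel_right] at hz ⊢
    tauto
  refine FreeGroup.induction_on (C := fun x => {g | ¬ (g ∈ A ↔ g * x ∈ A)}.Finite) x
    (by simp) (fun i => h i) (fun i _ => hinv _ (h i)) ?_
  · intro x y hx hy
    have h1 := Set.Finite.preimage (f := fun z => z * x) ((mul_left_injective x).injOn) hy
    refine Set.Finite.subset (Set.Finite.union hx h1) ?_
    intro z hz
    simp only [Set.mem_union, Set.mem_preimage, Set.mem_ofPred_eq, mul_assoc] at hz ⊢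
    tauto

theorem FC_C (a : ι × Bool) : FC (C a) := by
  refine FC_of_gen (fun i => ?_)
  refine Set.Finite.subset (Set.toFinite {1, (FreeGroup.of i)⁻¹}) ?_
  intro g hg
  simp only [Set.mem_ofPred_eq, Set.mem_insert_iff, Set.mem_singleton_iff] at hg ⊢
  by_contra hcon
  push Not at hcon
  apply hg
  rw [mem_C, mem_C, AI_head_mul g i hcon.1 hcon.2]

theorem FC_CB [Finite ι] (B : Set (ι × Bool)) : FC (CB B) := by
  refine Set.Finite.induction_on (motive := fun B _ => FC (CB B)) B (Set.toFinite B) ?_ ?_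
  · intro x
    simp [CB]
  · intro a B _ _ ih
    have : CB (insert a B) = C a ∪ CB B := by
      ext g
      simp [CB, C]
    rw [this]
    exact (FC_C a).union ih

theorem Cr_comm {A E : Set (FreeGroup ι)} : Cr A E ↔ Cr E A := by
  unfold Cr
  rw [Set.inter_comm E A, Set.inter_comm E Aᶜ, Set.inter_comm Eᶜ A, Set.inter_comm Eᶜ Aᶜ]
  tauto

theorem Cr_compl_left {A E : Set (FreeGroup ι)} : Cr Aᶜ E ↔ Cr A E := by
  unfold Cr
  rw [compl_compl]
  tauto

theorem Cr_compl_right {A E : Set (FreeGroup ι)} : Cr A Eᶜ ↔ Cr A E := by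
  unfold Cr
  rw [compl_compl]
  tauto

theorem Cr_tr {A E : Set (FreeGroup ι)} (g : FreeGroup ι) : Cr (tr g A) (tr g E) ↔ Cr A E := by
  unfold Cr
  rw [← tr_compl, ← tr_compl, ← tr_inter, ← tr_inter, ← tr_inter, ← tr_inter]
  simp only [AI_tr_inf]

theorem Cr_im {A E : Set (FreeGroup ι)} (τ : FreeGroup ι ≃* FreeGroup ι) :
    Cr (im τ A) (im τ E) ↔ Cr A E := by
  unfold Cr
  have e1 : ∀ S : Set (FreeGroup ι), (im τ S)ᶜ = im τ Sᶜ := fun S => rfl
  have e2 : ∀ S T : Set (FreeGroup ι), im τ S ∩ im τ T = im τ (S ∩ T) := fun S T => rfl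
  rw [e1, e1, e2, e2, e2, e2]
  simp only [AI_im_inf]

theorem NT_tr {A : Set (FreeGroup ι)} (h : NT A) (g : FreeGroup ι) : NT (tr g A) := by
  refine ⟨AI_tr_inf.2 h.1, ?_⟩
  rw [← tr_compl]
  exact AI_tr_inf.2 h.2

theorem NT_im {A : Set (FreeGroup ι)} (h : NT A) (τ : FreeGroup ι ≃* FreeGroup ι) :
    NT (im τ A) := by
  refine ⟨AI_im_inf.2 h.1, ?_⟩
  have e1 : (im τ A)ᶜ = im τ Aᶜ := rfl
  rw [e1]
  exact AI_im_inf.2 h.2

theorem Low.tr {w : FreeGroup ι} {A : Set (FreeGroup ι)} (h : Low w A) (g : FreeGroup ι) :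
    Low w (tr g A) := by
  refine ⟨h.fc.tr g, NT_tr h.nt g, ?_⟩
  intro x hx
  have := h.low _ hx
  rw [mem_tr, ← mul_assoc]
  exact this

theorem Low.im {w : FreeGroup ι} {A : Set (FreeGroup ι)} (h : Low w A)
    (τ : FreeGroup ι ≃* FreeGroup ι) : Low (τ w) (im τ A) := by
  refine ⟨h.fc.im τ, NT_im h.nt τ, ?_⟩
  intro x hx
  have := h.low _ hx
  change τ.symm (x * τ w) ∈ A
  rw [_root_.map_mul, MulEquiv.symm_apply_apply]
  exact this

theorem Pos.im {w : FreeGroup ι} {A : Set (FreeGroup ι)} (h : Pos w A)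
    (τ : FreeGroup ι ≃* FreeGroup ι) : Pos (τ w) (im τ A) := by
  refine ⟨h.fc.im τ, ?_, ?_⟩
  · intro x hx
    have := h.low _ hx
    change τ.symm (x * τ w) ∈ A
    rw [_root_.map_mul, MulEquiv.symm_apply_apply]
    exact this
  · obtain ⟨g, hg1, hg2⟩ := h.str
    refine ⟨τ g, ?_, ?_⟩
    · change ¬ (τ.symm (τ g) ∈ A)
      rwa [MulEquiv.symm_apply_apply]
    · change τ.symm (τ g * τ w) ∈ A
      rwa [_root_.map_mul, MulEquiv.symm_apply_apply, MulEquiv.symm_apply_apply]

/-- `Pos w A` implies that `A` is nontrivial: if `A` is finite, `A w ⊆ A` implies `A w = A`;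
the same for the complement and `w⁻¹`. -/
theorem Pos.Low {w : FreeGroup ι} {A : Set (FreeGroup ι)} (h : Pos w A) : Low w A := by
  obtain ⟨g, hg1, hg2⟩ := h.str
  refine ⟨h.fc, ⟨?_, ?_⟩, h.low⟩
  · intro hfin
    have hsub : (fun x => x * w) '' A ⊆ A := by
      rintro _ ⟨x, hx, rfl⟩
      exact h.low x hx
    have heq := Set.eq_of_subset_of_ncard_le hsub
      (Set.ncard_image_of_injective A (mul_left_injective w)).ge hfin
    rw [← heq] at hg2
    obtain ⟨x, hx, hxg⟩ := hg2
    have : x = g := mul_right_cancel hxg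
    exact hg1 (this ▸ hx)
  · intro hfin
    have hsub : (fun x => x * w⁻¹) '' Aᶜ ⊆ Aᶜ := by
      rintro _ ⟨x, hx, rfl⟩
      intro hx2
      apply hx
      have := h.low _ hx2
      simpa using this
    have heq := Set.eq_of_subset_of_ncard_le hsub
      (Set.ncard_image_of_injective Aᶜ (mul_left_injective w⁻¹)).ge hfin
    have hg3 : g ∈ Aᶜ := hg1
    rw [← heq] at hg3
    obtain ⟨x, hx, hxg⟩ := hg3
    apply hx
    have : x = g * w := by
      rw [← hxg]; simp
    rw [this]
    exact hg2

end PPos
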