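import Pool.Agent.H1.PP.Radius

set_option autoImplicit false
set_option linter.unusedSectionVars false

/-!
# PP CrFin: only finitely many translates cross (helper1)

PROOF. By `exists_radius` and `radius_mono` there is one `R` for both `A` and `E`. CLAIM: if `h A` crosses `E` then `h.toWord.length ≤ 2 R` (then use
`finite_length_le`). Suppose `h.toWord.length > 2 R` and let `Z = {g | g.toWord.take R = h.toWord.take R}` (all elements whose word has the same prefix `p` of length
`R` as `h`). (1) On `Z` the membership in `E` is constant (`g ∈ E ↔ mk p ∈ E`). (2) On the complement of `Z` the membership in `tr h A` is constant: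
let `g ∉ Z`. Then the word of `h⁻¹ g` has the same prefix of length `R` as the word of `h⁻¹`: write `h.toWord = p ++ s`, `s.length > R`; `h⁻¹ = s⁻¹ p⁻¹`; the common prefix
of `h.toWord` and `g.toWord` has length `k < R` (otherwise `g ∈ Z`), so `h⁻¹ g` = (inverse of `h.toWord.drop k`) `++` (`g.toWord.drop k`), a reduced word, and the first
`h.toWord.length - k > R` letters agree with those of `h⁻¹`. [Formally maybe easier: `take_toWord_mul`: `h⁻¹ g = (h.toWord.drop k)⁻¹ (g.toWord.drop k)`.] So
`g ∈ tr h A ↔ h⁻¹ g ∈ A ↔ mk ((h⁻¹).toWord.take R) ∈ A`.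
So one of the four corners of `tr h A` and `E` is empty: if `E` is full on `Z` and `tr h A` is empty on `Zᶜ`, then `tr h A ⊆ Z ⊆ E`, and so on (4 cases).
-/

namespace PPos

open FreeGroup

variable {ι : Type} [DecidableEq ι]

/-- common prefix of two lists -/
theorem CrFin_split {α : Type} (w v : List α) :
    ∃ c w' v' : List α, w = c ++ w' ∧ v = c ++ v' ∧
      ∀ x ∈ w'.head?, ∀ y ∈ v'.head?, x ≠ y := by
  classical
  induction w generalizing v with
  | nil => exact ⟨[], [], v, rfl, rfl, by simp⟩
  | cons a w1 ih =>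
    cases v with
    | nil => exact ⟨[], a :: w1, [], rfl, rfl, by simp⟩
    | cons b v1 =>
      by_cases hab : a = b
      · subst hab
        obtain ⟨c, w', v', h1, h2, h3⟩ := ih v1
        exact ⟨a :: c, w', v', by rw [h1]; rfl, by rw [h2]; rfl, h3⟩
      · refine ⟨[], a :: w1, b :: v1, rfl, rfl, ?_⟩
        intro x hx y hy
        simp only [List.head?_cons, Option.mem_def, Option.some.injEq] at hx hy
        rw [← hx, ← hy]
        exact hab

/-- the word of the inverse of a left quotient -/
theorem CrFin_quot {c w' v' : List (ι × Bool)} {h g : FreeGroup ι} (hh : h.toWord = c ++ w')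
    (hg : g.toWord = c ++ v') (hne : ∀ x ∈ w'.head?, ∀ y ∈ v'.head?, x ≠ y) :
    (h⁻¹ * g).toWord = invRev w' ++ v' := by
  have e1 : h⁻¹ * g = mk (invRev w' ++ v') := by
    have a1 : h = mk c * mk w' := by rw [mul_mk, ← hh, mk_toWord]
    have a2 : g = mk c * mk v' := by rw [mul_mk, ← hg, mk_toWord]
    rw [a1, a2, mul_inv_rev, ← mul_mk, ← inv_mk]
    group
  rw [e1]
  apply toWord_mk_of_isReduced
  have hr1 : IsReduced (c ++ w') := by rw [← hh]; exact isReduced_toWord
  have hr2 : IsReduced (c ++ v') := by rw [← hg]; exact isReduced_toWord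
  have hw : IsReduced w' := red_of_sub hr1 ⟨c, [], by simp⟩
  have hv : IsReduced v' := red_of_sub hr2 ⟨c, [], by simp⟩
  have hiw : IsReduced (invRev w') := by
    rw [isReduced_iff_reduce_eq, reduce_invRev, hw.reduce_eq]
  unfold FreeGroup.IsReduced at hiw hv ⊢
  rw [List.isChain_append]
  refine ⟨hiw, hv, ?_⟩
  intro x hx y hy hxy
  have hx2 : ∃ a ∈ w'.head?, x = (a.1, !a.2) := by
    have h0 : (invRev w').getLast? = w'.head?.map (fun g : ι × Bool => (g.1, !g.2)) := by
      rw [invRev, List.getLast?_reverse, List.head?_map]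
    rw [h0] at hx
    simp only [Option.mem_def, Option.map_eq_some_iff] at hx
    obtain ⟨a, ha, hax⟩ := hx
    exact ⟨a, ha, hax.symm⟩
  obtain ⟨a, ha, rfl⟩ := hx2
  have hay := hne a ha y hy
  have h1 : a.1 = y.1 := hxy
  have h2 : a.2 ≠ y.2 := fun h => hay (Prod.ext h1 h)
  show (!a.2) = y.2
  cases ha2 : a.2 <;> cases hy2 : y.2 <;> simp_all

/-- outside the cylinder of the prefix of `h` the quotient `h⁻¹ g` has the prefix of `h⁻¹` -/
theorem CrFin_take {h g : FreeGroup ι} {R : ℕ} (hR : 2 * R < h.toWord.length)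
    (hg : g.toWord.take R ≠ h.toWord.take R) :
    (h⁻¹ * g).toWord.take R = (h⁻¹).toWord.take R ∧ R ≤ (h⁻¹ * g).toWord.length := by
  obtain ⟨c, w', v', h1, h2, h3⟩ := CrFin_split h.toWord g.toWord
  have hc : c.length < R := by
    by_contra hcon
    push Not at hcon
    apply hg
    rw [h1, h2, List.take_append_of_le_length hcon, List.take_append_of_le_length hcon]
  have hw : R ≤ w'.length := by
    have : h.toWord.length = c.length + w'.length := by rw [h1, List.length_append]
    omega
  have hiw : R ≤ (invRev w').length := by rwa [invRev_length]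
  rw [CrFin_quot h1 h2 h3]
  refine ⟨?_, ?_⟩
  · rw [List.take_append_of_le_length hiw, toWord_inv, h1]
    have : invRev (c ++ w') = invRev w' ++ invRev c := by
      simp [invRev]
    rw [this, List.take_append_of_le_length hiw]
  · rw [List.length_append]
    omega

theorem Cr_finite [Finite ι] {A E : Set (FreeGroup ι)} (hA : FC A) (hE : FC E) :
    {h : FreeGroup ι | Cr (tr h A) E}.Finite := by
  obtain ⟨R1, hR1⟩ := hA.exists_radius
  obtain ⟨R2, hR2⟩ := hE.exists_radius
  have hRA := radius_mono (le_max_left R1 R2) hR1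
  have hRE := radius_mono (le_max_right R1 R2) hR2
  set R := max R1 R2 with hRdef
  refine (finite_length_le (ι := ι) (2 * R)).subset ?_
  intro h hh
  by_contra hlong
  have hlong' : 2 * R < h.toWord.length := not_le.1 hlong
  have hh' : Cr (tr h A) E := hh
  obtain ⟨c1, c2, c3, c4⟩ := hh'
  -- the two constancy statements
  have e1 : ∀ g : FreeGroup ι, g.toWord.take R = h.toWord.take R →
      (g ∈ E ↔ mk (h.toWord.take R) ∈ E) := by
    intro g hg
    have hl : R ≤ g.toWord.length := by
      have := congrArg List.length hg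
      rw [List.length_take, List.length_take] at this
      omega
    rw [hRE g hl, hg]
  have e2 : ∀ g : FreeGroup ι, g.toWord.take R ≠ h.toWord.take R →
      (g ∈ tr h A ↔ mk ((h⁻¹).toWord.take R) ∈ A) := by
    intro g hg
    obtain ⟨t1, t2⟩ := CrFin_take hlong' hg
    rw [mem_tr, hRA _ t2, t1]
  by_cases hP : mk (h.toWord.take R) ∈ E
  · by_cases hQ : mk ((h⁻¹).toWord.take R) ∈ A
    · obtain ⟨g, hg1, hg2⟩ := c4.nonempty
      by_cases hz : g.toWord.take R = h.toWord.take R
      · exact hg2 ((e1 g hz).2 hP)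
      · exact hg1 ((e2 g hz).2 hQ)
    · obtain ⟨g, hg1, hg2⟩ := c2.nonempty
      by_cases hz : g.toWord.take R = h.toWord.take R
      · exact hg2 ((e1 g hz).2 hP)
      · exact hQ ((e2 g hz).1 hg1)
  · by_cases hQ : mk ((h⁻¹).toWord.take R) ∈ A
    · obtain ⟨g, hg1, hg2⟩ := c3.nonempty
      by_cases hz : g.toWord.take R = h.toWord.take R
      · exact hP ((e1 g hz).1 hg2)
      · exact hg1 ((e2 g hz).2 hQ)
    · obtain ⟨g, hg1, hg2⟩ := c1.nonempty
      by_cases hz : g.toWord.take R = h.toWord.take R
      · exact hP ((e1 g hz).1 hg2)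
      · exact hQ ((e2 g hz).1 hg1)

end PPos
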