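import Pool.Agent.H1.PP.AI

set_option autoImplicit false
set_option linter.unusedSectionVars false

/-!
# PP Whi: a Whitehead automorphism moves `CB B` to a half space (helper1)

`a ∈ B`, `bar a ∉ B`. For a letter `y` put `λ(y) = 1` if `y ∈ B`, `λ(y) = a⁻¹` if `y ∉ B`. The automorphism: `τ(a) = a`, and `τ(y) = λ(y) y λ(bar y)⁻¹` for
`y ≠ a, bar a`. It is an automorphism: an inverse is `σ(a) = a`, `σ(y) = λ(y)⁻¹ y λ(bar y)` (define both by `FreeGroup.lift` on generators `x_i`, `y = (i, true)`; for
`i = a.1` both are the identity on `x_i`; the formula `τ(y) = λ(y) y λ(bar y)⁻¹` is compatible with `y ↦ bar y`, so it holds for all letters `y ≠ a, bar a`;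
`MonoidHom.toMulEquiv` or `MulEquiv.mk'`-like with `FreeGroup.ext_hom`).
KEY CLAIM (induction on the reduced word of `g = y g'`): for `g ≠ 1` with first letter `y`, the reduced word of `τ(g)`
 (i) `y ∈ B`, `y ≠ a`: begins with `y`;
 (ii) `y = a`: is nonempty and begins with `a` or with a letter that is not in `B ∪ {bar a}`;
 (iii) `y ∉ B`, `y ≠ bar a`: begins with `bar a, y`;
 (iv) `y = bar a`: is `[bar a]` or begins with `bar a, z` with `z = bar a` or `z ∈ B \ {a}`.
 Proof: write `g = y g'`, `g' = 1` or its first letter is `y₂ ≠ bar y`. `τ(g) = τ(y) τ(g')`.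
 (i) `τ(y) = y` if `bar y ∈ B`, `τ(y) = y a` if `bar y ∉ B`. In the first case `τ(g')` does not begin with `bar y`: by (i)-(iv) for `g'` (`bar y ∈ B`, `bar y ≠ bar a`; the
 first letter of `τ(g')` is `y₂` with `y₂ ≠ bar y` in case (i), in case (ii) `a` or a letter outside `B` (and `bar y ≠ a` because `y ≠ bar a ∉ B`), in (iii), (iv) it is `bar a`).
 In the second case: if `y₂ ∈ B` then `τ(g')` does not begin with `bar a`, so `a τ(g')` begins with `a ≠ bar y` (`y ≠ bar a`). If `y₂ ∉ B`, then `a τ(g')` is `1` or begins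
 with `y₂ ≠ bar y` (iii) or with `z = bar a` or `z ∈ B \ {a}` (iv), `≠ bar y ∉ B` and `bar y ≠ bar a`.
 (iii) `τ(y) = a⁻¹ y` or `a⁻¹ y a`; as in (i) no cancellation with `y`, and `bar a, y` is reduced (`y ≠ a`).
 (ii) `τ(g) = a τ(g')`, `y₂ ≠ bar a`: if `y₂ ∈ B` then `τ(g')` does not begin with `bar a`, so the word begins with `a`; if `y₂ ∉ B`: (iii), so it begins with `y₂ ∉ B ∪ {bar a}`.
 If `g' = 1` it is `[a]`.
 (iv) `τ(g) = a⁻¹ τ(g')`, `y₂ ≠ a`: `y₂ ∈ B`: (i): begins with `bar a, y₂`. `y₂ ∉ B`: (iii) or (iv): `bar a, bar a`.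
CONSEQUENCES. `g ∈ CB B ↔ τ(g) ∈ tr (lt a)⁻¹ (C a)` for `g ≠ 1` (`τ(g) ∈ tr (lt a)⁻¹ (C a)` iff `a τ(g)` begins with `a` iff `τ(g)` does not begin with `bar a`:
`toWord_lt_mul`). And for `x ≠ a, bar a`: `g ∈ C x ↔ τ(g) ∈ tr λ(x) (C x)`: for `x ∈ B`: `τ(g)` begins with `x` iff `y = x` (by (i)-(iv)); for `x ∉ B`: `a τ(g)` begins with
`x` iff `τ(g)` begins with `bar a, x` (or does not begin with `bar a` and .. then `a τ(g)` begins with `a ≠ x`) iff `y = x`.
`im τ A = {g | τ.symm g ∈ A}`; the exceptional sets have at most one element (`g = 1`).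
-/

namespace PPos

open FreeGroup

variable {ι : Type} [DecidableEq ι]

open Classical in
/-- the factor `λ(y)` -/
noncomputable def Whi_lam (B : Set (ι × Bool)) (a y : ι × Bool) : FreeGroup ι :=
  if y ∈ B then 1 else (lt a)⁻¹

open Classical in
/-- the automorphism on generators -/
noncomputable def Whi_t0 (B : Set (ι × Bool)) (a : ι × Bool) (i : ι) : FreeGroup ι :=
  if i = a.1 then of i else Whi_lam B a (i, true) * of i * (Whi_lam B a (i, false))⁻¹

open Classical in
/-- the inverse automorphism on generators -/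
noncomputable def Whi_s0 (B : Set (ι × Bool)) (a : ι × Bool) (i : ι) : FreeGroup ι :=
  if i = a.1 then of i else (Whi_lam B a (i, true))⁻¹ * of i * Whi_lam B a (i, false)

theorem Whi_lt_true (i : ι) : lt (i, true) = of i := rfl

theorem Whi_lt_false (i : ι) : lt (i, false) = (of i)⁻¹ := lt_bar (i, true)

theorem Whi_fix {φ : FreeGroup ι →* FreeGroup ι} {a : ι × Bool} (h : φ (of a.1) = of a.1) :
    φ (lt a) = lt a := by
  obtain ⟨i, b⟩ := a
  cases b
  · rw [Whi_lt_false, _root_.map_inv, h]
  · rw [Whi_lt_true, h]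

theorem Whi_fix_lam {φ : FreeGroup ι →* FreeGroup ι} {a : ι × Bool} (h : φ (of a.1) = of a.1)
    (B : Set (ι × Bool)) (y : ι × Bool) : φ (Whi_lam B a y) = Whi_lam B a y := by
  unfold Whi_lam
  split_ifs
  · exact _root_.map_one φ
  · rw [_root_.map_inv, Whi_fix h]

theorem Whi_t_fix (B : Set (ι × Bool)) (a : ι × Bool) :
    FreeGroup.lift (Whi_t0 B a) (of a.1) = of a.1 := by
  rw [FreeGroup.lift_apply_of, Whi_t0, if_pos rfl]

theorem Whi_s_fix (B : Set (ι × Bool)) (a : ι × Bool) :
    FreeGroup.lift (Whi_s0 B a) (of a.1) = of a.1 := by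
  rw [FreeGroup.lift_apply_of, Whi_s0, if_pos rfl]

/-- the Whitehead automorphism -/
noncomputable def Whi_tau (B : Set (ι × Bool)) (a : ι × Bool) : FreeGroup ι ≃* FreeGroup ι :=
  MonoidHom.toMulEquiv (FreeGroup.lift (Whi_t0 B a)) (FreeGroup.lift (Whi_s0 B a))
    (by
      apply FreeGroup.ext_hom
      intro i
      rw [MonoidHom.comp_apply, MonoidHom.id_apply]
      by_cases hi : i = a.1
      · subst hi
        rw [Whi_t_fix, Whi_s_fix]
      · rw [FreeGroup.lift_apply_of, Whi_t0, if_neg hi, _root_.map_mul, _root_.map_mul, _root_.map_inv,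
          Whi_fix_lam (Whi_s_fix B a), Whi_fix_lam (Whi_s_fix B a), FreeGroup.lift_apply_of,
          Whi_s0, if_neg hi]
        group)
    (by
      apply FreeGroup.ext_hom
      intro i
      rw [MonoidHom.comp_apply, MonoidHom.id_apply]
      by_cases hi : i = a.1
      · subst hi
        rw [Whi_s_fix, Whi_t_fix]
      · rw [FreeGroup.lift_apply_of, Whi_s0, if_neg hi, _root_.map_mul, _root_.map_mul, _root_.map_inv,
          Whi_fix_lam (Whi_t_fix B a), Whi_fix_lam (Whi_t_fix B a), FreeGroup.lift_apply_of,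
          Whi_t0, if_neg hi]
        group)

theorem Whi_tau_apply (B : Set (ι × Bool)) (a : ι × Bool) (g : FreeGroup ι) :
    Whi_tau B a g = FreeGroup.lift (Whi_t0 B a) g := rfl

theorem Whi_tau_a (B : Set (ι × Bool)) (a : ι × Bool) : Whi_tau B a (lt a) = lt a := by
  rw [Whi_tau_apply]
  exact Whi_fix (Whi_t_fix B a)

theorem Whi_tau_lt (B : Set (ι × Bool)) (a y : ι × Bool) (h1 : y ≠ a) (h2 : y ≠ bar a) :
    Whi_tau B a (lt y) = Whi_lam B a y * lt y * (Whi_lam B a (bar y))⁻¹ := by
  obtain ⟨i, b⟩ := y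
  have hi : i ≠ a.1 := by
    rintro rfl
    obtain ⟨i, c⟩ := a
    cases b <;> cases c <;> simp [bar] at h1 h2
  rw [Whi_tau_apply]
  cases b
  · rw [Whi_lt_false, _root_.map_inv, FreeGroup.lift_apply_of, Whi_t0, if_neg hi]
    have e : bar ((i, false) : ι × Bool) = (i, true) := rfl
    rw [e]
    group
  · rw [Whi_lt_true, FreeGroup.lift_apply_of, Whi_t0, if_neg hi]
    rfl

/-- the form of the reduced word of `τ(g)` when `g` begins with `y` -/
def Whi_P (B : Set (ι × Bool)) (a y : ι × Bool) (w : List (ι × Bool)) : Prop :=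
  (y ∈ B ∧ y ≠ a ∧ w.head? = some y) ∨
  (y = a ∧ ∃ z, w.head? = some z ∧ z ≠ bar a ∧ (z = a ∨ z ∉ B)) ∨
  (y ∉ B ∧ y ≠ bar a ∧ ∃ l, w = bar a :: y :: l) ∨
  (y = bar a ∧ ∃ l, w = bar a :: l ∧ ∀ z, l.head? = some z → z ≠ a ∧ (z = bar a ∨ z ∈ B))

/-- the form of the reduced word of `τ(g)` when the word of `g` is `l` -/
def Whi_Q (B : Set (ι × Bool)) (a : ι × Bool) (l w : List (ι × Bool)) : Prop :=
  (l = [] ∧ w = []) ∨ ∃ y, l.head? = some y ∧ Whi_P B a y w

theorem Whi_bar_inj {x y : ι × Bool} (h : bar x = bar y) : x = y := by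
  rw [← bar_bar x, h, bar_bar]

theorem Whi_ne_of_mem {B : Set (ι × Bool)} {x y : ι × Bool} (h : x ∈ B) (h' : y ∉ B) : x ≠ y := by
  rintro rfl
  exact h' h

/-- no cancellation at a letter `y ≠ a, bar a` -/
theorem Whi_step {B : Set (ι × Bool)} {a y : ι × Bool} (hb : bar a ∉ B)
    (h1 : y ≠ a) (h2 : y ≠ bar a) {l : List (ι × Bool)} {g : FreeGroup ι}
    (hl : l.head? ≠ some (bar y)) (hQ : Whi_Q B a l g.toWord) :
    ∃ l', (lt y * ((Whi_lam B a (bar y))⁻¹ * g)).toWord = y :: l' := by
  have hya : bar y ≠ a := fun h => h2 (by rw [← h, bar_bar])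
  have hyb : bar a ≠ bar y := fun h => h1 (Whi_bar_inj h).symm
  have key : ((Whi_lam B a (bar y))⁻¹ * g).toWord.head? ≠ some (bar y) := by
    by_cases hy : bar y ∈ B
    · have e : Whi_lam B a (bar y) = 1 := by rw [Whi_lam, if_pos hy]
      rw [e, inv_one, one_mul]
      intro h
      rcases hQ with ⟨_, hw⟩ | ⟨z, hz, hP⟩
      · rw [hw] at h
        simp at h
      · rcases hP with ⟨_, _, hw⟩ | ⟨_, z', hz', _, hzz⟩ | ⟨_, _, l', hw⟩ | ⟨_, l', hw, _⟩
        · rw [hw] at h
          rw [Option.some.injEq] at h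
          rw [h] at hz
          exact hl hz
        · rw [hz', Option.some.injEq] at h
          rcases hzz with hzz | hzz
          · exact hya (h.symm.trans hzz)
          · exact hzz (h ▸ hy)
        · rw [hw, List.head?_cons, Option.some.injEq] at h
          exact hyb h
        · rw [hw, List.head?_cons, Option.some.injEq] at h
          exact hyb h
    · have e : Whi_lam B a (bar y) = (lt a)⁻¹ := by rw [Whi_lam, if_neg hy]
      rw [e, inv_inv, toWord_lt_mul]
      split_ifs with hh
      · rcases hQ with ⟨_, hw⟩ | ⟨z, hz, hP⟩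
        · rw [hw] at hh
          simp at hh
        · rcases hP with ⟨hzB, _, hw⟩ | ⟨_, z', hz', hzb, _⟩ | ⟨_, _, l', hw⟩ | ⟨_, l', hw, hl'⟩
          · rw [hw, Option.some.injEq] at hh
            exact absurd (hh ▸ hzB) hb
          · rw [hz', Option.some.injEq] at hh
            exact absurd hh hzb
          · rw [hw, List.tail_cons, List.head?_cons]
            intro h
            rw [h] at hz
            exact hl hz
          · rw [hw, List.tail_cons]
            intro h
            rcases (hl' _ h).2 with h' | h'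
            · exact hyb h'.symm
            · exact hy h'
      · rw [List.head?_cons]
        intro h
        rw [Option.some.injEq] at h
        exact hya h.symm
  refine ⟨((Whi_lam B a (bar y))⁻¹ * g).toWord, ?_⟩
  rw [toWord_lt_mul, if_neg key]

theorem Whi_key {B : Set (ι × Bool)} {a : ι × Bool} (ha : a ∈ B) (hb : bar a ∉ B) :
    ∀ (l : List (ι × Bool)) (g : FreeGroup ι), g.toWord = l →
      Whi_Q B a l (Whi_tau B a g).toWord := by
  intro l
  induction l with
  | nil =>
    intro g hg
    have : g = 1 := FreeGroup.toWord_eq_nil_iff.mp hg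
    left
    refine ⟨rfl, ?_⟩
    rw [this, _root_.map_one, FreeGroup.toWord_one]
  | cons y l ih =>
    intro g hg
    obtain ⟨h1, h2, h3⟩ := toWord_cons hg
    have hQ := ih (mk l) h1
    right
    refine ⟨y, List.head?_cons, ?_⟩
    have hab : bar a ≠ a := bar_ne a
    rw [h2, _root_.map_mul]
    set g' := Whi_tau B a (mk l) with hg'
    by_cases hya : y = a
    · subst hya
      right; left
      refine ⟨rfl, ?_⟩
      rw [Whi_tau_a, toWord_lt_mul]
      split_ifs with hh
      · rcases hQ with ⟨_, hw⟩ | ⟨z, hz, hP⟩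
        · rw [hw] at hh
          simp at hh
        · rcases hP with ⟨hzB, _, hw⟩ | ⟨_, z', hz', hzb, _⟩ | ⟨hzB, hzb, l', hw⟩ | ⟨hzb, l', hw, hl'⟩
          · rw [hw, Option.some.injEq] at hh
            exact absurd (hh ▸ hzB) hb
          · rw [hz', Option.some.injEq] at hh
            exact absurd hh hzb
          · refine ⟨z, ?_, hzb, Or.inr hzB⟩
            rw [hw, List.tail_cons, List.head?_cons]
          · rw [hzb] at hz
            exact absurd hz h3
      · exact ⟨y, List.head?_cons, hab.symm, Or.inl rfl⟩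
    · by_cases hyb : y = bar a
      · subst hyb
        right; right; right
        refine ⟨rfl, ?_⟩
        have e : Whi_tau B a (lt (bar a)) = lt (bar a) := by
          rw [lt_bar, _root_.map_inv, Whi_tau_a]
        rw [bar_bar] at h3
        rw [e, toWord_lt_mul, bar_bar]
        rcases hQ with ⟨_, hw⟩ | ⟨z, hz, hP⟩
        · rw [hw]
          refine ⟨[], ?_, ?_⟩
          · simp
          · intro z hz
            simp at hz
        · have hza : z ≠ a := by
            rintro rfl
            exact h3 hz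
          rcases hP with ⟨hzB, _, hw⟩ | ⟨hz', _⟩ | ⟨_, _, l', hw⟩ | ⟨_, l', hw, _⟩
          · rw [if_neg (by rw [hw, Option.some.injEq]; exact hza)]
            refine ⟨_, rfl, ?_⟩
            intro x hx
            rw [hw, Option.some.injEq] at hx
            rw [← hx]
            exact ⟨hza, Or.inr hzB⟩
          · exact absurd hz' hza
          · rw [if_neg (by rw [hw, List.head?_cons, Option.some.injEq]; exact hab)]
            refine ⟨_, rfl, ?_⟩
            intro x hx
            rw [hw, List.head?_cons, Option.some.injEq] at hx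
            rw [← hx]
            exact ⟨hab, Or.inl rfl⟩
          · rw [if_neg (by rw [hw, List.head?_cons, Option.some.injEq]; exact hab)]
            refine ⟨_, rfl, ?_⟩
            intro x hx
            rw [hw, List.head?_cons, Option.some.injEq] at hx
            rw [← hx]
            exact ⟨hab, Or.inl rfl⟩
      · obtain ⟨l', hl'⟩ := Whi_step hb hya hyb h3 hQ
        rw [Whi_tau_lt B a y hya hyb, mul_assoc, mul_assoc]
        by_cases hyB : y ∈ B
        · left
          refine ⟨hyB, hya, ?_⟩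
          have e : Whi_lam B a y = 1 := by rw [Whi_lam, if_pos hyB]
          rw [e, one_mul, hl', List.head?_cons]
        · right; right; left
          refine ⟨hyB, hyb, l', ?_⟩
          have e : Whi_lam B a y = lt (bar a) := by rw [Whi_lam, if_neg hyB, lt_bar]
          rw [e, toWord_lt_mul, hl', List.head?_cons, bar_bar, if_neg]
          rw [Option.some.injEq]
          exact hya

theorem Whi_exists {B : Set (ι × Bool)} {a : ι × Bool} (ha : a ∈ B) (hb : bar a ∉ B)
    {g : FreeGroup ι} (hg : g ≠ 1) :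
    ∃ y, g.toWord.head? = some y ∧ Whi_P B a y (Whi_tau B a g).toWord := by
  rcases Whi_key ha hb _ g rfl with ⟨h, _⟩ | h
  · exact absurd (FreeGroup.toWord_eq_nil_iff.mp h) hg
  · exact h

/-- the criterion for almost equality -/
theorem Whi_aeq {τ : FreeGroup ι ≃* FreeGroup ι} {A A' : Set (FreeGroup ι)}
    (h : ∀ g, g ≠ 1 → (g ∈ A ↔ τ g ∈ A')) : Aeq (im τ A) A' := by
  apply (Set.finite_singleton (1 : FreeGroup ι)).subset
  intro x hx
  rw [Set.mem_singleton_iff]
  by_contra hx1
  apply hx
  have h1 : τ.symm x ≠ 1 := by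
    intro h1
    apply hx1
    rw [← τ.apply_symm_apply x, h1, _root_.map_one]
  have := h _ h1
  rw [τ.apply_symm_apply] at this
  exact this

theorem whitehead (B : Set (ι × Bool)) (a : ι × Bool) (ha : a ∈ B) (hb : bar a ∉ B) :
    ∃ τ : FreeGroup ι ≃* FreeGroup ι, Aeq (im τ (CB B)) (tr (lt a)⁻¹ (C a)) ∧
      ∀ x, x ≠ a → x ≠ bar a → ∃ g, Aeq (im τ (C x)) (tr g (C x)) := by
  have hab : bar a ≠ a := bar_ne a
  refine ⟨Whi_tau B a, ?_, ?_⟩
  · apply Whi_aeq
    intro g hg
    obtain ⟨y, hy, hP⟩ := Whi_exists ha hb hg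
    rw [mem_tr, inv_inv, mem_C, toWord_lt_mul]
    have hCB : g ∈ CB B ↔ y ∈ B := by
      constructor
      · rintro ⟨z, hz, hz'⟩
        rw [hy, Option.some.injEq] at hz'
        rw [hz']
        exact hz
      · intro h
        exact ⟨y, h, hy⟩
    rw [hCB]
    rcases hP with ⟨hyB, hya, hw⟩ | ⟨rfl, z, hz, hzb, _⟩ | ⟨hyB, hyb, l, hw⟩ | ⟨rfl, l, hw, hl⟩
    · rw [if_neg (by rw [hw, Option.some.injEq]; exact Whi_ne_of_mem hyB hb), List.head?_cons]
      exact ⟨fun _ => rfl, fun _ => hyB⟩
    · rw [if_neg (by rw [hz, Option.some.injEq]; exact hzb), List.head?_cons]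
      exact ⟨fun _ => rfl, fun _ => ha⟩
    · rw [if_pos (by rw [hw, List.head?_cons]), hw, List.tail_cons, List.head?_cons,
        Option.some.injEq]
      exact ⟨fun h => absurd h hyB, fun h => absurd (h ▸ ha) hyB⟩
    · rw [if_pos (by rw [hw, List.head?_cons]), hw, List.tail_cons]
      exact ⟨fun h => absurd h hb, fun h => absurd rfl (hl _ h).1⟩
  · intro x hxa hxb
    refine ⟨Whi_lam B a x, ?_⟩
    apply Whi_aeq
    intro g hg
    obtain ⟨y, hy, hP⟩ := Whi_exists ha hb hg
    rw [mem_tr, mem_C, mem_C, hy, Option.some.injEq]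
    by_cases hxB : x ∈ B
    · have e : Whi_lam B a x = 1 := by rw [Whi_lam, if_pos hxB]
      rw [e, inv_one, one_mul]
      rcases hP with ⟨_, _, hw⟩ | ⟨rfl, z, hz, _, hz'⟩ | ⟨hyB, _, l, hw⟩ | ⟨rfl, l, hw, _⟩
      · rw [hw, Option.some.injEq]
      · rw [hz, Option.some.injEq]
        constructor
        · intro h
          exact absurd h.symm hxa
        · intro h
          rcases hz' with hz' | hz'
          · exact absurd (h.symm.trans hz') hxa
          · exact absurd (h ▸ hxB) hz'
      · rw [hw, List.head?_cons, Option.some.injEq]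
        exact ⟨fun h => absurd (h ▸ hxB) hyB, fun h => absurd h.symm hxb⟩
      · rw [hw, List.head?_cons, Option.some.injEq]
    · have e : (Whi_lam B a x)⁻¹ = lt a := by rw [Whi_lam, if_neg hxB, inv_inv]
      rw [e, toWord_lt_mul]
      rcases hP with ⟨hyB, _, hw⟩ | ⟨rfl, z, hz, hzb, _⟩ | ⟨_, _, l, hw⟩ | ⟨rfl, l, hw, hl⟩
      · rw [if_neg (by rw [hw, Option.some.injEq]; exact Whi_ne_of_mem hyB hb), List.head?_cons,
          Option.some.injEq]
        exact ⟨fun h => absurd (h ▸ hyB) hxB, fun h => absurd h.symm hxa⟩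
      · rw [if_neg (by rw [hz, Option.some.injEq]; exact hzb), List.head?_cons,
          Option.some.injEq]
      · rw [if_pos (by rw [hw, List.head?_cons]), hw, List.tail_cons, List.head?_cons,
          Option.some.injEq]
      · rw [if_pos (by rw [hw, List.head?_cons]), hw, List.tail_cons]
        constructor
        · intro h
          exact absurd h.symm hxb
        · intro h
          rcases (hl _ h).2 with h' | h'
          · exact absurd h' hxb
          · exact absurd h' hxB

end PPos
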