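import Pool.Agent.H1.PP.Sub
import Pool.Agent.H1.PP.Whi

set_option autoImplicit false
set_option linter.unusedSectionVars false

/-!
# PP Decr: a nested set is simplified by a Whitehead automorphism (helper1)

`A` crosses none of its translates, `A` crosses `C a`, `D'` is `A` or `Aᶜ`, `D' ∩ CB N` and `D'ᶜ ∩ CB N'` are finite, all letters `≠ a` are in `N ∪ N'`, `bar a ∈ N`,
`a ∉ N, N'`, `N' ≠ ∅`.
STEP 1: for every `h`: if `G = tr h A` crosses `CB N` then `G` crosses `C a`. PROOF: `G` does not cross `D'` (`Cr_compl_right`), so one of the four corners of `G, D'` is finite.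
 * `G ∩ D'ᶜ` finite: then `G ∩ CB N ⊆ (G ∩ D'ᶜ) ∪ (D' ∩ CB N)` is finite, a contradiction. * `Gᶜ ∩ D'ᶜ` finite: `Gᶜ ∩ CB N` is finite, a contradiction.
 * `G ∩ D'` finite: `G ∩ CB N' ⊆ (G ∩ D') ∪ (D'ᶜ ∩ CB N')` is finite, and `G ∩ (CB N)ᶜ` is infinite, so `G ∩ C a` is infinite (every `g ≠ 1` is in `CB N`, `CB N'` or
   `C a`). `D' ∩ C a` is infinite (`A` crosses `C a`), so `Gᶜ ∩ C a` is infinite. `G ∩ (C a)ᶜ ⊇ G ∩ CB N` and `Gᶜ ∩ (C a)ᶜ ⊇ Gᶜ ∩ CB N` are infinite (`a ∉ N`).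
 * `Gᶜ ∩ D'` finite: the same with `Gᶜ` (`Cr_compl_left`).
STEP 2: `jj A (CB N) < jj A (C a)`: the set `{h | Cr (tr h A) (CB N)}` is contained in `{h | Cr (tr h A) (C a)}` (finite: `Cr_finite`), and `h = 1` is in the second
(`tr_one`) and not in the first (`D' ∩ CB N` is finite). `Set.ncard_lt_ncard`.
STEP 3: `whitehead` with `B := N` and the letter `bar a` (`bar (bar a) = a ∉ N`): `τ` with `im τ (CB N) ≈ tr _ (C (bar a))` and `im τ (C x) ≈ tr _ (C x)` for `x ≠ a, bar a`. So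
`jj (im τ A) (C (bar a)) = jj (im τ A) (im τ (CB N)) = jj A (CB N) < jj A (C a) = jj A (C (bar a))` (`jj_tr_right`, `jj_congr`, `jj_im`, `jj_bar`),
`jj (im τ A) (C a) = jj (im τ A) (C (bar a)) = jj A (CB N) < jj A (C a)`, and `jj (im τ A) (C x) = jj A (C x)` for the other `x`. `Finset.sum_lt_sum`.
-/

namespace PPos

open FreeGroup

variable {ι : Type} [DecidableEq ι]

theorem Decr_cover {a : ι × Bool} {N N' : Set (ι × Bool)} (hcov : ∀ z, z ≠ a → z ∈ N ∨ z ∈ N')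
    (g : FreeGroup ι) (hg : g ∉ CB N) : g = 1 ∨ g ∈ CB N' ∨ g ∈ C a := by
  rcases hl : g.toWord with _ | ⟨z, l⟩
  · exact Or.inl (toWord_eq_nil_iff.1 hl)
  · right
    have hz : g.toWord.head? = some z := by rw [hl]; rfl
    by_cases hza : z = a
    · right
      rw [← hza]
      exact hz
    · left
      rcases hcov z hza with h | h
      · exact absurd ⟨z, h, hz⟩ hg
      · exact ⟨z, h, hz⟩

theorem Decr_disj {a : ι × Bool} {N : Set (ι × Bool)} (ha : a ∉ N) (g : FreeGroup ι)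
    (hg : g ∈ CB N) : g ∉ C a := by
  intro h
  obtain ⟨z, hz, hz'⟩ := hg
  have h1 : g.toWord.head? = some a := h
  rw [h1] at hz'
  have h2 : a = z := Option.some.inj hz'
  exact ha (h2 ▸ hz)

theorem Decr_step {G D' : Set (FreeGroup ι)} (a : ι × Bool) (N N' : Set (ι × Bool)) (ha : a ∉ N)
    (hcov : ∀ z, z ≠ a → z ∈ N ∨ z ∈ N') (h2 : (D'ᶜ ∩ CB N').Finite)
    (hDa : (D' ∩ C a).Infinite) (hG : Cr G (CB N)) (hf : (G ∩ D').Finite) : Cr G (C a) := by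
  obtain ⟨g1, g2, g3, _⟩ := hG
  have f1 : (G ∩ CB N').Finite := by
    refine (hf.union h2).subset fun g hg => ?_
    by_cases hD : g ∈ D'
    · exact Or.inl ⟨hg.1, hD⟩
    · exact Or.inr ⟨hD, hg.2⟩
  refine ⟨?_, ?_, ?_, ?_⟩
  · by_contra hfin
    rw [Set.not_infinite] at hfin
    refine g2 (((f1.union hfin).union (Set.finite_singleton 1)).subset fun g hg => ?_)
    rcases Decr_cover hcov g hg.2 with h | h | h
    · exact Or.inr h
    · exact Or.inl (Or.inl ⟨hg.1, h⟩)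
    · exact Or.inl (Or.inr ⟨hg.1, h⟩)
  · exact g1.mono fun g hg => ⟨hg.1, Decr_disj ha g hg.2⟩
  · by_contra hfin
    rw [Set.not_infinite] at hfin
    refine hDa ((hf.union hfin).subset fun g hg => ?_)
    by_cases hgG : g ∈ G
    · exact Or.inl ⟨hgG, hg.1⟩
    · exact Or.inr ⟨hgG, hg.2⟩
  · exact g3.mono fun g hg => ⟨hg.1, Decr_disj ha g hg.2⟩

theorem Decr_sub {A D' : Set (FreeGroup ι)}
    (hnest : ∀ g, ¬ Cr (tr g A) A) (hD : D' = A ∨ D' = Aᶜ) (a : ι × Bool)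
    (N N' : Set (ι × Bool)) (ha : a ∉ N)
    (hcov : ∀ z, z ≠ a → z ∈ N ∨ z ∈ N') (h1 : (D' ∩ CB N).Finite)
    (h2 : (D'ᶜ ∩ CB N').Finite) (hcr : Cr A (C a)) (h : FreeGroup ι)
    (hG : Cr (tr h A) (CB N)) : Cr (tr h A) (C a) := by
  have hn : ¬ Cr (tr h A) D' := by
    rcases hD with rfl | rfl
    · exact hnest h
    · rw [Cr_compl_right]
      exact hnest h
  have hDa : (D' ∩ C a).Infinite := by
    rcases hD with rfl | rfl
    · exact hcr.1
    · exact hcr.2.2.1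
  by_cases c1 : (tr h A ∩ D').Finite
  · exact Decr_step a N N' ha hcov h2 hDa hG c1
  by_cases c2 : ((tr h A)ᶜ ∩ D').Finite
  · exact Cr_compl_left.1 (Decr_step a N N' ha hcov h2 hDa (Cr_compl_left.2 hG) c2)
  exfalso
  by_cases c3 : (tr h A ∩ D'ᶜ).Finite
  · refine hG.1 ((c3.union h1).subset fun g hg => ?_)
    by_cases hgD : g ∈ D'
    · exact Or.inr ⟨hgD, hg.2⟩
    · exact Or.inl ⟨hg.1, hgD⟩
  by_cases c4 : ((tr h A)ᶜ ∩ D'ᶜ).Finite
  · refine hG.2.2.1 ((c4.union h1).subset fun g hg => ?_)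
    by_cases hgD : g ∈ D'
    · exact Or.inr ⟨hgD, hg.2⟩
    · exact Or.inl ⟨hg.1, hgD⟩
  exact hn ⟨c1, c3, c2, c4⟩

theorem decrease [Fintype ι] {A D' : Set (FreeGroup ι)} (hA : FC A)
    (hnest : ∀ g, ¬ Cr (tr g A) A) (hD : D' = A ∨ D' = Aᶜ) (a : ι × Bool)
    (N N' : Set (ι × Bool)) (ha : a ∉ N) (hb : bar a ∈ N)
    (hcov : ∀ z, z ≠ a → z ∈ N ∨ z ∈ N') (h1 : (D' ∩ CB N).Finite)
    (h2 : (D'ᶜ ∩ CB N').Finite) (hcr : Cr A (C a)) :
    ∃ τ : FreeGroup ι ≃* FreeGroup ι, ii (im τ A) < ii A := by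
  have hlt : jj A (CB N) < jj A (C a) := by
    refine Set.ncard_lt_ncard ((Set.ssubset_iff_of_subset ?_).2 ⟨1, ?_, ?_⟩)
      (Cr_finite hA (FC_C a))
    · exact fun h hh => Decr_sub hnest hD a N N' ha hcov h1 h2 hcr h hh
    · show Cr (tr 1 A) (C a)
      rw [tr_one]
      exact hcr
    · show ¬ Cr (tr 1 A) (CB N)
      rw [tr_one]
      intro hh
      rcases hD with rfl | rfl
      · exact hh.1 h1
      · exact hh.2.2.1 h1
  obtain ⟨τ, ht1, ht2⟩ := whitehead N (bar a) hb (by rw [bar_bar]; exact ha)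
  have e1 : jj (im τ A) (C (bar a)) = jj A (CB N) := by
    rw [← jj_tr_right (im τ A) (C (bar a)) (lt (bar a))⁻¹,
      jj_congr (Aeq.refl (im τ A)) ht1.symm, jj_im]
  have e2 : jj (im τ A) (C a) = jj A (CB N) := by
    rw [← e1, jj_bar]
  refine ⟨τ, Finset.sum_lt_sum (fun x _ => ?_) ⟨a, Finset.mem_univ a, ?_⟩⟩
  · by_cases hxa : x = a
    · rw [hxa, e2]
      exact hlt.le
    by_cases hxb : x = bar a
    · rw [hxb, e1, jj_bar]
      exact hlt.le
    obtain ⟨g, hg⟩ := ht2 x hxb (by rw [bar_bar]; exact hxa)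
    rw [← jj_tr_right (im τ A) (C x) g, jj_congr (Aeq.refl (im τ A)) hg.symm, jj_im]
  · rw [e2]
    exact hlt

end PPos
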