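import Mathlib

set_option autoImplicit false

/-!
# PP: positivity of one basis letter in free groups (helper1, MP_db04f5_al)

`F = FreeGroup ι` (`ι` finite). A letter is `a : ι × Bool`, `bar a` is the inverse letter, `lt a ∈ F` the element of the letter.
All sets `A, B, E, ..` are subsets of `F`; almost = up to finitely many elements.

* `C a` = all elements whose reduced word begins with `a` (a half space of the Cayley tree), `CB B` = union of the `C a`, `a ∈ B`,
  `cyl u` = all elements whose reduced word has the prefix `u`.
* `tr h A = h A` (left translate), `im τ A = τ(A)` (image under an automorphism).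
* `Aeq A B`: almost equal. `FC A`: for every `h ∈ F` the sets `A` and `A h⁻¹` are almost equal (`A` has finite coboundary).
* `NT A`: `A` and its complement are infinite. `Cr A E` (crossing): all four corners `A ∩ E, A ∩ Eᶜ, Aᶜ ∩ E, Aᶜ ∩ Eᶜ` are infinite.
* `jj A E` = number of `h` such that `h A` crosses `E`; `ii A = ∑_a jj A (C a)` (size of the hull of `A`).
* `Low w A`: `A` is nontrivial, `FC`, and `A w ⊆ A`. `Pos w A`: `FC`, and `A w` is strictly contained in `A`.
* `OneSided w`: there are an automorphism `α` and a generator `i` such that `x_i` occurs in the reduced word of `α w` and `x_i⁻¹` does not.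

MAIN THEOREM: `OneSided` is decidable. Plan: `OneSided w ↔ ∃ A, Pos w A` (files Easy and Restr), and `∃ A, Pos w A` is decidable because
`A` can be chosen of bounded radius (file Pump).
-/

namespace PPos

variable {ι : Type} [DecidableEq ι]

/-- the group element of a letter -/
def lt (a : ι × Bool) : FreeGroup ι := FreeGroup.mk [a]

/-- the inverse letter -/
def bar (a : ι × Bool) : ι × Bool := (a.1, !a.2)

/-- the elements whose reduced word begins with `a` -/
def C (a : ι × Bool) : Set (FreeGroup ι) := {g | g.toWord.head? = some a}

/-- the elements whose reduced word begins with a letter of `B` -/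
def CB (B : Set (ι × Bool)) : Set (FreeGroup ι) := {g | ∃ a ∈ B, g.toWord.head? = some a}

/-- the elements whose reduced word has the prefix `u` -/
def cyl (u : List (ι × Bool)) : Set (FreeGroup ι) := {g | u <+: g.toWord}

/-- left translate -/
def tr (h : FreeGroup ι) (A : Set (FreeGroup ι)) : Set (FreeGroup ι) := {g | h⁻¹ * g ∈ A}

/-- image under an automorphism -/
def im (τ : FreeGroup ι ≃* FreeGroup ι) (A : Set (FreeGroup ι)) : Set (FreeGroup ι) :=
  {g | τ.symm g ∈ A}

/-- equality up to finitely many elements -/
def Aeq (A B : Set (FreeGroup ι)) : Prop := {g | ¬ (g ∈ A ↔ g ∈ B)}.Finite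

/-- finite coboundary -/
def FC (A : Set (FreeGroup ι)) : Prop := ∀ h : FreeGroup ι, {g | ¬ (g ∈ A ↔ g * h ∈ A)}.Finite

/-- nontrivial: infinite with infinite complement -/
def NT (A : Set (FreeGroup ι)) : Prop := A.Infinite ∧ Aᶜ.Infinite

/-- crossing: all four corners are infinite -/
def Cr (A E : Set (FreeGroup ι)) : Prop :=
  (A ∩ E).Infinite ∧ (A ∩ Eᶜ).Infinite ∧ (Aᶜ ∩ E).Infinite ∧ (Aᶜ ∩ Eᶜ).Infinite

/-- the number of translates of `A` that cross `E` -/
noncomputable def jj (A E : Set (FreeGroup ι)) : ℕ := {h : FreeGroup ι | Cr (tr h A) E}.ncard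

/-- the size of the hull of `A` -/
noncomputable def ii [Fintype ι] (A : Set (FreeGroup ι)) : ℕ := ∑ a : ι × Bool, jj A (C a)

/-- the sets that are closed under right multiplication by `w` -/
structure Low (w : FreeGroup ι) (A : Set (FreeGroup ι)) : Prop where
  fc : FC A
  nt : NT A
  low : ∀ g ∈ A, g * w ∈ A

/-- the sets that are mapped strictly into themselves by right multiplication by `w` -/
structure Pos (w : FreeGroup ι) (A : Set (FreeGroup ι)) : Prop where
  fc : FC A
  low : ∀ g ∈ A, g * w ∈ A
  str : ∃ g, g ∉ A ∧ g * w ∈ A

/-- some automorphism makes one generator occur, and only with positive exponents -/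
def OneSided (w : FreeGroup ι) : Prop :=
  ∃ (α : FreeGroup ι ≃* FreeGroup ι) (i : ι), (i, true) ∈ (α w).toWord ∧ (i, false) ∉ (α w).toWord

end PPos
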