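import Pool.Agent.H1.PP.AI

set_option autoImplicit false
set_option linter.unusedSectionVars false

/-!
# PP Easy: one-sided letters give positive sets (helper1)

Let `a = (i, true)`, `w' = α w`, `a ∈ w'.toWord`, `bar a = (i, false) ∉ w'.toWord`. CLAIM `Pos w' (C a)`: `FC_C`. (1) `g ∈ C a → g w' ∈ C a`: more generally for every word `l` without the letter
`bar a`: `g ∈ C a → g * mk l ∈ C a` (induction on `l`, one letter `c ≠ bar a` at a time): the word of `g * lt c` is `g.toWord ++ [c]`, or `g.toWord.dropLast` if the last letter of `g` is `bar c`;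
in the second case `g.toWord ≠ [a]` because `bar c ≠ a`, so the head is still `a`. (2) `w'.toWord = p ++ a :: q` with `a ∉ p`. `g = (mk p)⁻¹ ∉ C a`: its word is the inverse word of `p`, whose
first letter is `bar` of the last letter of `p`, `≠ a` because `bar a ∉ p`. `g w' = mk (a :: q) ∈ C a` (`a :: q` is reduced).
Then `Pos w (im α.symm (C a))` by `Pos.im`.
-/

namespace PPos

open FreeGroup

variable {ι : Type} [DecidableEq ι]

theorem Easy_last {g : FreeGroup ι} {c : ι × Bool} (h : ¬ IsReduced (g.toWord ++ [c])) :
    ∃ u : List (ι × Bool), g.toWord = u ++ [bar c] := by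
  rcases List.eq_nil_or_concat g.toWord with h0 | ⟨u, b, hb⟩
  · exfalso
    apply h
    rw [h0, List.nil_append]
    exact List.isChain_singleton c
  · have hb' : g.toWord = u ++ [b] := by rw [hb, List.concat_eq_append]
    refine ⟨u, ?_⟩
    have hred : IsReduced (u ++ [b]) := by
      rw [← hb']
      exact isReduced_toWord
    have hbc : ¬ (b.1 = c.1 → b.2 = c.2) := by
      intro hR
      apply h
      rw [hb', List.append_assoc, List.singleton_append]
      refine isReduced_append_cons hred ?_
      exact List.isChain_pair.2 hR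
    have h1 : b = bar c := by
      rw [Classical.not_imp] at hbc
      refine Prod.ext hbc.1 ?_
      change b.2 = !c.2
      cases hb2 : b.2 <;> cases hc2 : c.2
      · exact absurd (by rw [hb2, hc2]) hbc.2
      · rfl
      · rfl
      · exact absurd (by rw [hb2, hc2]) hbc.2
    rw [hb', h1]

theorem Easy_mul_lt (g : FreeGroup ι) (c : ι × Bool) :
    (g * lt c).toWord = g.toWord ++ [c] ∨ g.toWord = (g * lt c).toWord ++ [bar c] := by
  by_cases h : IsReduced (g.toWord ++ [c])
  · left
    have h1 : IsReduced (g.toWord ++ (lt c).toWord) := by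
      rw [toWord_lt]
      exact h
    rw [toWord_mul_of_isReduced h1, toWord_lt]
  · right
    obtain ⟨u, hu⟩ := Easy_last h
    have hred : IsReduced u := by
      have h1 : IsReduced (u ++ [bar c]) := by
        rw [← hu]
        exact isReduced_toWord
      exact red_of_sub h1 (List.prefix_append u [bar c]).isInfix
    have hg : g = mk u * lt (bar c) := by
      rw [← mk_toWord (x := g), hu]
      rfl
    have hg' : g * lt c = mk u := by
      rw [hg, lt_bar, inv_mul_cancel_right]
    rw [hg', toWord_mk_of_isReduced hred, hu]

theorem Easy_step {a c : ι × Bool} (hc : c ≠ bar a) {g : FreeGroup ι} (hg : g ∈ C a) :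
    g * lt c ∈ C a := by
  change g.toWord.head? = some a at hg
  change (g * lt c).toWord.head? = some a
  rcases Easy_mul_lt g c with h | h
  · rw [h, List.head?_append, hg]
    rfl
  · rw [h] at hg
    cases h0 : (g * lt c).toWord with
    | nil =>
      exfalso
      rw [h0, List.nil_append] at hg
      apply hc
      have h1 : bar c = a := by simpa using hg
      rw [← h1, bar_bar]
    | cons b l =>
      rw [h0] at hg
      simpa using hg

theorem Easy_mul {a : ι × Bool} (l : List (ι × Bool)) (hl : bar a ∉ l) :
    ∀ g : FreeGroup ι, g ∈ C a → g * mk l ∈ C a := by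
  induction l with
  | nil =>
    intro g hg
    have h1 : (mk [] : FreeGroup ι) = 1 := rfl
    rwa [h1, mul_one]
  | cons c l ih =>
    intro g hg
    rw [List.mem_cons, not_or] at hl
    rw [mk_cons, ← mul_assoc]
    exact ih hl.2 _ (Easy_step (fun h => hl.1 h.symm) hg)

theorem Easy_pos {a : ι × Bool} {w : FreeGroup ι} (h1 : a ∈ w.toWord) (h2 : bar a ∉ w.toWord) :
    Pos w (C a) := by
  refine ⟨FC_C a, fun g hg => ?_, ?_⟩
  · have h := Easy_mul w.toWord h2 g hg
    rwa [mk_toWord] at h
  · obtain ⟨p, q, hw, -⟩ := List.eq_append_cons_of_mem h1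
    have hred : IsReduced (p ++ a :: q) := by
      rw [← hw]
      exact isReduced_toWord
    have hp : IsReduced p := red_of_sub hred (List.prefix_append p (a :: q)).isInfix
    have hq : IsReduced (a :: q) := red_of_sub hred (List.suffix_append p (a :: q)).isInfix
    refine ⟨(mk p)⁻¹, fun hg => ?_, ?_⟩
    · change ((mk p)⁻¹).toWord.head? = some a at hg
      have h3 : a ∈ ((mk p)⁻¹).toWord := List.mem_of_mem_head? hg
      rw [toWord_inv, toWord_mk_of_isReduced hp] at h3
      unfold invRev at h3
      rw [List.mem_reverse, List.mem_map] at h3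
      obtain ⟨b, hb, hba⟩ := h3
      apply h2
      have h4 : bar a = b := by
        rw [← hba]
        simp [bar]
      rw [h4, hw]
      exact List.mem_append_left _ hb
    · have h5 : (mk p)⁻¹ * w = mk (a :: q) := by
        have h6 : w = mk p * mk (a :: q) := by
          rw [← mk_toWord (x := w), hw]
          rfl
        rw [h6, inv_mul_cancel_left]
      rw [h5]
      change (mk (a :: q)).toWord.head? = some a
      rw [toWord_mk_of_isReduced hq]
      rfl

theorem oneSided_pos {w : FreeGroup ι} (h : OneSided w) : ∃ A, Pos w A := by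
  obtain ⟨α, i, h1, h2⟩ := h
  have hp : Pos (α w) (C (i, true)) := Easy_pos h1 h2
  refine ⟨im α.symm (C (i, true)), ?_⟩
  have h3 := Pos.im hp α.symm
  rwa [MulEquiv.symm_apply_apply] at h3

end PPos
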