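import Pool.Agent.H1.PP.Defs

set_option autoImplicit false
set_option linter.unusedSectionVars false

/-!
# PP Rank2: comparison with potential positivity (helper1)

`potPos_oneSided`: every element of the subsemigroup generated by the generators is `mk l` with `l ≠ []` a list of letters `(i, true)` (`Subsemigroup.closure_induction`), which is
reduced; take `i` = its first letter.
`oneSided_potPos_two`: `v = α w`, `t = x_i`, `a = x_j` the other generator. For `M : ℕ` let `β_M` be the automorphism `t ↦ a^M t a^M`, `a ↦ a` (inverse `t ↦ a^(-M) t a^(-M)`). Let `Cl` be the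
subsemigroup generated by the generators.
CLAIM: for every word `l` without the letter `(i, false)` there is `N ≥ 1` such that for all `M, K ≥ N`: `β_M (mk l) * a^K ∈ Cl`. Induction from the right (`List.reverseRecOn`): `l = []`: `a^K`, `K ≥ 1`.
`l = l' ++ [(j, ε)]`: `β_M (mk l') * a^(K ± 1)`, take `N' = N + 1`. `l = l' ++ [(i, true)]`: `β_M (mk l') * a^M * t * a^M * a^K`, the first part is in `Cl` for `M ≥ N`.
Write `v.toWord = l1 ++ [(i, true)] ++ l2` with `(i, true) ∉ l2` (last occurrence), so `mk l2 = a^s` (`s : ℤ`). For large `M`: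
`β_M v = β_M (mk l1) * a^M * t * a^M * a^s ∈ Cl` (`M + s ≥ 0`; `t * a^(M+s) ∈ Cl`).
-/

namespace PPos

open FreeGroup

private theorem Rank2_pos {n : ℕ} {x : FreeGroup (Fin n)}
    (hx : x ∈ Subsemigroup.closure (Set.range (FreeGroup.of : Fin n → FreeGroup (Fin n)))) :
    ∃ l : List (Fin n × Bool), l ≠ [] ∧ (∀ p ∈ l, p.2 = true) ∧ x = mk l := by
  induction hx using Subsemigroup.closure_induction with
  | mem x hx =>
    obtain ⟨i, rfl⟩ := hx
    exact ⟨[(i, true)], by simp, by simp, rfl⟩
  | mul x y _ _ ihx ihy =>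
    obtain ⟨l, h1, h2, rfl⟩ := ihx
    obtain ⟨m, h3, h4, rfl⟩ := ihy
    refine ⟨l ++ m, by simp [h1], fun p hp => ?_, by rw [mul_mk]⟩
    rcases List.mem_append.1 hp with hp | hp
    · exact h2 p hp
    · exact h4 p hp

private theorem Rank2_red {n : ℕ} (l : List (Fin n × Bool)) (h : ∀ p ∈ l, p.2 = true) :
    FreeGroup.IsReduced l := by
  unfold FreeGroup.IsReduced
  induction l with
  | nil => exact List.isChain_nil
  | cons p l ih =>
    have ih' := ih fun q hq => h q (List.mem_cons_of_mem _ hq)
    cases l with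
    | nil => exact List.isChain_singleton _
    | cons q l =>
      refine List.isChain_cons_cons.2 ⟨fun _ => ?_, ih'⟩
      rw [h p (by simp), h q (by simp)]

/-- every potentially positive element is one-sided -/
theorem potPos_oneSided {n : ℕ} {w : FreeGroup (Fin n)}
    (h : ∃ α : FreeGroup (Fin n) ≃* FreeGroup (Fin n), α w ∈
      Subsemigroup.closure (Set.range (FreeGroup.of : Fin n → FreeGroup (Fin n)))) :
    OneSided w := by
  obtain ⟨α, hα⟩ := h
  obtain ⟨l, h1, h2, h3⟩ := Rank2_pos hα
  have h4 : (α w).toWord = l := by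
    rw [h3, toWord_mk]
    exact (Rank2_red l h2).reduce_eq
  cases l with
  | nil => exact absurd rfl h1
  | cons p l =>
    refine ⟨α, p.1, ?_, ?_⟩
    · rw [h4, ← h2 p (by simp)]
      simp
    · rw [h4]
      intro h5
      exact Bool.noConfusion (h2 _ h5)

private theorem Rank2_zpow {G : Type} [Group G] (S : Subsemigroup G) {a : G} (ha : a ∈ S) (k : ℤ)
    (hk : 1 ≤ k) : a ^ k ∈ S := by
  obtain ⟨n, rfl⟩ : ∃ n : ℕ, k = (n : ℤ) + 1 := ⟨(k - 1).toNat, by omega⟩
  have : a ^ ((n : ℤ) + 1) = a ^ (n + 1) := by
    rw [← zpow_natCast]; push_cast; rfl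
  rw [this]
  induction n with
  | zero => simpa using ha
  | succ n ih =>
    rw [pow_succ]
    exact mul_mem (ih (by omega) (by rw [← zpow_natCast]; push_cast; rfl)) ha

/-- the endomorphism `t ↦ a^M t a^M`, `a ↦ a` -/
private def Rank2_f (i j : Fin 2) (M : ℤ) : FreeGroup (Fin 2) →* FreeGroup (Fin 2) :=
  FreeGroup.lift (fun k => if k = i then (of j) ^ M * of i * (of j) ^ M else of k)

private theorem Rank2_fi (i j : Fin 2) (M : ℤ) :
    Rank2_f i j M (of i) = (of j) ^ M * of i * (of j) ^ M := by
  simp [Rank2_f]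

private theorem Rank2_fj {i j : Fin 2} (hij : j ≠ i) (M : ℤ) : Rank2_f i j M (of j) = of j := by
  simp [Rank2_f, hij]

private theorem Rank2_inv {i j : Fin 2} (hij : j ≠ i) (hk : ∀ k, k = i ∨ k = j) (M : ℤ) :
    (Rank2_f i j M).comp (Rank2_f i j (-M)) = MonoidHom.id _ := by
  refine FreeGroup.ext_hom _ _ fun k => ?_
  rcases hk k with rfl | rfl
  · rw [MonoidHom.comp_apply, Rank2_fi, _root_.map_mul, _root_.map_mul, map_zpow, Rank2_fj hij, Rank2_fi,
      MonoidHom.id_apply]
    group
  · rw [MonoidHom.comp_apply, Rank2_fj hij, Rank2_fj hij, MonoidHom.id_apply]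

private def Rank2_e {i j : Fin 2} (hij : j ≠ i) (hk : ∀ k, k = i ∨ k = j) (M : ℤ) :
    FreeGroup (Fin 2) ≃* FreeGroup (Fin 2) :=
  MonoidHom.toMulEquiv (Rank2_f i j M) (Rank2_f i j (-M))
    (by have := Rank2_inv hij hk (-M); rwa [neg_neg] at this) (Rank2_inv hij hk M)

private theorem Rank2_snoc (l : List (Fin 2 × Bool)) (p : Fin 2 × Bool) :
    mk (l ++ [p]) = mk l * (if p.2 then of p.1 else (of p.1)⁻¹) := by
  rw [← mul_mk]
  obtain ⟨k, b⟩ := p
  cases b
  · simp [of, inv_mk, invRev]
  · simp [of]

private theorem Rank2_one {i j : Fin 2} (hij : j ≠ i) (hk : ∀ k, k = i ∨ k = j)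
    (l : List (Fin 2 × Bool)) (hl : (i, false) ∉ l) :
    ∃ N : ℤ, 1 ≤ N ∧ ∀ M K : ℤ, N ≤ M → N ≤ K → Rank2_f i j M (mk l) * (of j) ^ K ∈
      Subsemigroup.closure (Set.range (FreeGroup.of : Fin 2 → FreeGroup (Fin 2))) := by
  have ha : ∀ k : Fin 2, (of k : FreeGroup (Fin 2)) ∈
      Subsemigroup.closure (Set.range (FreeGroup.of : Fin 2 → FreeGroup (Fin 2))) := fun k =>
    Subsemigroup.subset_closure ⟨k, rfl⟩
  induction l using List.reverseRecOn with
  | nil =>
    refine ⟨1, le_rfl, fun M K _ hK => ?_⟩
    have : (mk [] : FreeGroup (Fin 2)) = 1 := rfl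
    rw [this, _root_.map_one, one_mul]
    exact Rank2_zpow _ (ha j) K hK
  | append_singleton l p ih =>
    obtain ⟨N, hN, h⟩ := ih fun h => hl (List.mem_append_left _ h)
    obtain ⟨k, b⟩ := p
    refine ⟨N + 1, by omega, fun M K hM hK => ?_⟩
    rw [Rank2_snoc, _root_.map_mul]
    rcases hk k with rfl | rfl
    · cases b
      · exact absurd (by simp) hl
      · have e : Rank2_f k j M (mk l) * Rank2_f k j M
            (if ((k, true) : Fin 2 × Bool).2 = true then of ((k, true) : Fin 2 × Bool).1 else
              (of ((k, true) : Fin 2 × Bool).1)⁻¹) * of j ^ K =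
            (Rank2_f k j M (mk l) * of j ^ M) * (of k * of j ^ (M + K)) := by
          simp only [if_true]
          rw [Rank2_fi, zpow_add]
          group
        rw [e]
        exact mul_mem (h M M (by omega) (by omega))
          (mul_mem (ha k) (Rank2_zpow _ (ha j) _ (by omega)))
    · cases b
      · have e : Rank2_f i k M (mk l) * Rank2_f i k M
            (if ((k, false) : Fin 2 × Bool).2 = true then of ((k, false) : Fin 2 × Bool).1 else
              (of ((k, false) : Fin 2 × Bool).1)⁻¹) * of k ^ K =
            Rank2_f i k M (mk l) * of k ^ (K - 1) := by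
          simp only [Bool.false_eq_true, if_false, _root_.map_inv]
          rw [Rank2_fj hij, zpow_sub, zpow_one, mul_assoc]
          congr 1
          group
        rw [e]
        exact h M _ (by omega) (by omega)
      · have e : Rank2_f i k M (mk l) * Rank2_f i k M
            (if ((k, true) : Fin 2 × Bool).2 = true then of ((k, true) : Fin 2 × Bool).1 else
              (of ((k, true) : Fin 2 × Bool).1)⁻¹) * of k ^ K =
            Rank2_f i k M (mk l) * of k ^ (K + 1) := by
          simp only [if_true]
          rw [Rank2_fj hij, zpow_add, zpow_one, mul_assoc]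
          congr 1
          group
        rw [e]
        exact h M _ (by omega) (by omega)

private theorem Rank2_two {i j : Fin 2} (hij : j ≠ i) (hk : ∀ k, k = i ∨ k = j)
    (l : List (Fin 2 × Bool)) (hl : (i, false) ∉ l) (hl' : (i, true) ∈ l) :
    ∃ N : ℤ, 1 ≤ N ∧ ∀ M K : ℤ, N ≤ M → N - M ≤ K → Rank2_f i j M (mk l) * (of j) ^ K ∈
      Subsemigroup.closure (Set.range (FreeGroup.of : Fin 2 → FreeGroup (Fin 2))) := by
  have ha : ∀ k : Fin 2, (of k : FreeGroup (Fin 2)) ∈
      Subsemigroup.closure (Set.range (FreeGroup.of : Fin 2 → FreeGroup (Fin 2))) := fun k =>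
    Subsemigroup.subset_closure ⟨k, rfl⟩
  induction l using List.reverseRecOn with
  | nil => simp at hl'
  | append_singleton l p ih =>
    have hl1 : (i, false) ∉ l := fun h => hl (List.mem_append_left _ h)
    obtain ⟨k, b⟩ := p
    rcases hk k with rfl | rfl
    · cases b
      · exact absurd (by simp) hl
      · obtain ⟨N, hN, h⟩ := Rank2_one hij hk l hl1
        refine ⟨N, hN, fun M K hM hK => ?_⟩
        have e : Rank2_f k j M (mk (l ++ [(k, true)])) * of j ^ K =
            (Rank2_f k j M (mk l) * of j ^ M) * (of k * of j ^ (M + K)) := by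
          rw [Rank2_snoc, _root_.map_mul]
          simp only [if_true]
          rw [Rank2_fi, zpow_add]
          group
        rw [e]
        exact mul_mem (h M M (by omega) (by omega))
          (mul_mem (ha k) (Rank2_zpow _ (ha j) _ (by omega)))
    · have hl2 : (i, true) ∈ l := by
        rcases List.mem_append.1 hl' with h | h
        · exact h
        · simp only [List.mem_singleton, Prod.mk.injEq] at h
          exact absurd h.1.symm hij
      obtain ⟨N, hN, h⟩ := ih hl1 hl2
      refine ⟨N + 1, by omega, fun M K hM hK => ?_⟩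
      rw [Rank2_snoc, _root_.map_mul]
      cases b
      · have e : Rank2_f i k M (mk l) * Rank2_f i k M
            (if ((k, false) : Fin 2 × Bool).2 = true then of ((k, false) : Fin 2 × Bool).1 else
              (of ((k, false) : Fin 2 × Bool).1)⁻¹) * of k ^ K =
            Rank2_f i k M (mk l) * of k ^ (K - 1) := by
          simp only [Bool.false_eq_true, if_false, _root_.map_inv]
          rw [Rank2_fj hij, zpow_sub, zpow_one, mul_assoc]
          congr 1
          group
        rw [e]
        exact h M _ (by omega) (by omega)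
      · have e : Rank2_f i k M (mk l) * Rank2_f i k M
            (if ((k, true) : Fin 2 × Bool).2 = true then of ((k, true) : Fin 2 × Bool).1 else
              (of ((k, true) : Fin 2 × Bool).1)⁻¹) * of k ^ K =
            Rank2_f i k M (mk l) * of k ^ (K + 1) := by
          simp only [if_true]
          rw [Rank2_fj hij, zpow_add, zpow_one, mul_assoc]
          congr 1
          group
        rw [e]
        exact h M _ (by omega) (by omega)

/-- in rank two every one-sided element is potentially positive -/
theorem oneSided_potPos_two {w : FreeGroup (Fin 2)} (h : OneSided w) :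
    ∃ α : FreeGroup (Fin 2) ≃* FreeGroup (Fin 2), α w ∈
      Subsemigroup.closure (Set.range (FreeGroup.of : Fin 2 → FreeGroup (Fin 2))) := by
  obtain ⟨α, i, h1, h2⟩ := h
  obtain ⟨j, hij, hk⟩ : ∃ j : Fin 2, j ≠ i ∧ ∀ k, k = i ∨ k = j := by
    clear h1 h2
    revert i
    decide
  obtain ⟨N, hN, h⟩ := Rank2_two hij hk _ h2 h1
  refine ⟨α.trans (Rank2_e hij hk N), ?_⟩
  have h3 := h N 0 le_rfl (by omega)
  rw [zpow_zero, mul_one, mk_toWord] at h3
  exact h3

end PPos
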