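import Pool.Agent.H1.PP.Restr
import Pool.Agent.H1.PP.Easy
import Pool.Agent.H1.PP.Comp
import Pool.Agent.H1.PP.Rank2

set_option autoImplicit false

namespace PPos

open FreeGroup

theorem oneSided_iff {ι : Type} [DecidableEq ι] [Fintype ι] (w : FreeGroup ι) :
    OneSided w ↔ ∃ A, Pos w A := ⟨oneSided_pos, pos_oneSided⟩

theorem oneSided_computable (n : ℕ) :
    ComputablePred (fun L : List (Fin n × Bool) => OneSided (FreeGroup.mk L)) := by
  have h : (fun L : List (Fin n × Bool) => OneSided (FreeGroup.mk L)) = check n := by
    funext L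
    rw [oneSided_iff, check_iff]
  rw [h]
  exact check_computable n

end PPos
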