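import Pool.Agent.H1.PP.Sub

set_option autoImplicit false
set_option linter.unusedSectionVars false

/-!
# PP Hull: up to a translate, a set is determined by prefixes of length `ii A + 1` (helper1)

`FC_AS`: `AS R S` is a finite union of sets `cyl (List.ofFn v)`; or directly `FC_of_radius` with the radius `R` (for `g` of length `≥ R`, `g ∈ AS R S` iff the prefix of
length `R` of the word of `g` is `List.ofFn v` for some `v ∈ S`).
`hull_radius`. Let `R = ii A + 1` and let `A` cross `C a`. CLAIM: for every word `u` of length `R` the set `A ∩ cyl u` or `Aᶜ ∩ cyl u` is finite. Suppose not. Then `u` is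
reduced (`cyl_eq_empty`), `u = u_1 .. u_R`. For `1 ≤ k ≤ R` put `p_k = u_1 .. u_(k-1)`, `E_k = cyl (u_1 .. u_k) = tr (mk p_k) (C u_k)` (`cyl_concat`). `A` crosses `E_k`:
`E_k ⊇ cyl u`, so `A ∩ E_k`, `Aᶜ ∩ E_k` are infinite. If `u_1 ≠ a` then `E_kᶜ ⊇ C a` (`C_inter_C`), and `A ∩ C a`, `Aᶜ ∩ C a` are infinite. If `u_1 = a` then `E_kᶜ ⊇ (C a)ᶜ`, and
`A ∩ (C a)ᶜ`, `Aᶜ ∩ (C a)ᶜ` are infinite. So `Cr (tr (mk p_k)⁻¹ A) (C u_k)` for `k = 1 .. R` (`Cr_tr`). The pairs `(u_k, (mk p_k)⁻¹)` are pairwise different (`mk p_k` has the word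
`p_k` of length `k - 1`). So `ii A = ∑_y ncard {h | Cr (tr h A) (C y)} = card of the finite set of all pairs (y, h) with Cr (tr h A) (C y) ≥ R` (`Cr_finite`), a contradiction.
Let `S` be the set of all `v : Fin R → ι × Bool` such that `Aᶜ ∩ cyl (List.ofFn v)` is finite. Then `A` and `AS R S` are almost equal: every element of length `≥ R` is in exactly one
`cyl (List.ofFn v)`; there are finitely many `v`, and `{g | g.toWord.length < R}` is finite (`finite_length_le`).
-/

namespace PPos

open FreeGroup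

variable {ι : Type} [DecidableEq ι]

/-- the elements with a prefix of length `R` in `S` -/
def AS (R : ℕ) (S : Finset (Fin R → ι × Bool)) : Set (FreeGroup ι) :=
  {g | ∃ v ∈ S, List.ofFn v <+: g.toWord}

theorem Hull_prefix_iff {α : Type} {l w : List α} {R : ℕ} (hl : l.length = R) (hw : R ≤ w.length) :
    l <+: w ↔ l = w.take R := by
  subst hl
  exact List.prefix_iff_eq_take

theorem Hull_isReduced_take {w : List (ι × Bool)} (h : IsReduced w) (n : ℕ) :
    IsReduced (w.take n) :=
  red_of_sub h (List.take_prefix n w).isInfix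

theorem Hull_toWord_mk_take (g : FreeGroup ι) (n : ℕ) :
    (mk (g.toWord.take n)).toWord = g.toWord.take n :=
  toWord_mk_of_isReduced (Hull_isReduced_take isReduced_toWord n)

theorem FC_AS [Finite ι] (R : ℕ) (S : Finset (Fin R → ι × Bool)) : FC (AS R S) := by
  refine FC_of_radius (R := R) (fun g hg => ?_)
  unfold AS
  rw [Set.mem_ofPred_eq, Set.mem_ofPred_eq, Hull_toWord_mk_take]
  have h1 : R ≤ (g.toWord.take R).length := by
    rw [List.length_take]
    omega
  constructor
  · rintro ⟨v, hv, h⟩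
    refine ⟨v, hv, ?_⟩
    rw [Hull_prefix_iff (List.length_ofFn) h1, List.take_take, min_self]
    exact (Hull_prefix_iff (List.length_ofFn) hg).1 h
  · rintro ⟨v, hv, h⟩
    refine ⟨v, hv, ?_⟩
    rw [Hull_prefix_iff (List.length_ofFn) hg]
    have h2 := (Hull_prefix_iff (List.length_ofFn) h1).1 h
    rwa [List.take_take, min_self] at h2

theorem Hull_cross {A : Set (FreeGroup ι)} {a : ι × Bool} (hc : Cr A (C a))
    {u : List (ι × Bool)} (hu : IsReduced u) (h1 : (A ∩ cyl u).Infinite)
    (h2 : (Aᶜ ∩ cyl u).Infinite) (k : ℕ) (hk : k < u.length) :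
    Cr (tr (mk (u.take k))⁻¹ A) (C u[k]) := by
  have hred : IsReduced (u.take k ++ [u[k]]) := by
    rw [List.take_append_getElem]
    exact Hull_isReduced_take hu (k + 1)
  have hE : cyl (u.take k ++ [u[k]]) = tr (mk (u.take k)) (C u[k]) := cyl_concat hred
  rw [List.take_append_getElem] at hE
  have hsub : cyl u ⊆ cyl (u.take (k + 1)) := by
    intro g hg
    exact (List.take_prefix (k + 1) u).trans hg
  have h0 : 0 < u.length := by omega
  have hhead : cyl (u.take (k + 1)) ⊆ C u[0] := by
    intro g hg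
    obtain ⟨t, ht⟩ := hg
    change g.toWord.head? = some u[0]
    rw [← ht]
    cases u with
    | nil => exact absurd h0 (lt_irrefl 0)
    | cons b l => simp
  obtain ⟨c1, c2, c3, c4⟩ := hc
  have hW : ∃ W : Set (FreeGroup ι), W ⊆ (cyl (u.take (k + 1)))ᶜ ∧ (A ∩ W).Infinite ∧
      (Aᶜ ∩ W).Infinite := by
    by_cases hau : u[0] = a
    · refine ⟨(C a)ᶜ, ?_, c2, c4⟩
      rw [← hau]
      exact Set.compl_subset_compl.2 hhead
    · refine ⟨C a, ?_, c1, c3⟩
      intro g hg hg'
      have h3 : g ∈ C u[0] ∩ C a := ⟨hhead hg', hg⟩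
      rw [C_inter_C hau] at h3
      exact h3
  obtain ⟨W, hW1, hW2, hW3⟩ := hW
  have hCr : Cr A (cyl (u.take (k + 1))) :=
    ⟨h1.mono (Set.inter_subset_inter_right A hsub), hW2.mono (Set.inter_subset_inter_right A hW1),
      h2.mono (Set.inter_subset_inter_right Aᶜ hsub),
      hW3.mono (Set.inter_subset_inter_right Aᶜ hW1)⟩
  rw [hE] at hCr
  have h5 := (Cr_tr (mk (u.take k))⁻¹).2 hCr
  rwa [tr_tr, inv_mul_cancel, tr_one] at h5

theorem Hull_claim [Fintype ι] {A : Set (FreeGroup ι)} (hA : FC A) (hc : ∃ a, Cr A (C a))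
    (u : List (ι × Bool)) (hu : u.length = ii A + 1) :
    (A ∩ cyl u).Finite ∨ (Aᶜ ∩ cyl u).Finite := by
  classical
  by_contra hcon
  rw [not_or] at hcon
  obtain ⟨h1, h2⟩ := hcon
  obtain ⟨a, ha⟩ := hc
  have hred : IsReduced u := by
    by_contra hn
    apply h1
    rw [cyl_eq_empty hn, Set.inter_empty]
    exact Set.finite_empty
  set T : ι × Bool → Finset (FreeGroup ι) := fun y => (Cr_finite hA (FC_C y)).toFinset with hT
  have hii : ii A = (Finset.univ.sigma T).card := by
    rw [Finset.card_sigma]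
    unfold ii jj
    refine Finset.sum_congr rfl (fun y _ => ?_)
    exact Set.ncard_eq_toFinset_card _ (Cr_finite hA (FC_C y))
  have hle : (Finset.univ : Finset (Fin u.length)).card ≤ (Finset.univ.sigma T).card := by
    refine Finset.card_le_card_of_injOn
      (fun k : Fin u.length => (⟨u[k.1], (mk (u.take k.1))⁻¹⟩ : (_ : ι × Bool) × FreeGroup ι)) ?_ ?_
    · intro k _
      rw [Finset.mem_coe, Finset.mem_sigma]
      refine ⟨Finset.mem_univ _, ?_⟩
      simp only [hT, Set.Finite.mem_toFinset]
      exact Hull_cross ha hred h1 h2 k.1 k.2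
    · intro k _ k' _ hkk
      simp only [Sigma.mk.injEq] at hkk
      have h3 : (mk (u.take k.1))⁻¹ = (mk (u.take k'.1))⁻¹ := eq_of_heq hkk.2
      have h4 : mk (u.take k.1) = mk (u.take k'.1) := inv_injective h3
      have h5 : (mk (u.take k.1)).toWord.length = (mk (u.take k'.1)).toWord.length := by rw [h4]
      rw [toWord_mk_of_isReduced (Hull_isReduced_take hred _),
        toWord_mk_of_isReduced (Hull_isReduced_take hred _), List.length_take,
        List.length_take] at h5
      apply Fin.ext
      have := k.2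
      have := k'.2
      omega
  rw [Finset.card_univ, Fintype.card_fin, ← hii, hu] at hle
  omega

theorem hull_radius [Fintype ι] {A : Set (FreeGroup ι)} (hA : FC A) (hc : ∃ a, Cr A (C a)) :
    ∃ S : Finset (Fin (ii A + 1) → ι × Bool), Aeq A (AS (ii A + 1) S) := by
  classical
  set R : ℕ := ii A + 1 with hR
  set S : Finset (Fin R → ι × Bool) :=
    Finset.univ.filter (fun v => (Aᶜ ∩ cyl (List.ofFn v)).Finite) with hS
  refine ⟨S, ?_⟩
  unfold Aeq
  set B : (Fin R → ι × Bool) → Set (FreeGroup ι) := fun v =>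
    if v ∈ S then Aᶜ ∩ cyl (List.ofFn v) else A ∩ cyl (List.ofFn v) with hB
  have hBfin : ∀ v, (B v).Finite := by
    intro v
    simp only [hB]
    split_ifs with hv
    · rw [hS, Finset.mem_filter] at hv
      exact hv.2
    · rcases Hull_claim hA hc (List.ofFn v) (List.length_ofFn) with h | h
      · exact h
      · exact absurd (Finset.mem_filter.2 ⟨Finset.mem_univ v, h⟩) hv
  refine Set.Finite.subset ((finite_length_le (ι := ι) R).union (Set.finite_iUnion hBfin)) ?_
  intro g hg
  by_cases hlen : g.toWord.length ≤ R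
  · exact Or.inl hlen
  · right
    have hlen' : R ≤ g.toWord.length := by omega
    set v : Fin R → ι × Bool := fun i => g.toWord[i.1]'(lt_of_lt_of_le i.2 hlen') with hv
    have hofn : List.ofFn v = g.toWord.take R := by
      apply List.ext_getElem
      · rw [List.length_ofFn, List.length_take]
        omega
      · intro n h1 h2
        rw [List.getElem_ofFn, List.getElem_take]
    have hcyl : g ∈ cyl (List.ofFn v) := by
      change List.ofFn v <+: g.toWord
      rw [hofn]
      exact List.take_prefix R _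
    have hAS : g ∈ AS R S ↔ v ∈ S := by
      constructor
      · rintro ⟨w, hw, h⟩
        have h1 := (Hull_prefix_iff (List.length_ofFn) hlen').1 h
        rw [← hofn] at h1
        rw [← List.ofFn_injective h1]
        exact hw
      · intro h
        exact ⟨v, h, hcyl⟩
    rw [Set.mem_iUnion]
    refine ⟨v, ?_⟩
    simp only [hB]
    rw [Set.mem_ofPred_eq, hAS] at hg
    by_cases hvS : v ∈ S
    · rw [if_pos hvS]
      refine ⟨fun hgA => hg ⟨fun _ => hvS, fun _ => hgA⟩, hcyl⟩
    · rw [if_neg hvS]
      refine ⟨?_, hcyl⟩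
      by_contra hgA
      exact hg ⟨fun h => absurd h hgA, fun h => absurd h hvS⟩

end PPos
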