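import Pool.Agent.H1.PP.Sub

set_option autoImplicit false
set_option linter.unusedSectionVars false

/-!
# PP Leaf: a vertex of the hull with exactly one crossing edge (helper1)

`exists_leaf`. Let `P` be the set of pairs `(g, y)` (`g ∈ F`, `y` a letter) such that `A` crosses `tr g (C y)`, i.e. `Cr (tr g⁻¹ A) (C y)` (`Cr_tr`, `tr_tr`). `P` is finite
(`Cr_finite`, finitely many letters, `g ↦ g⁻¹`) and nonempty (`ii A > 0`). Choose `(g, y) ∈ P` with maximal length `|g y|` of the word of `g * lt y`. Put `u₀ = g * lt y`,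
`u = u₀⁻¹`, `a = bar y`. As `(tr g (C y))ᶜ = tr (g * lt y) (C (bar y))` (`compl_C`, `tr_tr`), `A` crosses `tr u₀ (C a)`: `Cr (tr u A) (C a)`.
(1) `|u₀| = |g| + 1`: otherwise `|u₀| = |g| - 1` (lengths differ by one), and the pair `(u₀, a) ∈ P` has `|u₀ a| = |g| > |u₀|`, a contradiction.
(2) So the word of `u₀` is `g.toWord ++ [y]`, and for `z ≠ a = bar y`: `|u₀ z| = |u₀| + 1`, so `(u₀, z) ∉ P`: `tr u A` does not cross `C z`. But `(tr u A) ∩ (C z)ᶜ` and
`(tr u A)ᶜ ∩ (C z)ᶜ` are infinite (they contain `(tr u A) ∩ C a`, `(tr u A)ᶜ ∩ C a`, as `C a ⊆ (C z)ᶜ` (`C_inter_C`), and `tr u A` crosses `C a`). So `(tr u A) ∩ C z` or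
`(tr u A)ᶜ ∩ C z` is finite.
(Lengths: `(g * lt y)` has the word `g.toWord ++ [y]` if the last letter of `g` is not `bar y`, and `g.toWord.dropLast` otherwise; e.g. from `toWord_lt_mul` by inversion:
`(g * lt y)⁻¹ = lt (bar y) * g⁻¹`, `FreeGroup.norm_inv_eq`; it is convenient to work with `u = lt a * g⁻¹` and `toWord_lt_mul`.)
-/

namespace PPos

open FreeGroup

variable {ι : Type} [DecidableEq ι]

theorem Leaf_step {A : Set (FreeGroup ι)} {g : FreeGroup ι} {y : ι × Bool}
    (h : Cr (tr g A) (C y)) : Cr (tr (lt (bar y) * g) A) (C (bar y)) := by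
  rw [← Cr_compl_right, compl_C, ← Cr_tr (lt y)⁻¹, tr_tr, tr_tr, inv_mul_cancel, tr_one,
    ← lt_bar] at h
  exact h

theorem exists_leaf [Fintype ι] {A : Set (FreeGroup ι)} (hA : FC A) (h : 0 < ii A) :
    ∃ (u : FreeGroup ι) (a : ι × Bool), Cr (tr u A) (C a) ∧
      ∀ z, z ≠ a → (tr u A ∩ C z).Finite ∨ ((tr u A)ᶜ ∩ C z).Finite := by
  obtain ⟨Q, hQ⟩ : ∃ Q : Set (FreeGroup ι × (ι × Bool)),
      ∀ p, p ∈ Q ↔ Cr (tr p.1 A) (C p.2) := ⟨{p | Cr (tr p.1 A) (C p.2)}, fun _ => Iff.rfl⟩
  have hfin : Q.Finite := by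
    have hsub : Q ⊆ ⋃ a : ι × Bool, (fun g => (g, a)) '' {g | Cr (tr g A) (C a)} := by
      rintro ⟨g, a⟩ hg
      exact Set.mem_iUnion.2 ⟨a, g, (hQ _).1 hg, rfl⟩
    exact (Set.finite_iUnion fun a => (Cr_finite hA (FC_C a)).image _).subset hsub
  have hne : Q.Nonempty := by
    by_contra hcon
    rw [Set.not_nonempty_iff_eq_empty] at hcon
    have h0 : ii A = 0 := by
      unfold ii
      refine Finset.sum_eq_zero fun a _ => ?_
      unfold jj
      have he : {g : FreeGroup ι | Cr (tr g A) (C a)} = ∅ := by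
        ext g
        simp only [Set.mem_ofPred_eq, Set.mem_empty_iff_false, iff_false]
        intro hg
        have hm : (g, a) ∈ Q := (hQ _).2 hg
        rw [hcon] at hm
        exact hm
      rw [he, Set.ncard_empty]
    omega
  obtain ⟨⟨g, y⟩, hgy, hmax⟩ := Set.exists_max_image Q
    (fun p : FreeGroup ι × (ι × Bool) => (lt (bar p.2) * p.1).toWord.length) hfin hne
  have hgy' : Cr (tr g A) (C y) := (hQ _).1 hgy
  have hua : Cr (tr (lt (bar y) * g) A) (C (bar y)) := Leaf_step hgy'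
  have hmax' : ∀ (v : FreeGroup ι) (z : ι × Bool), Cr (tr v A) (C z) →
      (lt (bar z) * v).toWord.length ≤ (lt (bar y) * g).toWord.length := by
    intro v z hvz
    exact hmax (v, z) ((hQ _).2 hvz)
  -- the word of u
  have hlen : g.toWord.length ≤ (lt (bar y) * g).toWord.length := by
    have h1 := hmax' _ _ hua
    have e : lt (bar (bar y)) * (lt (bar y) * g) = g := by
      rw [lt_bar (bar y), inv_mul_cancel_left]
    rwa [e] at h1
  have hword : (lt (bar y) * g).toWord = bar y :: g.toWord := by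
    rw [toWord_lt_mul] at hlen ⊢
    split_ifs at hlen ⊢ with hc
    · exfalso
      rw [List.length_tail] at hlen
      have hpos : 0 < g.toWord.length := by
        rcases hl : g.toWord with _ | ⟨b, l⟩
        · rw [hl] at hc
          simp at hc
        · simp
      omega
    · rfl
  refine ⟨lt (bar y) * g, bar y, hua, ?_⟩
  intro z hz
  have hnc : ¬ Cr (tr (lt (bar y) * g) A) (C z) := by
    intro hcz
    have h1 := hmax' _ _ hcz
    rw [toWord_lt_mul (bar z)] at h1
    have hcond : ¬ (lt (bar y) * g).toWord.head? = some (bar (bar z)) := by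
      rw [hword, bar_bar]
      simp only [List.head?_cons, Option.some.injEq]
      exact fun e => hz e.symm
    rw [if_neg hcond, List.length_cons] at h1
    omega
  have hsub : C (bar y) ⊆ (C z)ᶜ := by
    intro x hx hxz
    have : x ∈ C z ∩ C (bar y) := ⟨hxz, hx⟩
    rw [C_inter_C hz] at this
    exact this
  by_contra hcon
  push Not at hcon
  obtain ⟨h1, h2⟩ := hcon
  apply hnc
  refine ⟨h1, hua.1.mono (Set.inter_subset_inter_right _ hsub), h2,
    hua.2.2.1.mono (Set.inter_subset_inter_right _ hsub)⟩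

end PPos
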