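import Pool.Agent.H1.PP.Unc
import Pool.Agent.H1.PP.Leaf
import Pool.Agent.H1.PP.Decr

set_option autoImplicit false
set_option linter.unusedSectionVars false

/-!
# PP MainL: some automorphism makes the hull empty (helper1)

Let `m` be the minimum of all `ii A` with `Low (α w) A`, `α` an automorphism (`Nat.find`). If `m = 0` we are done. Otherwise take `α, A` with `ii A = m`, and (`exists_nested` for
`α w`) `A` crosses no translate. `exists_leaf`: `u, a` with `A1 = tr u A` crossing `C a` and pure on `C z` for `z ≠ a`. `Low (α w) A1`, `ii A1 = m`, and `A1` crosses no translate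
(`Cr_tr`, `tr_tr`: `tr g (tr u A) = tr u (tr (u⁻¹ g u) A)`).
If `(A1 ∩ C (bar a))` is finite put `D' = A1`, otherwise (`A1ᶜ ∩ C (bar a)` finite) `D' = A1ᶜ`. `N = {z | z ≠ a ∧ (D' ∩ C z).Finite}`, `N' = {z | z ≠ a ∧ (D'ᶜ ∩ C z).Finite}`. `CB N` is a finite
union, so `D' ∩ CB N` is finite, `D'ᶜ ∩ CB N'` is finite. `decrease` gives `τ` with `ii (im τ A1) < m`, but `Low (τ (α w)) (im τ A1)`, and `τ (α w) = (α.trans τ) w`: a contradiction.
-/

namespace PPos

open FreeGroup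

variable {ι : Type} [DecidableEq ι]

private theorem MainL_fin [Fintype ι] {D : Set (FreeGroup ι)} {a : ι × Bool} :
    (D ∩ CB {z | z ≠ a ∧ (D ∩ C z).Finite}).Finite := by
  have h : D ∩ CB {z | z ≠ a ∧ (D ∩ C z).Finite} ⊆
      ⋃ z ∈ {z : ι × Bool | z ≠ a ∧ (D ∩ C z).Finite}, (D ∩ C z) := by
    rintro g ⟨hg, z, hz, hgz⟩
    exact Set.mem_biUnion hz ⟨hg, hgz⟩
  refine Set.Finite.subset ?_ h
  exact Set.Finite.biUnion (Set.toFinite _) fun z hz => hz.2

private theorem MainL_nest {A : Set (FreeGroup ι)} (h : ∀ g, ¬ Cr (tr g A) A)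
    (u g : FreeGroup ι) : ¬ Cr (tr g (tr u A)) (tr u A) := by
  intro hc
  apply h (u⁻¹ * g * u)
  rw [← Cr_tr u, tr_tr]
  rw [tr_tr] at hc
  have : u * (u⁻¹ * g * u) = g * u := by group
  rw [this]
  exact hc

theorem exists_zero [Fintype ι] {w : FreeGroup ι} (h : ∃ A, Low w A) :
    ∃ (α : FreeGroup ι ≃* FreeGroup ι) (A : Set (FreeGroup ι)), Low (α w) A ∧ ii A = 0 := by
  classical
  have hex : ∃ m : ℕ, ∃ (α : FreeGroup ι ≃* FreeGroup ι) (A : Set (FreeGroup ι)),
      Low (α w) A ∧ ii A = m := by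
    obtain ⟨A, hA⟩ := h
    exact ⟨ii A, MulEquiv.refl _, A, hA, rfl⟩
  obtain ⟨α, A, hA, hAm⟩ := Nat.find_spec hex
  set m := Nat.find hex with hm
  have hmin : ∀ (β : FreeGroup ι ≃* FreeGroup ι) (E : Set (FreeGroup ι)), Low (β w) E →
      m ≤ ii E := fun β E hE => Nat.find_min' hex ⟨β, E, hE, rfl⟩
  rcases Nat.eq_zero_or_pos m with h0 | hpos
  · exact ⟨α, A, hA, by rw [hAm, h0]⟩
  · exfalso
    obtain ⟨A', hA', hAm', hnest⟩ := exists_nested hpos (fun E hE => hmin α E hE) ⟨A, hA, hAm⟩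
    obtain ⟨u, a, hcr, hpure⟩ := exists_leaf hA'.fc (by rw [hAm']; exact hpos)
    have hA1 : Low (α w) (tr u A') := hA'.tr u
    have hA1m : ii (tr u A') = m := by rw [ii_tr, hAm']
    have hnest1 := MainL_nest hnest u
    have key : ∀ D' : Set (FreeGroup ι), (D' = tr u A' ∨ D' = (tr u A')ᶜ) →
        (∀ z, z ≠ a → (D' ∩ C z).Finite ∨ (D'ᶜ ∩ C z).Finite) →
        (D' ∩ C (bar a)).Finite → False := by
      intro D' hD hp hb
      obtain ⟨τ, hτ⟩ := decrease hA1.fc hnest1 hD a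
        {z | z ≠ a ∧ (D' ∩ C z).Finite} {z | z ≠ a ∧ (D'ᶜ ∩ C z).Finite}
        (fun h => h.1 rfl) ⟨bar_ne a, hb⟩
        (fun z hz => (hp z hz).imp (fun h => ⟨hz, h⟩) (fun h => ⟨hz, h⟩))
        MainL_fin MainL_fin hcr
      have h1 : Low ((α.trans τ) w) (im τ (tr u A')) := hA1.im τ
      have h2 := hmin _ _ h1
      omega
    rcases hpure (bar a) (bar_ne a) with hb | hb
    · exact key _ (Or.inl rfl) hpure hb
    · refine key _ (Or.inr rfl) (fun z hz => ?_) hb
      rw [compl_compl]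
      exact (hpure z hz).symm

end PPos
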