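import Pool.Agent.H1.PP.AI

set_option autoImplicit false
set_option linter.unusedSectionVars false

/-!
# PP Turn: the turns of a cyclically reduced word (helper1)

`A ≈ u CB(B)` and `A w ⊆ A`, `w = v w' v⁻¹`, `w'` cyclically reduced with word `L`; if `p, q` are consecutive letters of the cyclic word `L` (`[p, q]` is an infix of `L ++ L`) and
`bar p ∈ B` then `q ∈ B`. PROOF. Suppose `q ∉ B`. `L ++ L = s ++ [p, q] ++ t`, `L ≠ []`. Put `z = mk (s ++ [p])`, `z' = mk (q :: t)`, so `w' ^ 2 = z z'`. All words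
`(List.replicate n L).flatten` are reduced (`IsCyclicallyReduced.flatten_replicate`), so are their infixes. `b := u z⁻¹`.
(1) For `n ≥ 0`: `b w' ^ (n+2) = u (z' w' ^ n)`, and the word of `z' w' ^ n` is `(q :: t) ++ (replicate n L).flatten` (infix of `(replicate (n+2) L).flatten`), so `u⁻¹ b w' ^ (n+2)` begins with
`q ∉ B`: `b w' ^ (n+2) ∉ tr u (CB B)`.
(2) For `n ≥ 0`: `b w' ^ (-n) = u (w' ^ n z)⁻¹`, and the word of `w' ^ n z` is `(replicate n L).flatten ++ s ++ [p]`, so its inverse begins with `bar p ∈ B`: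
`b w' ^ (-n) ∈ tr u (CB B)`.
(3) `w' ≠ 1`, free groups are torsion free (`FreeGroup` has `IsMulTorsionFree`), so `n ↦ b w' ^ n` (`n : ℤ`) is injective. Put `g = b v⁻¹`: `g w ^ n = b w' ^ n v⁻¹`. By `FC A` (with `v⁻¹`)
and `Aeq A (tr u (CB B))` for all but finitely many `n : ℤ`: `g w ^ n ∈ A ↔ b w' ^ n ∈ A ↔ b w' ^ n ∈ tr u (CB B)`. So there is `n₀ ≤ 0` with `g w ^ n₀ ∈ A` and `n₁ > 0` with
`g w ^ n₁ ∉ A`. But `A w ⊆ A` gives `g w ^ n₁ = g w ^ n₀ w ^ (n₁ - n₀) ∈ A`. Contradiction.
-/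

namespace PPos

open FreeGroup

variable {ι : Type} [DecidableEq ι]

private theorem Turn_inv {g : FreeGroup ι} {s : List (ι × Bool)} {p : ι × Bool}
    (h : g.toWord = s ++ [p]) : g⁻¹ ∈ C (bar p) := by
  rw [mem_C, toWord_inv, h]
  simp [invRev, bar]

private theorem Turn_pow {w' : FreeGroup ι} (hc : IsCyclicallyReduced w'.toWord) (n : ℕ) :
    (w' ^ n).toWord = (List.replicate n w'.toWord).flatten := by
  rw [toWord_pow]
  exact (hc.flatten_replicate n).isReduced.reduce_eq

theorem turn {A : Set (FreeGroup ι)} {w v w' u : FreeGroup ι} {B : Set (ι × Bool)}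
    (hFC : FC A) (hlow : ∀ g ∈ A, g * w ∈ A) (hA : Aeq A (tr u (CB B)))
    (hw : w = v * w' * v⁻¹) (hc : IsCyclicallyReduced w'.toWord) {p q : ι × Bool}
    (h : [p, q] <:+: w'.toWord ++ w'.toWord) (hp : bar p ∈ B) : q ∈ B := by
  by_contra hq
  obtain ⟨s, t, hst⟩ := h
  have hrep : ∀ n : ℕ, (List.replicate (n + 2) w'.toWord).flatten =
      s ++ [p] ++ (q :: t ++ (List.replicate n w'.toWord).flatten) := by
    intro n
    rw [List.replicate_succ, List.replicate_succ, List.flatten_cons, List.flatten_cons,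
      ← List.append_assoc, ← hst]
    simp
  have hrep' : ∀ n : ℕ, (List.replicate (n + 2) w'.toWord).flatten =
      (List.replicate n w'.toWord).flatten ++ (s ++ [p]) ++ (q :: t) := by
    intro n
    have e : (List.replicate 2 w'.toWord).flatten = s ++ [p] ++ (q :: t) := by
      have := hrep 0
      simpa using this
    rw [List.replicate_add, List.flatten_append, e]
    simp
  have hred : ∀ n : ℕ, IsReduced (List.replicate (n + 2) w'.toWord).flatten := fun n =>
    (hc.flatten_replicate _).isReduced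
  set z : FreeGroup ι := mk (s ++ [p]) with hz
  set z' : FreeGroup ι := mk (q :: t) with hz'
  have hzw : z.toWord = s ++ [p] := toWord_mk_of_isReduced
    (red_of_sub (hred 0) ⟨[], q :: t ++ (List.replicate 0 w'.toWord).flatten, by
      rw [hrep 0]; simp⟩)
  have hz'w : z'.toWord = q :: t := toWord_mk_of_isReduced
    (red_of_sub (hred 0) ⟨s ++ [p], [], by rw [hrep' 0]; simp⟩)
  have hsq : w' ^ 2 = z * z' := by
    rw [hz, hz', mul_mk, ← mk_toWord (x := w' ^ 2), Turn_pow hc]
    congr 1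
    have := hrep 0
    simpa using this
  -- (1)
  have h1 : ∀ n : ℕ, z' * w' ^ n ∈ C q := by
    intro n
    have e : (z' * w' ^ n).toWord = (q :: t) ++ (List.replicate n w'.toWord).flatten := by
      rw [toWord_mul_of_isReduced, hz'w, Turn_pow hc]
      rw [hz'w, Turn_pow hc]
      exact red_of_sub (hred n) ⟨s ++ [p], [], by rw [hrep n]; simp⟩
    rw [mem_C, e]
    rfl
  -- (2)
  have h2 : ∀ n : ℕ, (w' ^ n * z)⁻¹ ∈ C (bar p) := by
    intro n
    have e : (w' ^ n * z).toWord = ((List.replicate n w'.toWord).flatten ++ s) ++ [p] := by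
      rw [toWord_mul_of_isReduced, hzw, Turn_pow hc]
      · simp
      · rw [hzw, Turn_pow hc]
        exact red_of_sub (hred n) ⟨[], q :: t, by rw [hrep' n]; simp⟩
    exact Turn_inv e
  -- the line
  set b : FreeGroup ι := u * z⁻¹ with hb
  have hpos : ∀ n : ℕ, b * w' ^ (n + 2) ∉ tr u (CB B) := by
    intro n hmem
    have e : u⁻¹ * (b * w' ^ (n + 2)) = z' * w' ^ n := by
      rw [hb, add_comm, pow_add, hsq]
      group
    rw [mem_tr, e] at hmem
    obtain ⟨a, ha, hha⟩ := hmem
    have := h1 n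
    rw [mem_C, hha] at this
    exact hq (Option.some.inj this ▸ ha)
  have hneg : ∀ n : ℕ, b * (w' ^ n)⁻¹ ∈ tr u (CB B) := by
    intro n
    have e : u⁻¹ * (b * (w' ^ n)⁻¹) = (w' ^ n * z)⁻¹ := by
      rw [hb]
      group
    rw [mem_tr, e]
    exact ⟨bar p, hp, h2 n⟩
  have hne : w' ≠ 1 := by
    rintro rfl
    rw [toWord_one] at hst
    simp at hst
  have hinj : Function.Injective fun n : ℤ => b * w' ^ n := by
    intro m n hmn
    have hmn' : w' ^ m = w' ^ n := mul_left_cancel hmn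
    exact (injective_zpow_iff_not_isOfFinOrder.2
      (not_isOfFinOrder_of_isMulTorsionFree hne)) hmn'
  -- almost all points of the line
  have hfin : {n : ℤ | ¬ (b * w' ^ n * v⁻¹ ∈ A ↔ b * w' ^ n ∈ tr u (CB B))}.Finite := by
    have f1 : {n : ℤ | ¬ (b * w' ^ n ∈ A ↔ b * w' ^ n * v⁻¹ ∈ A)}.Finite :=
      (hFC v⁻¹).preimage (f := fun n : ℤ => b * w' ^ n) hinj.injOn
    have f2 : {n : ℤ | ¬ (b * w' ^ n ∈ A ↔ b * w' ^ n ∈ tr u (CB B))}.Finite :=
      Set.Finite.preimage (f := fun n : ℤ => b * w' ^ n) hinj.injOn hA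
    refine (f1.union f2).subset fun n hn => ?_
    by_contra hcon
    rw [Set.mem_union, not_or] at hcon
    simp only [Set.mem_setOf_eq, not_not] at hcon hn
    exact hn (hcon.1.symm.trans hcon.2)
  have hline : ∀ n : ℤ, b * w' ^ n * v⁻¹ = b * v⁻¹ * w ^ n := by
    intro n
    rw [hw, conj_zpow]
    group
  obtain ⟨n0, hn0⟩ : ∃ n : ℕ, b * v⁻¹ * w ^ (-(n : ℤ)) ∈ A := by
    by_contra hcon
    push Not at hcon
    refine Set.infinite_of_injective_forall_mem (f := fun n : ℕ => -(n : ℤ))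
      (fun m n h => by simpa using h) ?_ hfin
    intro n
    simp only [Set.mem_setOf_eq]
    intro hiff
    apply hcon n
    rw [← hline, hiff, zpow_neg, zpow_natCast]
    exact hneg n
  obtain ⟨n1, hn1⟩ : ∃ n : ℕ, b * v⁻¹ * w ^ ((n : ℤ) + 2) ∉ A := by
    by_contra hcon
    push Not at hcon
    refine Set.infinite_of_injective_forall_mem (f := fun n : ℕ => (n : ℤ) + 2)
      (fun m n h => by simpa using h) ?_ hfin
    intro n
    simp only [Set.mem_setOf_eq]
    intro hiff
    have h3 := hcon n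
    rw [← hline, hiff] at h3
    apply hpos n
    have e : w' ^ ((n : ℤ) + 2) = w' ^ (n + 2) := by
      rw [← zpow_natCast]
      norm_num
    rw [← e]
    exact h3
  have hup : ∀ k : ℕ, ∀ g ∈ A, g * w ^ k ∈ A := by
    intro k
    induction k with
    | zero => intro g hg; simpa using hg
    | succ k ih =>
      intro g hg
      rw [pow_succ, ← mul_assoc]
      exact hlow _ (ih g hg)
  apply hn1
  have := hup (n0 + (n1 + 2)) _ hn0
  have e : b * v⁻¹ * w ^ (-(n0 : ℤ)) * w ^ (n0 + (n1 + 2)) = b * v⁻¹ * w ^ ((n1 : ℤ) + 2) := by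
    rw [mul_assoc (b * v⁻¹), ← zpow_natCast, ← zpow_add]
    congr 2
    push_cast
    ring
  rwa [e] at this

end PPos
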