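import Pool.Agent.H1.PP.Sub

set_option autoImplicit false
set_option linter.unusedSectionVars false

/-!
# PP Zero: sets with empty hull (helper1)

`ii A = 0`: `A` crosses no `tr g (C y)` (`Cr_finite` gives finiteness, so `ncard = 0` means empty; `Cr_tr`). Say that a set `Z` is mixed if `A ∩ Z` and `Aᶜ ∩ Z` are infinite.
`cyl [] = univ` is mixed (`NT A`). By `exists_radius` there is `R` such that `cyl p` is not mixed for every word `p` of length `R` (membership in `A` is constant on `cyl p`). So
there is a word `p` such that `cyl p` is mixed, of maximal length; `p` is reduced (`cyl_eq_empty`). Put `u = mk p`.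
For a letter `z` such that `p ++ [z]` is reduced: `cyl (p ++ [z]) = tr u (C z)` is not mixed (maximality). If `p ++ [z]` is not reduced then `p = p' ++ [bar z]`, and
`tr u (C z) = (tr (mk p') (C (bar z)))ᶜ = (cyl p)ᶜ` (`compl_C`, `cyl_concat`); `A` does not cross `cyl p = tr (mk p') (C (bar z))`, and `cyl p` is mixed, so its complement is not
mixed. So for every letter `z`: `A ∩ tr u (C z)` or `Aᶜ ∩ tr u (C z)` is finite. Put `B = {z | (Aᶜ ∩ tr u (C z)).Finite}`. Then `A ≈ tr u (CB B)` (finitely many letters; every element is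
`u` or in some `tr u (C z)`). `B` is nonempty because `A` is infinite, `Bᶜ` is nonempty because `Aᶜ` is infinite.
-/

namespace PPos

open FreeGroup

variable {ι : Type} [DecidableEq ι]

/-- the reduced word of an element different from `1` has a first letter -/
private theorem Zero_head {g : FreeGroup ι} (hg : g ≠ 1) : ∃ z, g ∈ C z := by
  rcases h : g.toWord with _ | ⟨z, l⟩
  · exact absurd (FreeGroup.toWord_eq_nil_iff.mp h) hg
  · refine ⟨z, ?_⟩
    rw [mem_C, h]
    rfl

/-- `A ∩ Z` and `Aᶜ ∩ Z` are infinite -/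
private def Zero_mx (A Z : Set (FreeGroup ι)) : Prop := (A ∩ Z).Infinite ∧ (Aᶜ ∩ Z).Infinite

private theorem Zero_short {A : Set (FreeGroup ι)} {R : ℕ}
    (hR : ∀ g : FreeGroup ι, R ≤ g.toWord.length → (g ∈ A ↔ mk (g.toWord.take R) ∈ A))
    {p : List (ι × Bool)} (hp : R ≤ p.length) : ¬ Zero_mx A (cyl p) := by
  rintro ⟨h1, h2⟩
  have key : ∀ g ∈ cyl p, (g ∈ A ↔ mk (p.take R) ∈ A) := by
    intro g hg
    have h3 : p <+: g.toWord := hg
    have h4 : R ≤ g.toWord.length := hp.trans h3.length_le
    have h5 : g.toWord.take R = p.take R := by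
      obtain ⟨t, ht⟩ := h3
      rw [← ht, List.take_append_of_le_length hp]
    rw [hR g h4, h5]
  obtain ⟨g1, hg1⟩ := h1.nonempty
  obtain ⟨g2, hg2⟩ := h2.nonempty
  exact hg2.1 ((key g2 hg2.2).mpr ((key g1 hg1.2).mp hg1.1))

private theorem Zero_last {p : List (ι × Bool)} {z : ι × Bool} (hp : IsReduced p)
    (hz : ¬ IsReduced (p ++ [z])) : ∃ p', p = p' ++ [bar z] := by
  rcases List.eq_nil_or_concat p with h | ⟨p', x, h⟩
  · exfalso
    apply hz
    rw [h]
    exact List.isChain_singleton z
  · refine ⟨p', ?_⟩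
    rw [List.concat_eq_append] at h
    by_contra hne
    apply hz
    unfold FreeGroup.IsReduced at hp ⊢
    rw [List.isChain_append]
    refine ⟨hp, List.isChain_singleton z, ?_⟩
    intro y hy z' hz' he
    rw [h, List.getLast?_append, List.getLast?_singleton] at hy
    simp only [Option.some_or, Option.mem_def, Option.some.injEq] at hy
    simp only [List.head?_cons, Option.mem_def, Option.some.injEq] at hz'
    subst hy
    subst hz'
    by_contra hne2
    apply hne
    rw [h]
    congr 2
    apply Prod.ext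
    · exact he
    · show x.2 = !z.2
      cases hx : x.2 <;> cases hz2 : z.2 <;> simp_all

theorem ii_zero [Fintype ι] {A : Set (FreeGroup ι)} (hA : FC A) (hn : NT A) (h : ii A = 0) :
    ∃ (u : FreeGroup ι) (B : Set (ι × Bool)), Aeq A (tr u (CB B)) ∧ B.Nonempty ∧ Bᶜ.Nonempty := by
  classical
  have hnc : ∀ (y : ι × Bool) (g : FreeGroup ι), ¬ Cr A (tr g (C y)) := by
    intro y g hC
    have h1 : jj A (C y) = 0 := by
      unfold ii at h
      exact (Finset.sum_eq_zero_iff.mp h) y (Finset.mem_univ y)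
    unfold jj at h1
    have h2 := (Set.ncard_eq_zero (Cr_finite hA (FC_C y))).mp h1
    have h3 : g⁻¹ ∈ {h : FreeGroup ι | Cr (tr h A) (C y)} := by
      show Cr (tr g⁻¹ A) (C y)
      have h4 := (Cr_tr g⁻¹).mpr hC
      rwa [tr_tr, inv_mul_cancel, tr_one] at h4
    rw [h2] at h3
    exact h3
  obtain ⟨R, hR⟩ := hA.exists_radius
  have hmax : ∃ p : List (ι × Bool), Zero_mx A (cyl p) ∧
      ∀ q : List (ι × Bool), p.length < q.length → ¬ Zero_mx A (cyl q) := by
    by_contra hcon
    push Not at hcon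
    have h1 : ∀ n : ℕ, ∃ p : List (ι × Bool), n ≤ p.length ∧ Zero_mx A (cyl p) := by
      intro n
      induction n with
      | zero =>
        refine ⟨[], le_rfl, ?_⟩
        unfold Zero_mx
        rw [cyl_nil, Set.inter_univ, Set.inter_univ]
        exact hn
      | succ n ih =>
        obtain ⟨p, hp1, hp2⟩ := ih
        obtain ⟨q, hq1, hq2⟩ := hcon p hp2
        exact ⟨q, by omega, hq2⟩
    obtain ⟨p, hp1, hp2⟩ := h1 R
    exact Zero_short hR hp1 hp2
  obtain ⟨p, hp, hpm⟩ := hmax
  have hred : IsReduced p := by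
    by_contra h1
    apply hp.1
    rw [cyl_eq_empty h1, Set.inter_empty]
    exact Set.finite_empty
  have hnm : ∀ z : ι × Bool, (A ∩ tr (mk p) (C z)).Finite ∨ (Aᶜ ∩ tr (mk p) (C z)).Finite := by
    intro z
    by_cases hz : IsReduced (p ++ [z])
    · have h1 := hpm (p ++ [z]) (by rw [List.length_append, List.length_singleton]; omega)
      rw [cyl_concat hz] at h1
      by_contra h2
      rw [not_or] at h2
      exact h1 ⟨h2.1, h2.2⟩
    · obtain ⟨p', hp'⟩ := Zero_last hred hz
      have h1 : cyl p = tr (mk p') (C (bar z)) := by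
        rw [hp']
        exact cyl_concat (by rw [← hp']; exact hred)
      have h2 : tr (mk p) (C z) = (cyl p)ᶜ := by
        rw [h1, ← tr_compl, compl_C, bar_bar, tr_tr, hp', ← mul_mk]
        rfl
      rw [h2]
      by_contra h3
      rw [not_or] at h3
      refine hnc (bar z) (mk p') ?_
      rw [← h1]
      exact ⟨hp.1, h3.1, hp.2, h3.2⟩
  obtain ⟨B, hB⟩ : ∃ B : Set (ι × Bool), B = {z | (Aᶜ ∩ tr (mk p) (C z)).Finite} := ⟨_, rfl⟩
  have hmemB : ∀ z, z ∈ B ↔ (Aᶜ ∩ tr (mk p) (C z)).Finite := by
    intro z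
    rw [hB]
    rfl
  have hAeq : Aeq A (tr (mk p) (CB B)) := by
    unfold Aeq
    have hfin : ({mk p} ∪ ⋃ z : ι × Bool,
        (if z ∈ B then Aᶜ ∩ tr (mk p) (C z) else A ∩ tr (mk p) (C z))).Finite := by
      refine (Set.finite_singleton _).union (Set.finite_iUnion ?_)
      intro z
      split_ifs with hz
      · exact (hmemB z).mp hz
      · exact (hnm z).resolve_right (fun h' => hz ((hmemB z).mpr h'))
    refine hfin.subset ?_
    intro g hg
    by_cases hgu : g = mk p
    · exact Or.inl hgu
    · refine Or.inr ?_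
      have h1 : (mk p)⁻¹ * g ≠ 1 := by
        intro h2
        apply hgu
        rw [inv_mul_eq_one] at h2
        exact h2.symm
      obtain ⟨z, hz⟩ := Zero_head h1
      rw [Set.mem_iUnion]
      refine ⟨z, ?_⟩
      have h2 : g ∈ tr (mk p) (C z) := hz
      have h3 : g ∈ tr (mk p) (CB B) ↔ z ∈ B := by
        constructor
        · rintro ⟨a, ha, ha2⟩
          have h4 : ((mk p)⁻¹ * g).toWord.head? = some z := hz
          rw [h4, Option.some.injEq] at ha2
          rw [ha2]
          exact ha
        · intro hzB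
          exact ⟨z, hzB, hz⟩
      have hg2 : ¬ (g ∈ A ↔ g ∈ tr (mk p) (CB B)) := hg
      rw [h3] at hg2
      split_ifs with hzB
      · refine ⟨?_, h2⟩
        intro hgA
        exact hg2 ⟨fun _ => hzB, fun _ => hgA⟩
      · refine ⟨?_, h2⟩
        by_contra hgA
        exact hg2 ⟨fun h' => absurd h' hgA, fun h' => absurd h' hzB⟩
  refine ⟨mk p, B, hAeq, ?_, ?_⟩
  · obtain ⟨g, a, ha, -⟩ := (hAeq.infinite hn.1).nonempty
    exact ⟨a, ha⟩
  · by_contra hemp
    rw [Set.not_nonempty_iff_eq_empty] at hemp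
    refine (hAeq.compl.infinite hn.2) ((Set.finite_singleton (mk p)).subset ?_)
    intro g hg
    by_contra hgu
    have h1 : (mk p)⁻¹ * g ≠ 1 := by
      intro h2
      apply hgu
      rw [inv_mul_eq_one] at h2
      exact h2.symm
    obtain ⟨z, hz⟩ := Zero_head h1
    have hzB : z ∈ B := by
      by_contra hzB
      have h3 : z ∈ Bᶜ := hzB
      rw [hemp] at h3
      exact h3
    exact hg ⟨z, hzB, hz⟩

end PPos
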