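import Pool.Agent.H1.PP.MainL
import Pool.Agent.H1.PP.Zero
import Pool.Agent.H1.PP.Turn

set_option autoImplicit false
set_option linter.unusedSectionVars false

/-!
# PP OneL: a letter that does not occur (helper1)

`exists_conj`: `v = mk (conjugator w.toWord)`, `w' = mk (reduceCyclically w.toWord)` (`FreeGroup.reduceCyclically.conj_conjugator_reduceCyclically`).
`one_letter`: `exists_zero` gives `α`, `A` with `Low (α w) A`, `ii A = 0`; `ii_zero` gives `u, B` with `A ≈ tr u (CB B)`, `B, Bᶜ ≠ ∅`.
CASE 1: there is `a ∈ B` with `bar a ∉ B`. `whitehead` gives `τ` with `im τ A ≈ im τ (tr u (CB B)) = tr (τ u) (im τ (CB B)) ≈ tr k (C a) = tr k (CB {a})`, `k = τ u (lt a)⁻¹`; `Low (τ (α w)) (im τ A)`. Write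
`τ (α w) = v w' v⁻¹`, `w'` cyclically reduced, `L = w'.toWord`. CLAIM `bar a ∉ L`. Suppose `bar a ∈ L`; then some `[bar a, q]` is an infix of `L ++ L` (the position of `bar a` in the first copy),
`bar (bar a) = a ∈ {a}`, so by `turn` `q = a`. But `L ++ L` is reduced (`IsCyclicallyReduced.flatten_replicate` with `n = 2`), so `[bar a, a]` is not an infix. So the letter `bar a = (i, b)` does
not occur in the word of `w'`, and `w' = α' w` with `α' = (α.trans τ)` followed by the inner automorphism `MulAut.conj v⁻¹`.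
CASE 2: `a ∈ B → bar a ∈ B` for all `a` (so also `c ∉ B → bar c ∉ B`). Choose `a ∈ B`, `c ∉ B`. Write `α w = v w' v⁻¹`, `L = w'.toWord`. CLAIM: `a ∉ L` or `c ∉ L`. Suppose `a, c ∈ L`. In the word
`L ++ L` there is an occurrence of `a` (in the first copy) followed later by an occurrence of `c` (in the second copy). So there are consecutive letters `[p, q]` in `L ++ L` with `p ∈ B`, `q ∉ B`
(the first letter outside `B` after that `a`). `bar p ∈ B`, so by `turn` `q ∈ B`: a contradiction. So the letter `a` or `c` does not occur in the word of `w'`, `α' = α` followed by the inner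
automorphism of `v⁻¹`.
-/

namespace PPos

open FreeGroup

variable {ι : Type} [DecidableEq ι]

private theorem OneL_infix_self {α : Type} {L : List α} {x : α} (h : x ∈ L) :
    ∃ q, [x, q] <:+: L ++ L := by
  obtain ⟨s, t, rfl⟩ := List.append_of_mem h
  rcases ht : t ++ (s ++ x :: t) with _ | ⟨q, r⟩
  · simp at ht
  · refine ⟨q, s, r, ?_⟩
    rw [List.append_assoc s (x :: t), List.cons_append, ht]
    simp

private theorem OneL_infix_change {α : Type} {P : α → Prop} {c : α} (hc : ¬ P c) (t : List α) :
    ∀ (s : List α) (a : α), P a → c ∈ t → ∃ p q, [p, q] <:+: s ++ a :: t ∧ P p ∧ ¬ P q := by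
  induction t with
  | nil =>
    intro s a _ h
    simp at h
  | cons b t ih =>
    intro s a ha h
    by_cases hb : P b
    · have hct : c ∈ t := by
        rcases List.mem_cons.1 h with h1 | h1
        · exact absurd (h1 ▸ hb) hc
        · exact h1
      obtain ⟨p, q, h1, h2⟩ := ih (s ++ [a]) b hb hct
      refine ⟨p, q, ?_, h2⟩
      rwa [List.append_assoc, List.singleton_append] at h1
    · exact ⟨a, b, ⟨s, t, by simp⟩, ha, hb⟩

private theorem OneL_double {L : List (ι × Bool)} (h : IsCyclicallyReduced L) :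
    IsReduced (L ++ L) := by
  have h1 := (h.flatten_replicate 2).isReduced
  simpa using h1

theorem exists_conj (w : FreeGroup ι) :
    ∃ v w' : FreeGroup ι, w = v * w' * v⁻¹ ∧ IsCyclicallyReduced w'.toWord := by
  have hred : IsReduced w.toWord := isReduced_toWord
  have hc := reduceCyclically.isCyclicallyReduced hred
  refine ⟨mk (reduceCyclically.conjugator w.toWord), mk (reduceCyclically w.toWord), ?_, ?_⟩
  · rw [inv_mk, mul_mk, mul_mk, reduceCyclically.conj_conjugator_reduceCyclically, mk_toWord]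
  · rw [toWord_mk_of_isReduced hc.isReduced]
    exact hc

theorem one_letter [Fintype ι] {w : FreeGroup ι} (h : ∃ A, Low w A) :
    ∃ (α : FreeGroup ι ≃* FreeGroup ι) (i : ι) (b : Bool), (i, b) ∉ (α w).toWord := by
  obtain ⟨α, A, hL, h0⟩ := exists_zero h
  obtain ⟨u, B, hA, ⟨a0, ha0⟩, ⟨c0, hc0⟩⟩ := ii_zero hL.fc hL.nt h0
  by_cases hcase : ∃ a ∈ B, bar a ∉ B
  · obtain ⟨a, ha, hb⟩ := hcase
    obtain ⟨τ, h1, _⟩ := whitehead B a ha hb
    have hL' := hL.im τ
    have hA' : Aeq (im τ A) (tr (τ u * (lt a)⁻¹) (CB {a})) := by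
      have e1 := hA.im τ
      rw [im_tr] at e1
      have e2 := h1.tr (τ u)
      rw [tr_tr, ← CB_singleton] at e2
      exact e1.trans e2
    obtain ⟨v, w', hw, hc⟩ := exists_conj (τ (α w))
    have hnot : bar a ∉ w'.toWord := by
      intro hmem
      obtain ⟨q, hq⟩ := OneL_infix_self hmem
      have hqa : q ∈ ({a} : Set (ι × Bool)) :=
        turn hL'.fc hL'.low hA' hw hc hq (by rw [bar_bar]; exact Set.mem_singleton a)
      rw [Set.mem_singleton_iff] at hqa
      rw [hqa] at hq
      have hr := red_of_sub (OneL_double hc) hq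
      rw [isReduced_cons_cons] at hr
      have h2 := hr.1 rfl
      simp [bar] at h2
    refine ⟨(α.trans τ).trans (MulAut.conj v⁻¹), a.1, !a.2, ?_⟩
    have e3 : ((α.trans τ).trans (MulAut.conj v⁻¹)) w = w' := by
      rw [MulEquiv.trans_apply, MulEquiv.trans_apply, MulAut.conj_apply, hw]
      group
    rw [e3]
    exact hnot
  · push Not at hcase
    obtain ⟨v, w', hw, hc⟩ := exists_conj (α w)
    have hnot : a0 ∉ w'.toWord ∨ c0 ∉ w'.toWord := by
      by_contra hcon
      push Not at hcon
      obtain ⟨h1, h2⟩ := hcon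
      obtain ⟨s, t, hst⟩ := List.append_of_mem h1
      obtain ⟨p, q, hpq, hp, hq⟩ := OneL_infix_change (P := fun x => x ∈ B) (c := c0) hc0
        (t ++ w'.toWord) s a0 ha0 (List.mem_append_right _ h2)
      have e1 : s ++ a0 :: (t ++ w'.toWord) = w'.toWord ++ w'.toWord := by
        conv_rhs => rw [hst]
        simp [hst]
      rw [e1] at hpq
      exact hq (turn hL.fc hL.low hA hw hc hpq (hcase p hp))
    have e3 : (α.trans (MulAut.conj v⁻¹)) w = w' := by
      rw [MulEquiv.trans_apply, MulAut.conj_apply, hw]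
      group
    rcases hnot with h1 | h1
    · exact ⟨α.trans (MulAut.conj v⁻¹), a0.1, a0.2, by rw [e3]; exact h1⟩
    · exact ⟨α.trans (MulAut.conj v⁻¹), c0.1, c0.2, by rw [e3]; exact h1⟩

end PPos
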