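import Pool.Agent.H1.PP.Radius

set_option autoImplicit false
set_option linter.unusedSectionVars false

/-!
# PP PumpA: cut and paste (helper1)

`p = p' ++ [y]`, `q = q' ++ [y]` reduced words with the same last letter and the same STATE (`SameState`: membership in `A` at `mk p * k` and `mk q * k` agrees for `|k| ≤ l`).
CUT: `A' = cut A p q`: on `cyl p` it is the translate of `A ∩ cyl q`, outside it is `A`. For `g = mk p * k ∈ cyl p` the word of `k` does not begin with `bar y` (the word of `g` is `p ++ k.toWord`;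
`cyl_concat`: `cyl (p' ++ [y]) = tr (mk p') (C y)`, `compl_C`), and then `mk q * k ∈ cyl q`; conversely, if the word of `k` does not begin with `bar y` then `mk p * k ∈ cyl p`.
(C1) `FC A'`: `A' = (cyl p ∩ tr (mk p * (mk q)⁻¹) A) ∪ ((cyl p)ᶜ ∩ A)`; `cyl p` is `FC` (`cyl_concat`, `FC_C`, `FC.tr`).
(C2) `straddle_length`: exactly one of `k, k w` begins with `bar y`: then `|k| ≤ |w|` and `|k w| ≤ |w|` [if `k = k' c`, `w = c⁻¹ w''`, `k w = k' w''` without cancellation, and `k' ≠ 1`, then `k` and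
`k w` have the same first letter; so `k' = 1`, `k = c`, `k w = w''`. Formally: if `|k| > |w|` then `take_toWord_mul` (file Radius) with `R = 1` gives the same first letter; if `|k w| > |w|` apply the
same to `k w` and `w⁻¹`]. Hence: if exactly one of `g = mk p * k` and `g w` is in `cyl p`, then by equality of states `mk p * k ∈ A ↔ mk q * k ∈ A` and
`mk p * (k w) ∈ A ↔ mk q * (k w) ∈ A`, so `g ∈ A' ↔ g ∈ A` and `g w ∈ A' ↔ g w ∈ A` (for the one outside `cyl p` by definition).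
(C3) `A' w ⊆ A'`: both `g, g w` outside `cyl p`: clear. Both inside: clear (translate). Straddling: (C2).
-/

namespace PPos

open FreeGroup

variable {ι : Type} [DecidableEq ι]

/-- the cut and paste operation -/
def cut (A : Set (FreeGroup ι)) (p q : List (ι × Bool)) : Set (FreeGroup ι) :=
  {g | (g ∈ cyl p ∧ mk q * (mk p)⁻¹ * g ∈ A) ∨ (g ∉ cyl p ∧ g ∈ A)}

/-- equality of states -/
def SameState (A : Set (FreeGroup ι)) (l : ℕ) (p q : List (ι × Bool)) : Prop :=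
  ∀ k : FreeGroup ι, k.toWord.length ≤ l → (mk p * k ∈ A ↔ mk q * k ∈ A)

theorem PumpA_head {l l' : List (ι × Bool)} (h : l.take 1 = l'.take 1) : l.head? = l'.head? := by
  cases l <;> cases l' <;> simp_all

/-- (C2), first half -/
theorem straddle_length {y : ι × Bool} {k w : FreeGroup ι}
    (h : ¬ (k ∈ C (bar y) ↔ k * w ∈ C (bar y))) :
    k.toWord.length ≤ w.toWord.length ∧ (k * w).toWord.length ≤ w.toWord.length := by
  have hinv : (w⁻¹).toWord.length = w.toWord.length := norm_inv_eq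
  constructor
  · by_contra hlt
    have h1 := take_toWord_mul (g := k) (h := w) (R := 1) (by omega)
    have h2 := PumpA_head h1
    apply h
    rw [mem_C, mem_C, h2]
  · by_contra hlt
    have h1 := take_toWord_mul (g := k * w) (h := w⁻¹) (R := 1) (by omega)
    rw [mul_inv_cancel_right] at h1
    have h2 := PumpA_head h1
    apply h
    rw [mem_C, mem_C, h2]

/-- the elements of a cylinder -/
theorem mul_mem_cyl {p' : List (ι × Bool)} {y : ι × Bool} (hp : IsReduced (p' ++ [y]))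
    (k : FreeGroup ι) : mk (p' ++ [y]) * k ∈ cyl (p' ++ [y]) ↔ k ∉ C (bar y) := by
  have h1 : (mk (p' ++ [y]) : FreeGroup ι) = mk p' * lt y := (mul_mk).symm
  rw [cyl_concat hp, mem_tr, h1, mul_assoc, inv_mul_cancel_left]
  have h2 : k ∉ C (bar y) ↔ k ∈ (C (bar y))ᶜ := Iff.rfl
  rw [h2, compl_C, mem_tr, lt_bar, inv_inv, bar_bar]

theorem PumpA_fc [Finite ι] {A : Set (FreeGroup ι)} (hA : FC A)
    {p' q' : List (ι × Bool)} {y : ι × Bool} (hp : IsReduced (p' ++ [y])) :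
    FC (cut A (p' ++ [y]) (q' ++ [y])) := by
  have h1 : FC (cyl (p' ++ [y])) := by
    rw [cyl_concat hp]
    exact (FC_C y).tr _
  have h2 : cut A (p' ++ [y]) (q' ++ [y]) =
      (cyl (p' ++ [y]) ∩ tr (mk (q' ++ [y]) * (mk (p' ++ [y]))⁻¹)⁻¹ A) ∪
        ((cyl (p' ++ [y]))ᶜ ∩ A) := by
    ext g
    show (g ∈ cyl (p' ++ [y]) ∧ mk (q' ++ [y]) * (mk (p' ++ [y]))⁻¹ * g ∈ A) ∨
      (g ∉ cyl (p' ++ [y]) ∧ g ∈ A) ↔
      (g ∈ cyl (p' ++ [y]) ∧ (mk (q' ++ [y]) * (mk (p' ++ [y]))⁻¹)⁻¹⁻¹ * g ∈ A) ∨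
        (g ∉ cyl (p' ++ [y]) ∧ g ∈ A)
    rw [inv_inv]
  rw [h2]
  exact (h1.inter (hA.tr _)).union (h1.compl.inter hA)

theorem PumpA_in {A : Set (FreeGroup ι)} {p q : List (ι × Bool)} {g : FreeGroup ι}
    (h : g ∈ cyl p) : g ∈ cut A p q ↔ mk q * (mk p)⁻¹ * g ∈ A :=
  ⟨fun h1 => h1.elim (fun h2 => h2.2) fun h2 => absurd h h2.1, fun h1 => Or.inl ⟨h, h1⟩⟩

theorem PumpA_out {A : Set (FreeGroup ι)} {p q : List (ι × Bool)} {g : FreeGroup ι}
    (h : g ∉ cyl p) : g ∈ cut A p q ↔ g ∈ A :=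
  ⟨fun h1 => h1.elim (fun h2 => absurd h2.1 h) fun h2 => h2.2, fun h1 => Or.inr ⟨h, h1⟩⟩

theorem PumpA_state {A : Set (FreeGroup ι)} {p q : List (ι × Bool)} {g : FreeGroup ι} {l : ℕ}
    (hs : SameState A l p q) (h : ((mk p)⁻¹ * g).toWord.length ≤ l) :
    g ∈ cut A p q ↔ g ∈ A := by
  by_cases hg : g ∈ cyl p
  · rw [PumpA_in hg, mul_assoc, ← hs _ h, mul_inv_cancel_left]
  · exact PumpA_out hg

theorem PumpA_strad {A : Set (FreeGroup ι)} {w : FreeGroup ι} {l : ℕ}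
    (hl : w.toWord.length ≤ l) {p' q' : List (ι × Bool)} {y : ι × Bool}
    (hp : IsReduced (p' ++ [y])) (hs : SameState A l (p' ++ [y]) (q' ++ [y])) (g : FreeGroup ι)
    (h : ¬ (g ∈ cyl (p' ++ [y]) ↔ g * w ∈ cyl (p' ++ [y]))) :
    (g ∈ cut A (p' ++ [y]) (q' ++ [y]) ↔ g ∈ A) ∧
      (g * w ∈ cut A (p' ++ [y]) (q' ++ [y]) ↔ g * w ∈ A) := by
  have h1 : g ∈ cyl (p' ++ [y]) ↔ (mk (p' ++ [y]))⁻¹ * g ∉ C (bar y) := by
    have h2 := mul_mem_cyl hp ((mk (p' ++ [y]))⁻¹ * g)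
    rwa [mul_inv_cancel_left] at h2
  have h3 : g * w ∈ cyl (p' ++ [y]) ↔ (mk (p' ++ [y]))⁻¹ * g * w ∉ C (bar y) := by
    have h2 := mul_mem_cyl hp ((mk (p' ++ [y]))⁻¹ * g * w)
    rwa [mul_assoc, mul_inv_cancel_left, ← mul_assoc] at h2
  have h4 := straddle_length (y := y) (k := (mk (p' ++ [y]))⁻¹ * g) (w := w) (by
    rw [h1, h3] at h
    tauto)
  refine ⟨PumpA_state hs (h4.1.trans hl), PumpA_state hs ?_⟩
  rw [← mul_assoc]
  exact h4.2.trans hl

/-- (C1), (C2), (C3): the cut is closed under right multiplication by `w`; and it agrees with `A` on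
straddling pairs and outside `cyl p` -/
theorem cut_low [Finite ι] {A : Set (FreeGroup ι)} {w : FreeGroup ι} (hA : FC A)
    (hlow : ∀ g ∈ A, g * w ∈ A) {l : ℕ} (hl : w.toWord.length ≤ l)
    {p' q' : List (ι × Bool)} {y : ι × Bool} (hp : IsReduced (p' ++ [y]))
    (hq : IsReduced (q' ++ [y])) (hs : SameState A l (p' ++ [y]) (q' ++ [y])) :
    FC (cut A (p' ++ [y]) (q' ++ [y])) ∧
      (∀ g ∈ cut A (p' ++ [y]) (q' ++ [y]), g * w ∈ cut A (p' ++ [y]) (q' ++ [y])) ∧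
      ∀ g : FreeGroup ι, ¬ (g ∈ cyl (p' ++ [y]) ∧ g * w ∈ cyl (p' ++ [y])) →
        ((g ∈ cut A (p' ++ [y]) (q' ++ [y]) ↔ g ∈ A) ∧
          (g * w ∈ cut A (p' ++ [y]) (q' ++ [y]) ↔ g * w ∈ A)) := by
  refine ⟨PumpA_fc hA hp, fun g hg => ?_, fun g hg => ?_⟩
  · by_cases h : g ∈ cyl (p' ++ [y]) ↔ g * w ∈ cyl (p' ++ [y])
    · by_cases h1 : g ∈ cyl (p' ++ [y])
      · have h2 := h.1 h1
        rw [PumpA_in h1] at hg
        rw [PumpA_in h2, ← mul_assoc]
        exact hlow _ hg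
      · have h2 : g * w ∉ cyl (p' ++ [y]) := fun h3 => h1 (h.2 h3)
        rw [PumpA_out h1] at hg
        rw [PumpA_out h2]
        exact hlow _ hg
    · obtain ⟨h1, h2⟩ := PumpA_strad hl hp hs g h
      exact h2.2 (hlow _ (h1.1 hg))
  · by_cases h : g ∈ cyl (p' ++ [y]) ↔ g * w ∈ cyl (p' ++ [y])
    · have h1 : g ∉ cyl (p' ++ [y]) := fun h1 => hg ⟨h1, h.1 h1⟩
      have h2 : g * w ∉ cyl (p' ++ [y]) := fun h3 => h1 (h.2 h3)
      exact ⟨PumpA_out h1, PumpA_out h2⟩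
    · exact PumpA_strad hl hp hs g h

end PPos
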