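import Pool.Agent.H1.PP.PumpA

set_option autoImplicit false
set_option linter.unusedSectionVars false

/-!
# PP PumpB: the cut has fewer active words (helper1)

A word `u` is ACTIVE for `A` if the membership in `A` is not constant on `cyl u`. `act_finite`: by `FC.exists_radius` words of length `≥ R` are not active (`g` and `mk (g.toWord.take R)`,
`take R` = the prefix of length `R` of `u`), so active words are in the finite set of lists of length `< R` (`List.finite_length_lt`). Active words are reduced (`cyl_eq_empty`).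
`Act A` is closed under prefixes (`cyl u ⊆ cyl u'` for a prefix `u'` of `u`).
`cut_act`: `p = p' ++ [y]`, `q = p ++ r ++ [y]` reduced and active for `A`, `A' = cut A p q`. The map `v ↦ v` if `p` is not a prefix of `v`, and `p ++ v' ↦ q ++ v'`, is injective from `Act A'` to
`Act A \ {p}`:
 if `p` is not a prefix of `v` and `v` is not a prefix of `p` then `cyl v ∩ cyl p = ∅`, `A' = A` on `cyl v`, so `v ∈ Act A`. If `v` is a (proper) prefix of `p` then `v ∈ Act A` because `q ∈ Act A` has the
 prefix `v`. If `v = p ++ v'` is active for `A'`: `g ∈ cyl v` iff `mk q * (mk p)⁻¹ * g ∈ cyl (q ++ v')` for `g ∈ cyl p` (`g = mk p * k`, the word of `g` is `p ++ k.toWord`, `k ∉ C (bar y)`,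
 `mul_mem_cyl`; the word of `mk q * k` is `q ++ k.toWord`), so `q ++ v' ∈ Act A`. `p ∈ Act A` is not a value: a value with prefix `q` is longer than `p`, the other values do not have the prefix `p`.
 Injective: values of the first kind do not have the prefix `p`, values of the second kind have the prefix `q`, hence the prefix `p`.
 So `(Act A').ncard ≤ (Act A \ {p}).ncard < (Act A).ncard` (`Set.ncard_le_ncard_of_injOn`).
`radius_of_act`: `g` and `mk (g.toWord.take R)` are both in `cyl (g.toWord.take R)`, which is not active.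
-/

namespace PPos

open FreeGroup

variable {ι : Type} [DecidableEq ι]

/-- membership in `A` is not constant on `cyl u` -/
def Act (A : Set (FreeGroup ι)) : Set (List (ι × Bool)) :=
  {u | (A ∩ cyl u).Nonempty ∧ (Aᶜ ∩ cyl u).Nonempty}

theorem PumpB_take {u : List (ι × Bool)} {g : FreeGroup ι} {R : ℕ} (hR : R ≤ u.length)
    (hg : g ∈ cyl u) : R ≤ g.toWord.length ∧ g.toWord.take R = u.take R := by
  obtain ⟨t, ht⟩ := hg
  rw [← ht]
  exact ⟨by rw [List.length_append]; omega, List.take_append_of_le_length hR⟩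

theorem act_finite [Finite ι] {A : Set (FreeGroup ι)} (hA : FC A) : (Act A).Finite := by
  obtain ⟨R, hR⟩ := hA.exists_radius
  refine (List.finite_length_lt (ι × Bool) R).subset fun u hu => ?_
  show u.length < R
  by_contra hlt
  obtain ⟨⟨g, hgA, hg⟩, ⟨g', hgA', hg'⟩⟩ := hu
  obtain ⟨h1, h2⟩ := PumpB_take (not_lt.1 hlt) hg
  obtain ⟨h3, h4⟩ := PumpB_take (not_lt.1 hlt) hg'
  have h5 := (hR g h1).1 hgA
  apply hgA'
  rw [hR g' h3, h4, ← h2]
  exact h5

theorem act_prefix {A : Set (FreeGroup ι)} {u v : List (ι × Bool)} (h : u <+: v)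
    (hv : v ∈ Act A) : u ∈ Act A := by
  obtain ⟨⟨g, hgA, hg⟩, ⟨g', hgA', hg'⟩⟩ := hv
  exact ⟨⟨g, hgA, h.trans hg⟩, ⟨g', hgA', h.trans hg'⟩⟩

theorem act_reduced {A : Set (FreeGroup ι)} {u : List (ι × Bool)} (h : u ∈ Act A) :
    IsReduced u := by
  by_contra hu
  obtain ⟨⟨g, _, hg⟩, _⟩ := h
  rw [cyl_eq_empty hu] at hg
  exact hg

theorem PumpB_word {p' : List (ι × Bool)} {y : ι × Bool} (hp : IsReduced (p' ++ [y]))
    {k : FreeGroup ι} (hk : k ∉ C (bar y)) :
    (mk (p' ++ [y]) * k).toWord = (p' ++ [y]) ++ k.toWord := by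
  have h1 : (lt y * k).toWord = y :: k.toWord := by
    rw [toWord_lt_mul]
    exact if_neg hk
  have h2 : IsReduced (y :: k.toWord) := by
    rw [← h1]
    exact isReduced_toWord
  have h3 := isReduced_append_cons hp h2
  have h4 := toWord_mk_of_isReduced hp
  have h5 : p' ++ y :: k.toWord = (p' ++ [y]) ++ k.toWord := by
    rw [List.append_assoc]
    rfl
  rw [toWord_mul_of_isReduced, h4]
  rw [h4, ← h5]
  exact h3

theorem PumpB_shift {p' r v' : List (ι × Bool)} {y : ι × Bool} (hp : IsReduced (p' ++ [y]))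
    (hq : IsReduced (p' ++ [y] ++ r ++ [y])) {g : FreeGroup ι}
    (hg : g ∈ cyl ((p' ++ [y]) ++ v')) :
    mk (p' ++ [y] ++ r ++ [y]) * (mk (p' ++ [y]))⁻¹ * g ∈ cyl ((p' ++ [y] ++ r ++ [y]) ++ v') := by
  have h0 : g ∈ cyl (p' ++ [y]) := (List.prefix_append _ _).trans hg
  have h1 : (mk (p' ++ [y]))⁻¹ * g ∉ C (bar y) := by
    rw [← mul_mem_cyl hp, mul_inv_cancel_left]
    exact h0
  have h2 := PumpB_word hp h1
  rw [mul_inv_cancel_left] at h2
  have h3 := PumpB_word hq h1
  have h4 : (p' ++ [y]) ++ v' <+: g.toWord := hg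
  rw [h2, List.prefix_append_right_inj] at h4
  show (p' ++ [y] ++ r ++ [y]) ++ v' <+:
    (mk (p' ++ [y] ++ r ++ [y]) * (mk (p' ++ [y]))⁻¹ * g).toWord
  rw [mul_assoc, h3, List.prefix_append_right_inj]
  exact h4

/-- (C4) -/
theorem cut_act [Finite ι] {A : Set (FreeGroup ι)} (hA : FC A)
    {p' r : List (ι × Bool)} {y : ι × Bool}
    (hact : p' ++ [y] ++ r ++ [y] ∈ Act A) :
    (Act (cut A (p' ++ [y]) (p' ++ [y] ++ r ++ [y]))).ncard < (Act A).ncard := by
  classical
  have hpq : p' ++ [y] <+: p' ++ [y] ++ r ++ [y] := by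
    rw [List.append_assoc (p' ++ [y])]
    exact List.prefix_append _ _
  have hpact : p' ++ [y] ∈ Act A := act_prefix hpq hact
  have hp := act_reduced hpact
  have hq := act_reduced hact
  have hfin := act_finite hA
  refine lt_of_le_of_lt ?_ (Set.ncard_sdiff_singleton_lt_of_mem hpact hfin)
  refine Set.ncard_le_ncard_of_injOn
    (fun v => if p' ++ [y] <+: v then (p' ++ [y] ++ r ++ [y]) ++ v.drop (p' ++ [y]).length else v)
    ?_ ?_ (hfin.subset Set.sdiff_subset)
  · intro v hv
    show (if p' ++ [y] <+: v then (p' ++ [y] ++ r ++ [y]) ++ v.drop (p' ++ [y]).length else v) ∈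
      Act A \ {p' ++ [y]}
    split_ifs with h
    · obtain ⟨v', rfl⟩ := h
      rw [List.drop_left]
      refine ⟨?_, ?_⟩
      · obtain ⟨⟨g, hgA, hg⟩, ⟨g', hgA', hg'⟩⟩ := hv
        have h1 : g ∈ cyl (p' ++ [y]) := (List.prefix_append _ _).trans hg
        have h1' : g' ∈ cyl (p' ++ [y]) := (List.prefix_append _ _).trans hg'
        refine ⟨⟨_, (PumpA_in h1).1 hgA, PumpB_shift hp hq hg⟩,
          ⟨_, fun h2 => hgA' ((PumpA_in h1').2 h2), PumpB_shift hp hq hg'⟩⟩
      · intro h1
        have h2 := congrArg List.length (Set.mem_singleton_iff.1 h1)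
        simp only [List.length_append, List.length_cons, List.length_nil] at h2
        omega
    · refine ⟨?_, fun h1 => h (by rw [Set.mem_singleton_iff.1 h1])⟩
      by_cases h1 : v <+: p' ++ [y]
      · exact act_prefix (h1.trans hpq) hact
      · have h2 : ∀ g ∈ cyl v, g ∉ cyl (p' ++ [y]) := by
          intro g hg hg'
          rcases List.prefix_or_prefix_of_prefix hg hg' with h3 | h3
          · exact h1 h3
          · exact h h3
        obtain ⟨⟨g, hgA, hg⟩, ⟨g', hgA', hg'⟩⟩ := hv
        exact ⟨⟨g, (PumpA_out (h2 g hg)).1 hgA, hg⟩,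
          ⟨g', fun h3 => hgA' ((PumpA_out (h2 g' hg')).2 h3), hg'⟩⟩
  · intro v1 _ v2 _ h
    have h' : (if p' ++ [y] <+: v1 then (p' ++ [y] ++ r ++ [y]) ++ v1.drop (p' ++ [y]).length
      else v1) = if p' ++ [y] <+: v2 then
        (p' ++ [y] ++ r ++ [y]) ++ v2.drop (p' ++ [y]).length else v2 := h
    split_ifs at h' with h1 h2 h2
    · have h3 := List.append_cancel_left h'
      obtain ⟨t1, rfl⟩ := h1
      obtain ⟨t2, rfl⟩ := h2
      rw [List.drop_left, List.drop_left] at h3
      rw [h3]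
    · exfalso
      apply h2
      rw [← h']
      exact hpq.trans (List.prefix_append _ _)
    · exfalso
      apply h1
      rw [h']
      exact hpq.trans (List.prefix_append _ _)
    · exact h'

/-- (A2) -/
theorem radius_of_act {A : Set (FreeGroup ι)} {R : ℕ} (h : ∀ u ∈ Act A, u.length < R) :
    ∀ g : FreeGroup ι, R ≤ g.toWord.length → (g ∈ A ↔ mk (g.toWord.take R) ∈ A) := by
  intro g hg
  by_contra hne
  have hred : IsReduced (g.toWord.take R) :=
    red_of_sub isReduced_toWord (List.take_prefix R g.toWord).isInfix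
  have h1 : g ∈ cyl (g.toWord.take R) := List.take_prefix R g.toWord
  have h2 : mk (g.toWord.take R) ∈ cyl (g.toWord.take R) := by
    show g.toWord.take R <+: (mk (g.toWord.take R)).toWord
    rw [toWord_mk_of_isReduced hred]
  have h3 : (g.toWord.take R).length = R := by
    rw [List.length_take]
    omega
  have h4 : g.toWord.take R ∈ Act A := by
    by_cases hgA : g ∈ A
    · exact ⟨⟨g, hgA, h1⟩, ⟨_, fun h5 => hne ⟨fun _ => h5, fun _ => hgA⟩, h2⟩⟩
    · refine ⟨⟨_, ?_, h2⟩, ⟨g, hgA, h1⟩⟩
      by_contra h5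
      exact hne ⟨fun h6 => absurd h6 hgA, fun h6 => absurd h6 h5⟩
  have h5 := h _ h4
  omega

end PPos
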