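import Pool.Agent.H1.PP.PumpB

set_option autoImplicit false
set_option linter.unusedSectionVars false

/-!
# PP PumpC: a positive set of bounded radius (helper1)

`bd c l = 2 * (c * 2 ^ ((c + 1) ^ l)) + 1`, `c` = number of letters. THEOREM `pump`: if `∃ A, Pos w A`, `|w| ≤ l`, then there is `A` with `Pos w A` and radius `bd c l`.

Choose `A` with `Pos w A` and `(Act A).ncard` minimal. CLAIM: every active word has length `≤ 2 K`, `K = c * 2 ^ ((c + 1) ^ l)` (then `radius_of_act` with `R = 2 K + 1`). Suppose `u` is active with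
`|u| > 2 K`. STATE of a nonempty word `u' = u'' ++ [y]`: `(y, fun v : Fin l → Option (ι × Bool) => decide (mk u' * mk (List.ofFn v).reduceOption ∈ A))` (classical), in the type
`(ι × Bool) × ((Fin l → Option (ι × Bool)) → Bool)` of cardinality `K`. Every word of length `≤ l` is of the form `(List.ofFn v).reduceOption`, so equality of states implies `SameState A l`.
The `|u| > 2 K` nonempty prefixes of `u`: by the pigeonhole principle (`Finset.exists_lt_card_fiber_of_mul_lt_card_of_maps_to`) there are three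
different ones `u1, u2, u3` (`|u1| < |u2| < |u3|`) with the same state (a finset of cardinality `> 2` of naturals contains `i < j < k`); let `y` be their last letter, so `u1 = p' ++ [y]`,
`u2 = u1 ++ r ++ [y]`, `u3 = u2 ++ r' ++ [y]`, all active (`act_prefix`), hence reduced. Let `A12 = cut A u1 u2` and `A23 = cut A u2 u3`. By `cut_low` both are `FC` and closed under right multiplication
by `w`, by `cut_act` they have fewer active words than `A`.
One of them satisfies `Pos`: let `g ∉ A`, `g w ∈ A`. If `g, g w ∈ cyl u2`: put `g' = mk u1 * (mk u2)⁻¹ * g`; `g', g' w ∈ cyl u1` (`mul_mem_cyl` for `k = (mk u2)⁻¹ g` and `k w`: `k, k w ∉ C (bar y)`),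
so `g' ∉ A12`, `g' w ∈ A12`. Otherwise, by the last part of `cut_low` for `A23`: `g ∈ A23 ↔ g ∈ A`, `g w ∈ A23 ↔ g w ∈ A`, so `g ∉ A23`, `g w ∈ A23`. So `Pos w A12` or `Pos w A23`, with fewer active
words: a contradiction to minimality.
-/

namespace PPos

open FreeGroup

variable {ι : Type} [DecidableEq ι]

/-- the bound for the radius -/
def bd (c l : ℕ) : ℕ := 2 * (c * 2 ^ ((c + 1) ^ l)) + 1

theorem PumpC_word {α : Type} (l : ℕ) (L : List α) (h : L.length ≤ l) :
    ∃ v : Fin l → Option α, (List.ofFn v).reduceOption = L := by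
  have hM : (L.map some ++ List.replicate (l - L.length) none).length = l := by
    simp; omega
  refine ⟨fun i => (L.map some ++ List.replicate (l - L.length) none)[(i : ℕ)]'(by
    rw [hM]; exact i.2), ?_⟩
  have h1 : List.ofFn (fun i : Fin l => (L.map some ++ List.replicate (l - L.length) none)[(i : ℕ)]'(by
      rw [hM]; exact i.2)) = L.map some ++ List.replicate (l - L.length) none := by
    apply List.ext_getElem
    · rw [List.length_ofFn, hM]
    · intro i h1 h2
      rw [List.getElem_ofFn]
  rw [h1]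
  unfold List.reduceOption
  rw [List.filterMap_append]
  have h2 : List.filterMap id (L.map some) = L := by
    rw [List.filterMap_map]
    exact List.filterMap_some
  have h3 : List.filterMap id (List.replicate (l - L.length) (none : Option α)) = [] := by
    rw [List.filterMap_eq_nil_iff]
    intro a ha
    rw [List.eq_of_mem_replicate ha]
    rfl
  rw [h2, h3, List.append_nil]

theorem PumpC_take {α : Type} (u : List α) {i j : ℕ} (hij : i < j) (hj : j < u.length) :
    u.take (j + 1) = u.take i ++ [u[i]'(hij.trans hj)] ++ (u.take j).drop (i + 1) ++ [u[j]] := by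
  have h1 : u.take (i + 1) = u.take i ++ [u[i]'(hij.trans hj)] := by
    rw [List.take_append_getElem]
  have h2 : u.take (j + 1) = u.take j ++ [u[j]] := by
    rw [List.take_append_getElem]
  have h3 : u.take j = u.take (i + 1) ++ (u.take j).drop (i + 1) := by
    conv_lhs => rw [← List.take_append_drop (i + 1) (u.take j)]
    rw [List.take_take, Nat.min_eq_left (by omega)]
  rw [h2, ← h1, ← h3]

/-- one step: two of the cuts -/
theorem PumpC_step [Finite ι] {w : FreeGroup ι} {l : ℕ} (hl : w.toWord.length ≤ l)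
    {A : Set (FreeGroup ι)} (hA : Pos w A) {u : List (ι × Bool)} (hu : u ∈ Act A)
    {i j k : ℕ} (hij : i < j) (hjk : j < k) (hk : k < u.length)
    (h1 : u[j] = u[i]) (h2 : u[k] = u[i])
    (hs1 : SameState A l (u.take (i + 1)) (u.take (j + 1)))
    (hs2 : SameState A l (u.take (j + 1)) (u.take (k + 1))) :
    ∃ B, Pos w B ∧ (Act B).ncard < (Act A).ncard := by
  have hpre : ∀ m, u.take m ∈ Act A := fun m => act_prefix (List.take_prefix m u) hu
  have e1 : u.take (i + 1) = u.take i ++ [u[i]] := by
    rw [List.take_append_getElem]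
  have e2 : u.take (j + 1) = u.take j ++ [u[i]] := by
    rw [← h1, List.take_append_getElem]
  have e3 : u.take (k + 1) = u.take k ++ [u[i]] := by
    rw [← h2, List.take_append_getElem]
  have f2 : u.take (j + 1) = u.take i ++ [u[i]] ++ (u.take j).drop (i + 1) ++ [u[i]] := by
    have := PumpC_take u hij (hjk.trans hk)
    rw [h1] at this
    exact this
  have f3 : u.take (k + 1) = u.take j ++ [u[i]] ++ (u.take k).drop (j + 1) ++ [u[i]] := by
    have := PumpC_take u hjk hk
    rw [h1, h2] at this
    exact this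
  have r1 : IsReduced (u.take i ++ [u[i]]) := e1 ▸ act_reduced (hpre (i + 1))
  have r2 : IsReduced (u.take j ++ [u[i]]) := e2 ▸ act_reduced (hpre (j + 1))
  have r3 : IsReduced (u.take k ++ [u[i]]) := e3 ▸ act_reduced (hpre (k + 1))
  have c12 := cut_act hA.fc (f2 ▸ hpre (j + 1))
  have c23 := cut_act hA.fc (f3 ▸ hpre (k + 1))
  rw [← f2, e2] at c12
  rw [← f3, e3] at c23
  have l12 := cut_low hA.fc hA.low hl r1 r2 (by rw [← e1, ← e2]; exact hs1)
  have l23 := cut_low hA.fc hA.low hl r2 r3 (by rw [← e2, ← e3]; exact hs2)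
  obtain ⟨g, hg, hgw⟩ := hA.str
  by_cases hcase : g ∈ cyl (u.take j ++ [u[i]]) ∧ g * w ∈ cyl (u.take j ++ [u[i]])
  · refine ⟨_, ⟨l12.1, l12.2.1, mk (u.take i ++ [u[i]]) * ((mk (u.take j ++ [u[i]]))⁻¹ * g),
      ?_, ?_⟩, c12⟩
    · have hk1 : (mk (u.take j ++ [u[i]]))⁻¹ * g ∉ C (bar u[i]) := by
        rw [← mul_mem_cyl r2, mul_inv_cancel_left]
        exact hcase.1
      rintro (⟨_, h⟩ | ⟨h, _⟩)
      · apply hg
        rw [mul_assoc, inv_mul_cancel_left, mul_inv_cancel_left] at h
        exact h
      · exact h ((mul_mem_cyl r1 _).2 hk1)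
    · have hk1 : (mk (u.take j ++ [u[i]]))⁻¹ * (g * w) ∉ C (bar u[i]) := by
        rw [← mul_mem_cyl r2, mul_inv_cancel_left]
        exact hcase.2
      left
      constructor
      · rw [mul_assoc, mul_assoc]
        exact (mul_mem_cyl r1 _).2 hk1
      · rw [mul_assoc, mul_assoc, inv_mul_cancel_left, mul_assoc, mul_inv_cancel_left]
        exact hgw
  · have h := l23.2.2 g hcase
    exact ⟨_, ⟨l23.1, l23.2.1, g, fun h' => hg (h.1.1 h'), h.2.2 hgw⟩, c23⟩

theorem pump [Fintype ι] {w : FreeGroup ι} {l : ℕ} (hl : w.toWord.length ≤ l)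
    (h : ∃ A, Pos w A) : ∃ A, Pos w A ∧ ∀ g : FreeGroup ι,
      bd (Fintype.card (ι × Bool)) l ≤ g.toWord.length →
        (g ∈ A ↔ mk (g.toWord.take (bd (Fintype.card (ι × Bool)) l)) ∈ A) := by
  classical
  obtain ⟨A, hA, hmin⟩ : ∃ A, Pos w A ∧ ∀ B, Pos w B → (Act A).ncard ≤ (Act B).ncard := by
    have hex : ∃ n, ∃ A, Pos w A ∧ (Act A).ncard = n := by
      obtain ⟨A, hA⟩ := h
      exact ⟨_, A, hA, rfl⟩
    obtain ⟨A, hA, hn⟩ := Nat.find_spec hex
    exact ⟨A, hA, fun B hB => by rw [hn]; exact Nat.find_min' hex ⟨B, hB, rfl⟩⟩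
  refine ⟨A, hA, radius_of_act ?_⟩
  intro u hu
  by_contra hlen
  have hlen' : 2 * (Fintype.card (ι × Bool) * 2 ^ ((Fintype.card (ι × Bool) + 1) ^ l)) <
      u.length := by
    unfold bd at hlen
    omega
  let f : Fin u.length → (ι × Bool) × ((Fin l → Option (ι × Bool)) → Bool) := fun i =>
    (u[i], fun v => decide (mk (u.take (i + 1)) * mk (List.ofFn v).reduceOption ∈ A))
  have hcard : Fintype.card ((ι × Bool) × ((Fin l → Option (ι × Bool)) → Bool)) * 2 <
      Fintype.card (Fin u.length) := by
    rw [Fintype.card_prod, Fintype.card_fun, Fintype.card_bool, Fintype.card_fun,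
      Fintype.card_option, Fintype.card_fin, Fintype.card_fin]
    omega
  obtain ⟨s, hs⟩ := Fintype.exists_lt_card_fiber_of_mul_lt_card f hcard
  set T := Finset.univ.filter (fun x => f x = s) with hT
  have hem := fun m : Fin T.card => Finset.orderEmbOfFin_mem T rfl m
  have hlt : ∀ a b : Fin T.card, a < b → T.orderEmbOfFin rfl a < T.orderEmbOfFin rfl b :=
    fun a b hab => (T.orderEmbOfFin rfl).strictMono hab
  set i := T.orderEmbOfFin rfl ⟨0, by omega⟩ with hi
  set j := T.orderEmbOfFin rfl ⟨1, by omega⟩ with hj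
  set k := T.orderEmbOfFin rfl ⟨2, by omega⟩ with hk
  have hij : i < j := hlt _ _ (by simp [Fin.lt_def])
  have hjk : j < k := hlt _ _ (by simp [Fin.lt_def])
  have mi : f i = s := (Finset.mem_filter.1 (hem ⟨0, by omega⟩)).2
  have mj : f j = s := (Finset.mem_filter.1 (hem ⟨1, by omega⟩)).2
  have mk' : f k = s := (Finset.mem_filter.1 (hem ⟨2, by omega⟩)).2
  have hst : ∀ a b : Fin u.length, f a = f b →
      SameState A l (u.take (a + 1)) (u.take (b + 1)) := by
    intro a b hab g hg
    obtain ⟨v, hv⟩ := PumpC_word l g.toWord hg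
    have h1 := congrFun (congrArg Prod.snd hab) v
    simp only [f, decide_eq_decide] at h1
    rw [hv, mk_toWord] at h1
    exact h1
  obtain ⟨B, hB, hlt'⟩ := PumpC_step hl hA hu (i := i) (j := j) (k := k) hij hjk k.2
    (congrArg Prod.fst (mj.trans mi.symm)) (congrArg Prod.fst (mk'.trans mi.symm))
    (hst i j (mi.trans mj.symm)) (hst j k (mj.trans mk'.symm))
  exact absurd (hmin B hB) (by omega)

end PPos
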