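import Pool.Agent.H1.PP.AI

set_option autoImplicit false
set_option linter.unusedSectionVars false

/-!
# PP Radius: a set with finite coboundary is determined by prefixes of bounded length (helper1)

`finite_length_le`: the map `toWord` is injective into the finite set of lists of length `≤ R` over the finite alphabet (`List.finite_length_le`).
`FC.exists_radius`: for every letter `b` the set `{g | ¬ (g ∈ A ↔ g * lt b ∈ A)}` is finite; let `R` be larger than all word lengths of elements of these finitely many
finite sets. If `g.toWord = u ++ v` with `u.length = R`, then for every prefix `v' ++ [b]` of `v`: `mk (u ++ v') ∈ A ↔ mk (u ++ v' ++ [b]) ∈ A`, because the word of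
`mk (u ++ v')` is `u ++ v'` of length `≥ R`. Induction on `v` (e.g. `List.reverseRecOn`), prefixes of reduced words are reduced.
`FC_of_radius`: `FC_of_gen`: if `g.toWord.length > R` then `g` and `g * of i` have the same prefix of length `R` (right multiplication by a letter appends or removes
one letter), so `{g | ¬ ..}` is contained in the finite set `length ≤ R`.
-/

namespace PPos

open FreeGroup

variable {ι : Type} [DecidableEq ι]

private theorem Radius_mul_lt (g : FreeGroup ι) (b : ι × Bool) :
    (g * lt b).toWord = g.toWord ++ [b] ∨ g.toWord = (g * lt b).toWord ++ [bar b] := by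
  by_cases h : IsReduced (g.toWord ++ [b])
  · left
    have h' : IsReduced (g.toWord ++ (lt b).toWord) := by rwa [toWord_lt]
    rw [toWord_mul_of_isReduced h', toWord_lt]
  · right
    rcases List.eq_nil_or_concat g.toWord with h0 | ⟨l, c, hl'⟩
    · exact absurd (by rw [h0, List.nil_append]; exact IsReduced.singleton) h
    · have hl : g.toWord = l ++ [c] := by rw [hl', List.concat_eq_append]
      have hred : IsReduced (l ++ [c]) := by
        rw [← hl]
        exact isReduced_toWord
      have hc : c = bar b := by
        by_contra hne
        apply h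
        rw [hl, List.append_assoc]
        have h2 : IsReduced ([c] ++ [b]) := by
          rw [List.singleton_append, isReduced_cons_cons]
          refine ⟨?_, IsReduced.singleton⟩
          intro h1
          by_contra h3
          apply hne
          have h4 : c.2 = !b.2 := by
            cases hc2 : c.2 <;> cases hb2 : b.2 <;> simp_all
          exact Prod.ext h1 h4
        have h5 := IsReduced.append_overlap hred h2 (by simp)
        rwa [List.append_assoc] at h5
      have hlr : IsReduced l := red_of_sub hred ⟨[], [c], by simp⟩
      have hg : g = mk l * lt c := by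
        rw [← mk_toWord (x := g), hl]
        rw [lt, mul_mk]
      have hgb : g * lt b = mk l := by
        rw [hg, hc, lt_bar]
        simp
      rw [hgb, toWord_mk_of_isReduced hlr, hl, hc]

private theorem Radius_len (g : FreeGroup ι) (b : ι × Bool) :
    g.toWord.length ≤ (g * lt b).toWord.length + 1 := by
  rcases Radius_mul_lt g b with h | h
  · rw [h]
    simp
    omega
  · rw [h]
    simp

private theorem Radius_take (g : FreeGroup ι) (b : ι × Bool) (R : ℕ)
    (H : R + 1 ≤ g.toWord.length) : (g * lt b).toWord.take R = g.toWord.take R := by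
  rcases Radius_mul_lt g b with h | h
  · rw [h, List.take_append_of_le_length (by omega)]
  · have h2 : R ≤ (g * lt b).toWord.length := by
      have := Radius_len g b
      omega
    conv_rhs => rw [h]
    rw [List.take_append_of_le_length h2]

private theorem Radius_take_list (R : ℕ) (l : List (ι × Bool)) : ∀ g : FreeGroup ι,
    R + l.length ≤ g.toWord.length → (g * mk l).toWord.take R = g.toWord.take R ∧
      g.toWord.length ≤ (g * mk l).toWord.length + l.length := by
  induction l with
  | nil =>
    intro g _
    have : (mk ([] : List (ι × Bool))) = 1 := rfl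
    rw [this, mul_one]
    exact ⟨rfl, by simp⟩
  | cons a l ih =>
    intro g hg
    rw [List.length_cons] at hg
    have h1 := Radius_len g a
    have h2 := ih (g * lt a) (by omega)
    rw [mk_cons, ← mul_assoc]
    rw [h2.1, Radius_take g a R (by omega)]
    refine ⟨rfl, ?_⟩
    rw [List.length_cons]
    omega

theorem finite_length_le [Finite ι] (R : ℕ) : {g : FreeGroup ι | g.toWord.length ≤ R}.Finite := by
  exact (List.finite_length_le (ι × Bool) R).preimage FreeGroup.toWord_injective.injOn

/-- right multiplication does not change a prefix that is short enough -/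
theorem take_toWord_mul {g h : FreeGroup ι} {R : ℕ}
    (H : R + h.toWord.length ≤ g.toWord.length) :
    (g * h).toWord.take R = g.toWord.take R := by
  have h1 := (Radius_take_list R h.toWord g H).1
  rwa [mk_toWord] at h1

theorem FC.exists_radius [Finite ι] {A : Set (FreeGroup ι)} (h : FC A) :
    ∃ R, ∀ g : FreeGroup ι, R ≤ g.toWord.length → (g ∈ A ↔ mk (g.toWord.take R) ∈ A) := by
  classical
  have hb : ∀ b : ι × Bool, {g | ¬ (g ∈ A ↔ g * lt b ∈ A)}.Finite := fun b => h (lt b)
  have hU : (⋃ b : ι × Bool, {g | ¬ (g ∈ A ↔ g * lt b ∈ A)}).Finite := Set.finite_iUnion hb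
  obtain ⟨R, hR⟩ : ∃ R, ∀ b : ι × Bool, ∀ g : FreeGroup ι, ¬ (g ∈ A ↔ g * lt b ∈ A) →
      g.toWord.length < R := by
    obtain ⟨M, hM⟩ := (hU.image (fun g : FreeGroup ι => g.toWord.length)).bddAbove
    refine ⟨M + 1, fun b g hg => Nat.lt_succ_of_le (hM ?_)⟩
    exact ⟨g, Set.mem_iUnion.2 ⟨b, hg⟩, rfl⟩
  have key : ∀ u : List (ι × Bool), R ≤ u.length → ∀ l : List (ι × Bool), IsReduced (u ++ l) →
      (mk (u ++ l) ∈ A ↔ mk u ∈ A) := by
    intro u hu l
    induction l using List.reverseRecOn with
    | nil =>
      intro _
      rw [List.append_nil]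
    | append_singleton l b ih =>
      intro hred
      rw [← List.append_assoc] at hred ⊢
      have hr : IsReduced (u ++ l) := red_of_sub hred ⟨[], [b], by simp⟩
      rw [← ih hr]
      have h1 : mk (u ++ l ++ [b]) = mk (u ++ l) * lt b := by rw [lt, mul_mk]
      rw [h1]
      by_contra hne
      have h2 := hR b (mk (u ++ l)) (fun h3 => hne h3.symm)
      rw [toWord_mk_of_isReduced hr, List.length_append] at h2
      omega
  refine ⟨R, fun g hg => ?_⟩
  have h1 : IsReduced (g.toWord.take R ++ g.toWord.drop R) := by
    rw [List.take_append_drop]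
    exact isReduced_toWord
  have h2 := key (g.toWord.take R) (by rw [List.length_take]; omega) (g.toWord.drop R) h1
  rwa [List.take_append_drop, mk_toWord] at h2

theorem FC_of_radius [Finite ι] {A : Set (FreeGroup ι)} {R : ℕ}
    (h : ∀ g : FreeGroup ι, R ≤ g.toWord.length → (g ∈ A ↔ mk (g.toWord.take R) ∈ A)) : FC A := by
  refine FC_of_gen fun i => (finite_length_le R).subset ?_
  intro g hg
  by_contra hlen
  replace hlen : R < g.toWord.length := not_le.1 hlen
  apply hg
  have hof : FreeGroup.of i = lt (i, true) := rfl
  rw [hof]
  have h1 := Radius_take g (i, true) R (by omega)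
  have h2 := Radius_len g (i, true)
  rw [h g (by omega), h (g * lt (i, true)) (by omega), h1]

/-- a radius may be enlarged -/
theorem radius_mono {A : Set (FreeGroup ι)} {R R' : ℕ} (hR : R ≤ R')
    (h : ∀ g : FreeGroup ι, R ≤ g.toWord.length → (g ∈ A ↔ mk (g.toWord.take R) ∈ A)) :
    ∀ g : FreeGroup ι, R' ≤ g.toWord.length → (g ∈ A ↔ mk (g.toWord.take R') ∈ A) := by
  intro g hg
  rw [h g (hR.trans hg)]
  have hr : IsReduced (g.toWord.take R') :=
    red_of_sub (isReduced_toWord (x := g))
      ⟨[], g.toWord.drop R', by rw [List.nil_append, List.take_append_drop]⟩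
  have h1 := h (mk (g.toWord.take R')) (by
    rw [toWord_mk_of_isReduced hr, List.length_take]
    omega)
  rw [h1, toWord_mk_of_isReduced hr, List.take_take, min_eq_left hR]

end PPos
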