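import Pool.Agent.H1.PP.OneL

set_option autoImplicit false
set_option linter.unusedSectionVars false

/-!
# PP Restr: positive sets give one-sided letters (helper1)

`flip_oneSided`: compose `α` with the automorphism `φ` that inverts `x_i` and fixes the other generators: the reduced word of `φ g` is the word of `g` with `(i, b)` replaced by
`(i, !b)` (the replaced word is again reduced).
`restrict`: the automorphism `β` of the free group on `{j // j ≠ i}` is extended to `FreeGroup ι` by `x_i ↦ x_i` (`FreeGroup.lift`, the inverse is the extension of `β.symm`); the map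
`FreeGroup.map Subtype.val` is injective and sends the reduced word `l` to the reduced word `l.map ..`.
`pos_oneSided`: induction on `Fintype.card ι` (all `ι` at the same time). Let `Pos w A`. `Low w A` (`Pos.Low`), so `one_letter` gives `α, i, b` with `(i, b) ∉ (α w).toWord`. Put `w2 = α w`;
`Pos w2 (im α A)`. If `(i, !b) ∈ w2.toWord` then `OneSided w` (`flip_oneSided` if `b = true`). Otherwise no letter `(i, _)` occurs in `w2.toWord`, so `w2 = FreeGroup.map Subtype.val w3` for
some `w3 : FreeGroup {j // j ≠ i}`. With `g ∉ A2 := im α A`, `g w2 ∈ A2` put `A3 = {h | g * FreeGroup.map Subtype.val h ∈ A2}`. `Pos w3 A3`: `FC A3` (the map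
`h ↦ g * map val h` is injective, so the exceptional set is a preimage of a finite set), `A3 w3 ⊆ A3`, `1 ∉ A3`, `w3 ∈ A3`. By induction `OneSided w3`, so `OneSided w2` (`restrict`), so `OneSided w`.
-/

namespace PPos

open FreeGroup

variable {ι : Type} [DecidableEq ι]

theorem OneSided.of_map {w : FreeGroup ι} (α : FreeGroup ι ≃* FreeGroup ι) (h : OneSided (α w)) :
    OneSided w := by
  obtain ⟨β, i, h1, h2⟩ := h
  exact ⟨α.trans β, i, h1, h2⟩

/-- the letter map of the inversion of `x_i` -/
def Restr_f (i : ι) (x : ι × Bool) : ι × Bool := if x.1 = i then (x.1, !x.2) else x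

/-- the inversion of `x_i` as a homomorphism -/
def Restr_hom (i : ι) : FreeGroup ι →* FreeGroup ι :=
  FreeGroup.lift (fun j => if j = i then (of j)⁻¹ else of j)

theorem Restr_hom_of (i j : ι) : Restr_hom i (of j) = if j = i then (of j)⁻¹ else of j := by
  rw [Restr_hom, FreeGroup.lift_apply_of]

theorem Restr_hom_hom (i : ι) : (Restr_hom i).comp (Restr_hom i) = MonoidHom.id _ := by
  apply FreeGroup.ext_hom
  intro j
  rw [MonoidHom.comp_apply, MonoidHom.id_apply, Restr_hom_of]
  split_ifs with h
  · rw [_root_.map_inv, Restr_hom_of, if_pos h, inv_inv]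
  · rw [Restr_hom_of, if_neg h]

/-- the inversion of `x_i` -/
def Restr_phi (i : ι) : FreeGroup ι ≃* FreeGroup ι :=
  MonoidHom.toMulEquiv (Restr_hom i) (Restr_hom i) (Restr_hom_hom i) (Restr_hom_hom i)

theorem Restr_phi_lt (i : ι) (x : ι × Bool) : Restr_phi i (lt x) = lt (Restr_f i x) := by
  have e : Restr_phi i (lt x) = Restr_hom i (lt x) := rfl
  rw [e]
  obtain ⟨j, b⟩ := x
  have h1 : lt ((j, true) : ι × Bool) = of j := rfl
  have h2 : lt ((j, false) : ι × Bool) = (of j)⁻¹ := lt_bar (j, true)
  cases b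
  · rw [h2, _root_.map_inv, Restr_hom_of, Restr_f]
    by_cases h : j = i
    · rw [if_pos h, if_pos h, inv_inv]
      exact h1.symm
    · rw [if_neg h, if_neg h, h2]
  · rw [h1, Restr_hom_of, Restr_f]
    by_cases h : j = i
    · rw [if_pos h, if_pos h]
      exact h2.symm
    · rw [if_neg h, if_neg h, h1]

theorem Restr_phi_mk (i : ι) (L : List (ι × Bool)) :
    Restr_phi i (mk L) = mk (L.map (Restr_f i)) := by
  induction L with
  | nil => exact _root_.map_one (Restr_phi i)
  | cons a L ih =>
    rw [mk_cons, _root_.map_mul, ih, Restr_phi_lt, List.map_cons, mk_cons]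

theorem Restr_f_reduced (i : ι) {L : List (ι × Bool)} (h : IsReduced L) :
    IsReduced (L.map (Restr_f i)) := by
  unfold FreeGroup.IsReduced at *
  rw [List.isChain_map]
  refine h.imp ?_
  rintro ⟨x, b⟩ ⟨y, c⟩ hxy
  unfold Restr_f
  by_cases hx : x = i <;> by_cases hy : y = i
  · rw [if_pos hx, if_pos hy]
    intro h
    rw [hxy h]
  · rw [if_pos hx, if_neg hy]
    intro h
    exact absurd (h.symm.trans hx) hy
  · rw [if_neg hx, if_pos hy]
    intro h
    exact absurd (h.trans hy) hx
  · rw [if_neg hx, if_neg hy]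
    exact hxy

theorem Restr_phi_word (i : ι) (g : FreeGroup ι) :
    (Restr_phi i g).toWord = g.toWord.map (Restr_f i) := by
  conv_lhs => rw [← FreeGroup.mk_toWord (x := g)]
  rw [Restr_phi_mk, toWord_mk_of_isReduced (Restr_f_reduced i FreeGroup.isReduced_toWord)]

theorem flip_oneSided {w : FreeGroup ι} (α : FreeGroup ι ≃* FreeGroup ι) (i : ι)
    (h1 : (i, false) ∈ (α w).toWord) (h2 : (i, true) ∉ (α w).toWord) : OneSided w := by
  refine ⟨α.trans (Restr_phi i), i, ?_, ?_⟩
  · rw [MulEquiv.trans_apply, Restr_phi_word, List.mem_map]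
    exact ⟨(i, false), h1, by simp [Restr_f]⟩
  · rw [MulEquiv.trans_apply, Restr_phi_word, List.mem_map]
    rintro ⟨⟨j, b⟩, hx, hx'⟩
    unfold Restr_f at hx'
    by_cases h : j = i
    · rw [if_pos h] at hx'
      cases b
      · simp at hx'
      · rw [h] at hx
        exact h2 hx
    · rw [if_neg h] at hx'
      exact h (congrArg Prod.fst hx')

theorem Restr_lift (i : ι) (L : List (ι × Bool)) (h : ∀ x ∈ L, x.1 ≠ i) :
    ∃ w3 : FreeGroup {j // j ≠ i}, FreeGroup.map Subtype.val w3 = mk L := by
  induction L with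
  | nil => exact ⟨1, _root_.map_one _⟩
  | cons a L ih =>
    obtain ⟨w3, hw3⟩ := ih (fun x hx => h x (List.mem_cons_of_mem _ hx))
    have ha : a.1 ≠ i := h a List.mem_cons_self
    refine ⟨mk [((⟨a.1, ha⟩ : {j // j ≠ i}), a.2)] * w3, ?_⟩
    rw [_root_.map_mul, hw3, mk_cons]
    rfl

theorem exists_restrict {w : FreeGroup ι} (i : ι) (h : ∀ b, (i, b) ∉ w.toWord) :
    ∃ w3 : FreeGroup {j // j ≠ i}, FreeGroup.map Subtype.val w3 = w := by
  obtain ⟨w3, hw3⟩ := Restr_lift i w.toWord (by
    intro x hx hxi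
    obtain ⟨j, b⟩ := x
    change j = i at hxi
    rw [hxi] at hx
    exact h b hx)
  exact ⟨w3, by rw [hw3, FreeGroup.mk_toWord]⟩

/-- the extension of an automorphism as a homomorphism -/
def Restr_ext0 {i : ι} (β : FreeGroup {j // j ≠ i} ≃* FreeGroup {j // j ≠ i}) :
    FreeGroup ι →* FreeGroup ι :=
  FreeGroup.lift (fun k => if h : k = i then of i else
    FreeGroup.map Subtype.val (β (of (⟨k, h⟩ : {j // j ≠ i}))))

theorem Restr_ext0_i {i : ι} (β : FreeGroup {j // j ≠ i} ≃* FreeGroup {j // j ≠ i}) :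
    Restr_ext0 β (of i) = of i := by
  rw [Restr_ext0, FreeGroup.lift_apply_of, dif_pos rfl]

theorem Restr_ext0_map {i : ι} (β : FreeGroup {j // j ≠ i} ≃* FreeGroup {j // j ≠ i})
    (x : FreeGroup {j // j ≠ i}) :
    Restr_ext0 β (FreeGroup.map Subtype.val x) = FreeGroup.map Subtype.val (β x) := by
  have : (Restr_ext0 β).comp (FreeGroup.map (Subtype.val : {j // j ≠ i} → ι)) =
      (FreeGroup.map (Subtype.val : {j // j ≠ i} → ι)).comp β.toMonoidHom := by
    apply FreeGroup.ext_hom
    intro k
    rw [MonoidHom.comp_apply, MonoidHom.comp_apply, FreeGroup.map.of, Restr_ext0,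
      FreeGroup.lift_apply_of, dif_neg k.2]
    rfl
  exact DFunLike.congr_fun this x

theorem Restr_ext0_comp {i : ι} (β β' : FreeGroup {j // j ≠ i} ≃* FreeGroup {j // j ≠ i})
    (h : ∀ x, β' (β x) = x) : (Restr_ext0 β').comp (Restr_ext0 β) = MonoidHom.id _ := by
  apply FreeGroup.ext_hom
  intro k
  rw [MonoidHom.comp_apply, MonoidHom.id_apply]
  by_cases hk : k = i
  · rw [hk, Restr_ext0_i, Restr_ext0_i]
  · have e : of k = FreeGroup.map (Subtype.val : {j // j ≠ i} → ι) (of ⟨k, hk⟩) := by
      rw [FreeGroup.map.of]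
    rw [e, Restr_ext0_map, Restr_ext0_map, h]

/-- the extension of an automorphism -/
def Restr_ext {i : ι} (β : FreeGroup {j // j ≠ i} ≃* FreeGroup {j // j ≠ i}) :
    FreeGroup ι ≃* FreeGroup ι :=
  MonoidHom.toMulEquiv (Restr_ext0 β) (Restr_ext0 β.symm)
    (Restr_ext0_comp β β.symm (fun x => β.symm_apply_apply x))
    (Restr_ext0_comp β.symm β (fun x => β.apply_symm_apply x))

theorem Restr_ext_map {i : ι} (β : FreeGroup {j // j ≠ i} ≃* FreeGroup {j // j ≠ i})
    (x : FreeGroup {j // j ≠ i}) :
    Restr_ext β (FreeGroup.map Subtype.val x) = FreeGroup.map Subtype.val (β x) :=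
  Restr_ext0_map β x

theorem Restr_map_word {i : ι} (x : FreeGroup {j // j ≠ i}) :
    (FreeGroup.map (Subtype.val : {j // j ≠ i} → ι) x).toWord =
      x.toWord.map (fun y => (y.1.1, y.2)) := by
  conv_lhs => rw [← FreeGroup.mk_toWord (x := x)]
  rw [FreeGroup.map.mk]
  apply toWord_mk_of_isReduced
  have h := FreeGroup.isReduced_toWord (x := x)
  unfold FreeGroup.IsReduced at *
  rw [List.isChain_map]
  refine h.imp ?_
  rintro ⟨y, b⟩ ⟨z, c⟩ hyz hyz'
  exact hyz (Subtype.ext hyz')

theorem restrict {i : ι} {w3 : FreeGroup {j // j ≠ i}} (h : OneSided w3) :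
    OneSided (FreeGroup.map Subtype.val w3) := by
  obtain ⟨β, j, h1, h2⟩ := h
  refine ⟨Restr_ext β, j.1, ?_, ?_⟩
  · rw [Restr_ext_map, Restr_map_word, List.mem_map]
    exact ⟨(j, true), h1, rfl⟩
  · rw [Restr_ext_map, Restr_map_word, List.mem_map]
    rintro ⟨⟨k, b⟩, hx, hx'⟩
    apply h2
    have e1 : k.1 = j.1 := congrArg Prod.fst hx'
    have e2 : b = false := congrArg Prod.snd hx'
    rw [Subtype.ext e1, e2] at hx
    exact hx

theorem Pos.restrict {i : ι} {w3 : FreeGroup {j // j ≠ i}} {A : Set (FreeGroup ι)}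
    (h : Pos (FreeGroup.map Subtype.val w3) A) : ∃ A3, Pos w3 A3 := by
  obtain ⟨g, hg, hg'⟩ := h.str
  refine ⟨{x | g * FreeGroup.map Subtype.val x ∈ A}, ?_, ?_, ?_⟩
  · intro x
    have hf := h.fc (FreeGroup.map Subtype.val x)
    have hinj : Function.Injective
        (fun y : FreeGroup {j // j ≠ i} => g * FreeGroup.map Subtype.val y) := by
      intro y z hyz
      exact FreeGroup.map_injective Subtype.val_injective (mul_left_cancel hyz)
    have := hf.preimage hinj.injOn
    refine this.subset ?_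
    intro y hy
    simp only [Set.mem_ofPred_eq, Set.mem_preimage] at hy ⊢
    rw [_root_.map_mul, ← mul_assoc] at hy
    exact hy
  · intro x hx
    simp only [Set.mem_ofPred_eq] at hx ⊢
    rw [_root_.map_mul, ← mul_assoc]
    exact h.low _ hx
  · refine ⟨1, ?_, ?_⟩
    · simp only [Set.mem_ofPred_eq]
      rw [_root_.map_one, mul_one]
      exact hg
    · simp only [Set.mem_ofPred_eq]
      rw [one_mul]
      exact hg'

theorem Restr_main (n : ℕ) : ∀ (ι : Type) [DecidableEq ι] [Fintype ι], Fintype.card ι = n →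
    ∀ w : FreeGroup ι, (∃ A, Pos w A) → OneSided w := by
  induction n using Nat.strong_induction_on with
  | _ n ih =>
    intro ι _ _ hn w h
    obtain ⟨A, hA⟩ := h
    obtain ⟨α, i, b, hb⟩ := one_letter ⟨A, hA.Low⟩
    by_cases hb' : (i, !b) ∈ (α w).toWord
    · cases b
      · exact ⟨α, i, hb', hb⟩
      · exact flip_oneSided α i hb' hb
    · have hno : ∀ c, (i, c) ∉ (α w).toWord := by
        intro c
        cases b <;> cases c
        · exact hb
        · exact hb'
        · exact hb'
        · exact hb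
      obtain ⟨w3, hw3⟩ := exists_restrict i hno
      have hP : Pos (FreeGroup.map Subtype.val w3) (im α A) := by
        rw [hw3]
        exact hA.im α
      have hcard : Fintype.card {j // j ≠ i} < n := by
        rw [← hn]
        exact Fintype.card_subtype_lt (x := i) (by simp)
      have h1 : OneSided w3 := ih _ hcard {j // j ≠ i} rfl w3 hP.restrict
      have h2 := restrict h1
      rw [hw3] at h2
      exact h2.of_map α

theorem pos_oneSided [Fintype ι] {w : FreeGroup ι} (h : ∃ A, Pos w A) : OneSided w := by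
  exact Restr_main (Fintype.card ι) ι rfl w h

end PPos
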