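import Pool.Agent.H1.PP.CrFin

set_option autoImplicit false
set_option linter.unusedSectionVars false

/-!
# PP Sub: crossing numbers are submodular (helper1)

`Cr_submod_and`, `Cr_submod_or` (Boolean algebra modulo finite sets; let `A ∩ B` and `(A ∪ B)ᶜ` be infinite). If `A ∩ B` crosses `E` then `A ∩ E`, `A ∩ Eᶜ`, `B ∩ E`,
`B ∩ Eᶜ` are infinite. If `A ∪ B` crosses `E` then `Aᶜ ∩ E`, `Aᶜ ∩ Eᶜ`, `Bᶜ ∩ E`, `Bᶜ ∩ Eᶜ` are infinite. So if both cross, both `A` and `B` cross `E`.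
If `A ∩ B` crosses `E`: `(A ∩ B)ᶜ ∩ E` is infinite, so `Aᶜ ∩ E` or `Bᶜ ∩ E` is infinite, and the same for `Eᶜ`. If both are infinite for `A` (or both for `B`) we are
done. Otherwise (say) `Aᶜ ∩ E` infinite, `Aᶜ ∩ Eᶜ` finite, `Bᶜ ∩ Eᶜ` infinite, `Bᶜ ∩ E` finite (or the same with `E`, `Eᶜ` exchanged): then
`(A ∪ B)ᶜ = (Aᶜ ∩ Bᶜ ∩ E) ∪ (Aᶜ ∩ Bᶜ ∩ Eᶜ)` is finite, a contradiction. The case of `A ∪ B` is the same for complements.
`jj_submod`: the sets `{h | Cr (tr h (A ∩ B)) E}` etc. are finite (`Cr_finite`), `tr h (A ∩ B) = tr h A ∩ tr h B`; compare the indicator functions, e.g.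
`ncard s + ncard t = ncard (s ∪ t) + ncard (s ∩ t)` (`Set.ncard_union_add_ncard_inter`) and `s ∪ t ⊆ s' ∪ t'`, `s ∩ t ⊆ s' ∩ t'`.
`jj_submod_lt`: the same, with an element of `(s' ∪ t') \ (s ∪ t)`.
`jj_tr_left`: bijection `h ↦ h g`; `jj_tr_right`: `h ↦ g⁻¹ h` (`Cr_tr`); `jj_im`: `h ↦ τ h` (`im_tr`, `Cr_im`). `Set.ncard_image_of_injective` or
`Set.ncard_congr`. `jj_bar`: `(C a)ᶜ = tr (lt a) (C (bar a))`.
-/

namespace PPos

open FreeGroup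

variable {ι : Type} [DecidableEq ι]

theorem Cr_submod_and {A B E : Set (FreeGroup ι)} (h3 : Cr (A ∩ B) E) (h4 : Cr (A ∪ B) E) :
    Cr A E ∧ Cr B E := by
  obtain ⟨a1, a2, _, _⟩ := h3
  obtain ⟨_, _, b3, b4⟩ := h4
  refine ⟨⟨a1.mono ?_, a2.mono ?_, b3.mono ?_, b4.mono ?_⟩,
    ⟨a1.mono ?_, a2.mono ?_, b3.mono ?_, b4.mono ?_⟩⟩
  · exact fun g hg => ⟨hg.1.1, hg.2⟩
  · exact fun g hg => ⟨hg.1.1, hg.2⟩
  · exact fun g hg => ⟨fun h => hg.1 (Or.inl h), hg.2⟩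
  · exact fun g hg => ⟨fun h => hg.1 (Or.inl h), hg.2⟩
  · exact fun g hg => ⟨hg.1.2, hg.2⟩
  · exact fun g hg => ⟨hg.1.2, hg.2⟩
  · exact fun g hg => ⟨fun h => hg.1 (Or.inr h), hg.2⟩
  · exact fun g hg => ⟨fun h => hg.1 (Or.inr h), hg.2⟩

theorem Sub_union {S T U : Set (FreeGroup ι)} (h : S.Infinite) (hs : S ⊆ T ∪ U) :
    T.Infinite ∨ U.Infinite := Set.infinite_union.1 (h.mono hs)

theorem Sub_or1 {A B E : Set (FreeGroup ι)} (h2 : (A ∪ B)ᶜ.Infinite) (h : Cr (A ∩ B) E) :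
    Cr A E ∨ Cr B E := by
  obtain ⟨a1, a2, a3, a4⟩ := h
  have e1 : (A ∩ E).Infinite := a1.mono fun g hg => ⟨hg.1.1, hg.2⟩
  have e2 : (A ∩ Eᶜ).Infinite := a2.mono fun g hg => ⟨hg.1.1, hg.2⟩
  have e3 : (B ∩ E).Infinite := a1.mono fun g hg => ⟨hg.1.2, hg.2⟩
  have e4 : (B ∩ Eᶜ).Infinite := a2.mono fun g hg => ⟨hg.1.2, hg.2⟩
  have f1 : (Aᶜ ∩ E).Infinite ∨ (Bᶜ ∩ E).Infinite := by
    refine Sub_union a3 fun g hg => ?_
    by_cases hA : g ∈ A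
    · exact Or.inr ⟨fun hB => hg.1 ⟨hA, hB⟩, hg.2⟩
    · exact Or.inl ⟨hA, hg.2⟩
  have f2 : (Aᶜ ∩ Eᶜ).Infinite ∨ (Bᶜ ∩ Eᶜ).Infinite := by
    refine Sub_union a4 fun g hg => ?_
    by_cases hA : g ∈ A
    · exact Or.inr ⟨fun hB => hg.1 ⟨hA, hB⟩, hg.2⟩
    · exact Or.inl ⟨hA, hg.2⟩
  have f3 : ((A ∪ B)ᶜ ∩ E).Infinite ∨ ((A ∪ B)ᶜ ∩ Eᶜ).Infinite := by
    refine Sub_union h2 fun g hg => ?_
    by_cases hE : g ∈ E
    · exact Or.inl ⟨hg, hE⟩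
    · exact Or.inr ⟨hg, hE⟩
  have f4 : ((Aᶜ ∩ E).Infinite ∧ (Bᶜ ∩ E).Infinite) ∨
      ((Aᶜ ∩ Eᶜ).Infinite ∧ (Bᶜ ∩ Eᶜ).Infinite) := by
    rcases f3 with f | f
    · exact Or.inl ⟨f.mono fun g hg => ⟨fun h => hg.1 (Or.inl h), hg.2⟩,
        f.mono fun g hg => ⟨fun h => hg.1 (Or.inr h), hg.2⟩⟩
    · exact Or.inr ⟨f.mono fun g hg => ⟨fun h => hg.1 (Or.inl h), hg.2⟩,
        f.mono fun g hg => ⟨fun h => hg.1 (Or.inr h), hg.2⟩⟩
  unfold Cr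
  tauto

theorem Cr_submod_or {A B E : Set (FreeGroup ι)} (h1 : (A ∩ B).Infinite)
    (h2 : (A ∪ B)ᶜ.Infinite) (h : Cr (A ∩ B) E ∨ Cr (A ∪ B) E) : Cr A E ∨ Cr B E := by
  rcases h with h | h
  · exact Sub_or1 h2 h
  · have e1 : (Aᶜ ∪ Bᶜ)ᶜ = A ∩ B := by
      rw [Set.compl_union, compl_compl, compl_compl]
    have e2 : Cr (Aᶜ ∩ Bᶜ) E := by
      rw [← Set.compl_union]
      exact Cr_compl_left.2 h
    have e3 := Sub_or1 (A := Aᶜ) (B := Bᶜ) (E := E) (by rw [e1]; exact h1) e2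
    rwa [Cr_compl_left, Cr_compl_left] at e3

theorem Sub_inf {A B : Set (FreeGroup ι)} (h1 : (A ∩ B).Infinite) (h2 : (A ∪ B)ᶜ.Infinite)
    (h : FreeGroup ι) : (tr h A ∩ tr h B).Infinite ∧ (tr h A ∪ tr h B)ᶜ.Infinite := by
  have n0 : (A ∪ B)ᶜ ⊆ (A ∩ B)ᶜ := fun g hg hg' => hg (Or.inl hg'.1)
  have n1 : NT (A ∩ B) := ⟨h1, h2.mono n0⟩
  have n2 : NT (A ∪ B) := ⟨h1.mono fun g hg => Or.inl hg.1, h2⟩
  have m1 := (NT_tr n1 h).1
  have m2 := (NT_tr n2 h).2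
  rw [tr_inter] at m1
  rw [tr_union] at m2
  exact ⟨m1, m2⟩

theorem jj_submod [Finite ι] {A B E : Set (FreeGroup ι)} (hA : FC A) (hB : FC B) (hE : FC E)
    (h1 : (A ∩ B).Infinite) (h2 : (A ∪ B)ᶜ.Infinite) :
    jj (A ∩ B) E + jj (A ∪ B) E ≤ jj A E + jj B E := by
  have fA := Cr_finite hA hE
  have fB := Cr_finite hB hE
  have hu : {h : FreeGroup ι | Cr (tr h (A ∩ B)) E} ∪ {h : FreeGroup ι | Cr (tr h (A ∪ B)) E} ⊆
      {h : FreeGroup ι | Cr (tr h A) E} ∪ {h : FreeGroup ι | Cr (tr h B) E} := by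
    intro h hh
    obtain ⟨i1, i2⟩ := Sub_inf h1 h2 h
    exact Cr_submod_or i1 i2 hh
  have hi : {h : FreeGroup ι | Cr (tr h (A ∩ B)) E} ∩ {h : FreeGroup ι | Cr (tr h (A ∪ B)) E} ⊆
      {h : FreeGroup ι | Cr (tr h A) E} ∩ {h : FreeGroup ι | Cr (tr h B) E} := by
    intro h hh
    exact Cr_submod_and (A := tr h A) (B := tr h B) hh.1 hh.2
  have fu := (fA.union fB).subset hu
  have e1 := Set.ncard_union_add_ncard_inter _ _ (fu.subset Set.subset_union_left)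
    (fu.subset Set.subset_union_right)
  have e2 := Set.ncard_union_add_ncard_inter _ _ fA fB
  have e3 := Set.ncard_le_ncard hu (fA.union fB)
  have e4 := Set.ncard_le_ncard hi (fA.inter_of_left _)
  unfold jj
  omega

theorem jj_submod_lt [Finite ι] {A B E : Set (FreeGroup ι)} (hA : FC A) (hB : FC B) (hE : FC E)
    (h1 : (A ∩ B).Infinite) (h2 : (A ∪ B)ᶜ.Infinite) (h : FreeGroup ι)
    (hc : Cr (tr h A) E ∨ Cr (tr h B) E) (hc1 : ¬ Cr (tr h (A ∩ B)) E)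
    (hc2 : ¬ Cr (tr h (A ∪ B)) E) :
    jj (A ∩ B) E + jj (A ∪ B) E < jj A E + jj B E := by
  have fA := Cr_finite hA hE
  have fB := Cr_finite hB hE
  have hu : {h : FreeGroup ι | Cr (tr h (A ∩ B)) E} ∪ {h : FreeGroup ι | Cr (tr h (A ∪ B)) E} ⊆
      {h : FreeGroup ι | Cr (tr h A) E} ∪ {h : FreeGroup ι | Cr (tr h B) E} := by
    intro h hh
    obtain ⟨i1, i2⟩ := Sub_inf h1 h2 h
    exact Cr_submod_or i1 i2 hh
  have hi : {h : FreeGroup ι | Cr (tr h (A ∩ B)) E} ∩ {h : FreeGroup ι | Cr (tr h (A ∪ B)) E} ⊆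
      {h : FreeGroup ι | Cr (tr h A) E} ∩ {h : FreeGroup ι | Cr (tr h B) E} := by
    intro h hh
    exact Cr_submod_and (A := tr h A) (B := tr h B) hh.1 hh.2
  have fu := (fA.union fB).subset hu
  have e1 := Set.ncard_union_add_ncard_inter _ _ (fu.subset Set.subset_union_left)
    (fu.subset Set.subset_union_right)
  have e2 := Set.ncard_union_add_ncard_inter _ _ fA fB
  have e3 := Set.ncard_lt_ncard (Set.ssubset_iff_of_subset hu |>.2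
    ⟨h, hc, fun hh => hh.elim hc1 hc2⟩) (fA.union fB)
  have e4 := Set.ncard_le_ncard hi (fA.inter_of_left _)
  unfold jj
  omega

theorem Sub_ncard (P : FreeGroup ι → Prop) (e : FreeGroup ι ≃ FreeGroup ι) :
    {h | P (e h)}.ncard = {h | P h}.ncard := by
  have h1 : {h | P h} = e '' {h | P (e h)} := by
    ext h
    constructor
    · intro hh
      refine ⟨e.symm h, ?_, e.apply_symm_apply h⟩
      show P (e (e.symm h))
      rw [e.apply_symm_apply]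
      exact hh
    · rintro ⟨k, hk, rfl⟩
      exact hk
  rw [h1, Set.ncard_image_of_injective _ e.injective]

theorem jj_tr_left (A E : Set (FreeGroup ι)) (g : FreeGroup ι) : jj (tr g A) E = jj A E := by
  have h := Sub_ncard (fun h => Cr (tr h A) E) (Equiv.mulRight g)
  unfold jj
  rw [← h]
  congr 1
  ext k
  show Cr (tr k (tr g A)) E ↔ Cr (tr (k * g) A) E
  rw [tr_tr]

theorem jj_tr_right (A E : Set (FreeGroup ι)) (g : FreeGroup ι) : jj A (tr g E) = jj A E := by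
  have h := Sub_ncard (fun h => Cr (tr h A) E) (Equiv.mulLeft g⁻¹)
  unfold jj
  rw [← h]
  congr 1
  ext k
  show Cr (tr k A) (tr g E) ↔ Cr (tr (g⁻¹ * k) A) E
  have e1 := Cr_tr (A := tr (g⁻¹ * k) A) (E := E) g
  rw [tr_tr, mul_inv_cancel_left] at e1
  exact e1

theorem jj_compl_left (A E : Set (FreeGroup ι)) : jj Aᶜ E = jj A E := by
  unfold jj
  congr 1
  ext k
  show Cr (tr k Aᶜ) E ↔ Cr (tr k A) E
  rw [tr_compl, Cr_compl_left]

theorem jj_compl_right (A E : Set (FreeGroup ι)) : jj A Eᶜ = jj A E := by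
  unfold jj
  congr 1
  ext k
  show Cr (tr k A) Eᶜ ↔ Cr (tr k A) E
  rw [Cr_compl_right]

theorem jj_congr {A B E E' : Set (FreeGroup ι)} (h : Aeq A B) (h' : Aeq E E') :
    jj A E = jj B E' := by
  unfold jj
  congr 1
  ext k
  exact ⟨fun hk => (h.tr k).Cr h' hk, fun hk => (h.symm.tr k).Cr h'.symm hk⟩

theorem jj_im (A E : Set (FreeGroup ι)) (τ : FreeGroup ι ≃* FreeGroup ι) :
    jj (im τ A) (im τ E) = jj A E := by
  have h := Sub_ncard (fun h => Cr (tr h (im τ A)) (im τ E)) τ.toEquiv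
  unfold jj
  rw [← h]
  congr 1
  ext k
  show Cr (tr (τ k) (im τ A)) (im τ E) ↔ Cr (tr k A) E
  rw [← im_tr, Cr_im]

theorem jj_bar (A : Set (FreeGroup ι)) (a : ι × Bool) : jj A (C (bar a)) = jj A (C a) := by
  rw [← jj_tr_right A (C (bar a)) (lt a), ← compl_C, jj_compl_right]

theorem ii_submod [Fintype ι] {A B : Set (FreeGroup ι)} (hA : FC A) (hB : FC B)
    (h1 : (A ∩ B).Infinite) (h2 : (A ∪ B)ᶜ.Infinite) : ii (A ∩ B) + ii (A ∪ B) ≤ ii A + ii B := by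
  unfold ii
  rw [← Finset.sum_add_distrib, ← Finset.sum_add_distrib]
  exact Finset.sum_le_sum fun a _ => jj_submod hA hB (FC_C a) h1 h2

theorem ii_tr [Fintype ι] (A : Set (FreeGroup ι)) (g : FreeGroup ι) : ii (tr g A) = ii A := by
  unfold ii
  exact Finset.sum_congr rfl fun a _ => jj_tr_left A (C a) g

theorem ii_congr [Fintype ι] {A B : Set (FreeGroup ι)} (h : Aeq A B) : ii A = ii B := by
  unfold ii
  exact Finset.sum_congr rfl fun a _ => jj_congr h (Aeq.refl (C a))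

end PPos
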