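import Pool.Agent.H1.PP.Hull

set_option autoImplicit false
set_option linter.unusedSectionVars false

/-!
# PP Unc: a minimal set that is nested with all its translates (helper1)

Let `M = {A | Low w A, ii A = m}`, `m > 0` the minimum of `ii` on `{A | Low w A}`. For `A` put `I(A) = ∑_S jj A (AS (m+1) S)`, the sum over all
`S : Finset (Fin (m+1) → ι × Bool)`. Choose `A ∈ M` with `I(A)` minimal (well-founded, `M` is nonempty). CLAIM: `A` crosses no translate.
Suppose `B = tr g A` crosses `A`. Put `C1 = B ∩ A`, `C2 = B ∪ A`. (1) `C1, C2` are `Low w`: `FC.inter`, `FC.union`, `FC.tr`; `C1` is infinite, `C1ᶜ ⊇ Aᶜ`; `C2 ⊇ A`, `C2ᶜ = Bᶜ ∩ Aᶜ` is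
infinite; closed under right multiplication by `w`. (2) `ii C1 + ii C2 ≤ ii B + ii A = 2 m` (`ii_submod`, `ii_tr`), both `≥ m`, so `C1, C2 ∈ M`. (3) `I(C1) + I(C2) < I(B) + I(A) = 2 I(A)`:
`jj_submod` for every `S` (`FC_AS`), `jj_tr_left`, and strict inequality for one `S`: as `ii A = m > 0` there are `h`, `a` with `Cr (tr h A) (C a)`; by `hull_radius` for `tr h A`
(`ii (tr h A) = m`) there is `S` with `Aeq (tr h A) (AS (m+1) S)`. Use `jj_submod_lt` with this `S` and this `h`: `tr h B` crosses `AS (m+1) S ≈ tr h A` because `B` crosses `A` (`Cr_tr`),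
and `tr h C1 ⊆ tr h A`, `tr h C2 ⊇ tr h A` do not cross `tr h A` (a corner is empty), so they do not cross `AS (m+1) S` (`Aeq.Cr`). (4) So `I(C1) < I(A)` or `I(C2) < I(A)`, a
contradiction.
(Beware of the dependent type `Fin (ii A + 1)`: rewrite `ii (tr h A) = m` before, e.g. `obtain ⟨S, hS⟩ : ∃ S : Finset (Fin (m + 1) → _), Aeq (tr h A) (AS (m + 1) S) := by
have := hull_radius ..; rwa [..] at this`.)
-/

namespace PPos

open FreeGroup

variable {ι : Type} [DecidableEq ι]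

/-- the crossing number with all sets `AS (m + 1) S` -/
noncomputable def Unc_I [Fintype ι] (m : ℕ) (A : Set (FreeGroup ι)) : ℕ :=
  ∑ S : Finset (Fin (m + 1) → ι × Bool), jj A (AS (m + 1) S)

theorem Unc_inter {w : FreeGroup ι} {A B : Set (FreeGroup ι)} (hA : Low w A) (hB : Low w B)
    (h : (B ∩ A).Infinite) : Low w (B ∩ A) where
  fc := hB.fc.inter hA.fc
  nt := ⟨h, hA.nt.2.mono (Set.compl_subset_compl.2 Set.inter_subset_right)⟩
  low := fun g hg => ⟨hB.low g hg.1, hA.low g hg.2⟩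

theorem Unc_union {w : FreeGroup ι} {A B : Set (FreeGroup ι)} (hA : Low w A) (hB : Low w B)
    (h : (B ∪ A)ᶜ.Infinite) : Low w (B ∪ A) where
  fc := hB.fc.union hA.fc
  nt := ⟨hA.nt.1.mono Set.subset_union_right, h⟩
  low := fun g hg => hg.elim (fun h => Or.inl (hB.low g h)) (fun h => Or.inr (hA.low g h))

theorem exists_nested [Fintype ι] {w : FreeGroup ι} {m : ℕ} (hm : 0 < m)
    (hmin : ∀ A, Low w A → m ≤ ii A) (hex : ∃ A, Low w A ∧ ii A = m) :
    ∃ A, Low w A ∧ ii A = m ∧ ∀ g, ¬ Cr (tr g A) A := by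
  classical
  have hmn : ∃ n, ∃ A : Set (FreeGroup ι), Low w A ∧ ii A = m ∧ Unc_I m A = n := by
    obtain ⟨A, hA, hA2⟩ := hex
    exact ⟨_, A, hA, hA2, rfl⟩
  obtain ⟨A, hA, hAm, hAn⟩ := Nat.find_spec hmn
  have hAmin : ∀ B : Set (FreeGroup ι), Low w B → ii B = m → Unc_I m A ≤ Unc_I m B := by
    intro B hB hBm
    rw [hAn]
    exact Nat.find_min' hmn ⟨B, hB, hBm, rfl⟩
  refine ⟨A, hA, hAm, ?_⟩
  intro g hcr
  set B := tr g A with hBdef
  have hB : Low w B := hA.tr g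
  have hBm : ii B = m := by rw [hBdef, ii_tr, hAm]
  have hi : (B ∩ A).Infinite := hcr.1
  have hu : (B ∪ A)ᶜ.Infinite := by
    rw [Set.compl_union]
    exact hcr.2.2.2
  have hC1 : Low w (B ∩ A) := Unc_inter hA hB hi
  have hC2 : Low w (B ∪ A) := Unc_union hA hB hu
  have hsub := ii_submod hB.fc hA.fc hi hu
  have hl1 := hmin _ hC1
  have hl2 := hmin _ hC2
  have h1m : ii (B ∩ A) = m := by omega
  have h2m : ii (B ∪ A) = m := by omega
  -- a translate of `A` crosses a half space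
  have hpos : ∃ a : ι × Bool, jj A (C a) ≠ 0 := by
    by_contra hcon
    push Not at hcon
    have : ii A = 0 := by
      unfold ii
      exact Finset.sum_eq_zero (fun a _ => hcon a)
    omega
  obtain ⟨a, ha⟩ := hpos
  have hne : {h : FreeGroup ι | Cr (tr h A) (C a)}.Nonempty := by
    rw [Set.nonempty_iff_ne_empty]
    intro h0
    apply ha
    unfold jj
    rw [h0, Set.ncard_empty]
  obtain ⟨h, hh⟩ := hne
  have hh' : Cr (tr h A) (C a) := hh
  obtain ⟨S, hS⟩ : ∃ S : Finset (Fin (m + 1) → ι × Bool), Aeq (tr h A) (AS (m + 1) S) := by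
    have := hull_radius (hA.fc.tr h) ⟨a, hh'⟩
    rw [ii_tr, hAm] at this
    exact this
  have hlt : jj (B ∩ A) (AS (m + 1) S) + jj (B ∪ A) (AS (m + 1) S) <
      jj B (AS (m + 1) S) + jj A (AS (m + 1) S) := by
    apply jj_submod_lt hB.fc hA.fc (FC_AS _ S) hi hu h
    · left
      exact Aeq.Cr (Aeq.refl _) hS ((Cr_tr h).2 hcr)
    · intro hc
      have hc' : Cr (B ∩ A) A := (Cr_tr h).1 (Aeq.Cr (Aeq.refl _) hS.symm hc)
      obtain ⟨x, hx1, hx2⟩ := hc'.2.1.nonempty
      exact hx2 hx1.2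
    · intro hc
      have hc' : Cr (B ∪ A) A := (Cr_tr h).1 (Aeq.Cr (Aeq.refl _) hS.symm hc)
      obtain ⟨x, hx1, hx2⟩ := hc'.2.2.1.nonempty
      exact hx1 (Or.inr hx2)
  have hsum : ∑ T : Finset (Fin (m + 1) → ι × Bool),
      (jj (B ∩ A) (AS (m + 1) T) + jj (B ∪ A) (AS (m + 1) T)) <
      ∑ T : Finset (Fin (m + 1) → ι × Bool), (jj B (AS (m + 1) T) + jj A (AS (m + 1) T)) := by
    apply Finset.sum_lt_sum
    · intro T _
      exact jj_submod hB.fc hA.fc (FC_AS _ T) hi hu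
    · exact ⟨S, Finset.mem_univ _, hlt⟩
  rw [Finset.sum_add_distrib, Finset.sum_add_distrib] at hsum
  have hBA : ∑ T : Finset (Fin (m + 1) → ι × Bool), jj B (AS (m + 1) T) = Unc_I m A := by
    unfold Unc_I
    exact Finset.sum_congr rfl (fun T _ => by rw [hBdef, jj_tr_left])
  rw [hBA] at hsum
  have k1 := hAmin _ hC1 h1m
  have k2 := hAmin _ hC2 h2m
  change Unc_I m (B ∩ A) + Unc_I m (B ∪ A) < Unc_I m A + Unc_I m A at hsum
  omega

end PPos
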