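import Pool.Agent.H1.PP.Defs

set_option autoImplicit false
set_option linter.unusedSectionVars false

/-!
# PP Word: reduced words and half spaces (helper1)

`toWord_lt_mul`: from `FreeGroup.toWord_mul` and `FreeGroup.reduce.cons` (`(lt a).toWord = [a]`).
`toWord_cons`: the tail of a reduced word is reduced (`FreeGroup.isReduced_toWord`, `FreeGroup.IsReduced` is a chain condition).
`compl_C`: `g ∉ C a ↔ a⁻¹ g ∈ C (bar a)`: `toWord_lt_mul` for `bar a` (`lt (bar a) = (lt a)⁻¹`): if `g` begins with `a` then `a⁻¹ g` is its tail, which does not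
begin with `bar a`; otherwise `a⁻¹ g` has the word `bar a :: g.toWord`.
`C_infinite`: the powers of `a`: `toWord (lt a ^ (k+1)) = replicate (k+1) a` (`FreeGroup.reduce_replicate`), injective in `k`.
`cyl_concat`: if `u ++ [a]` is reduced: `g` has the prefix `u ++ [a]` iff `u⁻¹ g` begins with `a` (`←`: the word of `g = u (u⁻¹ g)` is `u ++ (u⁻¹ g).toWord` by
`toWord_mul_of_isReduced`, because `u ++ [a]` and `a :: ..` are reduced (`FreeGroup.IsReduced.append_overlap` or the chain condition)).
-/

namespace PPos

open FreeGroup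

variable {ι : Type} [DecidableEq ι]

theorem bar_bar (a : ι × Bool) : bar (bar a) = a := by
  simp [bar]

theorem bar_ne (a : ι × Bool) : bar a ≠ a := by
  intro h
  have := congrArg Prod.snd h
  simp [bar] at this

theorem lt_bar (a : ι × Bool) : lt (bar a) = (lt a)⁻¹ := by
  simp [lt, bar, FreeGroup.invRev]

theorem toWord_lt (a : ι × Bool) : (lt a).toWord = [a] := by
  simp [lt]

private theorem Word_reduce_cons (a : ι × Bool) (l : List (ι × Bool)) (hl : reduce l = l) :
    reduce (a :: l) = if l.head? = some (bar a) then l.tail else a :: l := by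
  rw [reduce.cons, hl]
  rcases l with _ | ⟨b, l⟩
  · simp
  · simp only [List.head?_cons, Option.some.injEq, List.tail_cons]
    by_cases h : a.1 = b.1 ∧ a.2 = !b.2
    · rw [if_pos h, if_pos]
      rcases a with ⟨a1, a2⟩
      rcases b with ⟨b1, b2⟩
      obtain ⟨h1, h2⟩ := h
      simp only at h1 h2
      subst h1 h2
      simp [bar]
    · rw [if_neg h, if_neg]
      rintro rfl
      exact h (by simp [bar])

theorem toWord_lt_mul (a : ι × Bool) (g : FreeGroup ι) :
    (lt a * g).toWord =
      if g.toWord.head? = some (bar a) then g.toWord.tail else a :: g.toWord := by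
  rw [toWord_mul, toWord_lt, List.singleton_append]
  exact Word_reduce_cons a _ (reduce_toWord g)

theorem mk_cons (a : ι × Bool) (l : List (ι × Bool)) : mk (a :: l) = lt a * mk l := by
  rw [lt, mul_mk, List.singleton_append]

/-- a part of a reduced word is reduced -/
theorem red_of_sub {l m : List (ι × Bool)} (h : IsReduced m) (hi : l <:+: m) : IsReduced l := by
  obtain ⟨s, t, rfl⟩ := hi
  exact (List.IsChain.left_of_append h).right_of_append

theorem toWord_mk_of_isReduced {l : List (ι × Bool)} (h : IsReduced l) : (mk l).toWord = l := by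
  rw [toWord_mk]
  exact h.reduce_eq

theorem toWord_cons {a : ι × Bool} {l : List (ι × Bool)} {g : FreeGroup ι}
    (h : g.toWord = a :: l) : (mk l).toWord = l ∧ g = lt a * mk l ∧ l.head? ≠ some (bar a) := by
  have hr : IsReduced (a :: l) := h ▸ isReduced_toWord
  have hl : IsReduced l := red_of_sub hr ⟨[a], [], by simp⟩
  have h1 : (mk l).toWord = l := toWord_mk_of_isReduced hl
  have h2 : g = lt a * mk l := by
    rw [← mk_cons, ← h, mk_toWord]
  refine ⟨h1, h2, ?_⟩
  intro h3
  have h4 := toWord_lt_mul a (mk l)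
  rw [h1, if_pos h3, ← h2, h] at h4
  have := congrArg List.length h4
  simp at this
  omega

theorem toWord_mul_of_isReduced {g h : FreeGroup ι} (H : IsReduced (g.toWord ++ h.toWord)) :
    (g * h).toWord = g.toWord ++ h.toWord := by
  rw [toWord_mul, H.reduce_eq]

/-- two overlapping reduced words -/
theorem isReduced_append_cons {u v : List (ι × Bool)} {a : ι × Bool} (h1 : IsReduced (u ++ [a]))
    (h2 : IsReduced (a :: v)) : IsReduced (u ++ a :: v) := by
  have := IsReduced.append_overlap (L₁ := u) (L₂ := [a]) (L₃ := v) h1 (by simpa using h2)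
    (by simp)
  simpa using this

theorem mem_C {a : ι × Bool} {g : FreeGroup ι} : g ∈ C a ↔ g.toWord.head? = some a := Iff.rfl

theorem mem_tr {h g : FreeGroup ι} {A : Set (FreeGroup ι)} : g ∈ tr h A ↔ h⁻¹ * g ∈ A := Iff.rfl

theorem compl_C (a : ι × Bool) : (C a)ᶜ = tr (lt a) (C (bar a)) := by
  ext g
  rw [Set.mem_compl_iff, mem_tr, mem_C, mem_C, ← lt_bar, toWord_lt_mul, bar_bar]
  by_cases h : g.toWord.head? = some a
  · rw [if_pos h]
    simp only [h, not_true_eq_false, false_iff]
    rcases hg : g.toWord with _ | ⟨b, l⟩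
    · rw [hg] at h
      simp at h
    · rw [hg] at h
      simp only [List.head?_cons, Option.some.injEq] at h
      subst h
      exact (toWord_cons hg).2.2
  · rw [if_neg h]
    simp [h]

theorem C_inter_C {a b : ι × Bool} (h : a ≠ b) : C a ∩ C b = ∅ := by
  ext g
  simp only [Set.mem_inter_iff, mem_C, Set.mem_empty_iff_false, iff_false, not_and]
  intro h1 h2
  rw [h1] at h2
  exact h (Option.some.inj h2)

theorem C_infinite (a : ι × Bool) : (C a).Infinite := by
  have hw : ∀ k : ℕ, (mk (List.replicate k a)).toWord = List.replicate k a := by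
    intro k
    rw [toWord_mk, reduce_replicate]
  have : Set.range (fun k : ℕ => mk (List.replicate (k + 1) a)) ⊆ C a := by
    rintro _ ⟨k, rfl⟩
    rw [mem_C, hw, List.replicate_succ]
    rfl
  refine Set.Infinite.mono this (Set.infinite_range_of_injective ?_)
  intro k l hkl
  have h1 := congrArg (fun g : FreeGroup ι => g.toWord.length) hkl
  simp only [hw, List.length_replicate] at h1
  omega

/-- an element that is not in a half space `C a`, `a ∈ B`, is `1` or in a half space `C a`, `a ∉ B` -/
theorem compl_CB (B : Set (ι × Bool)) : (CB B)ᶜ = insert 1 (CB Bᶜ) := by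
  ext g
  simp only [Set.mem_compl_iff, CB, Set.mem_setOf_eq, not_exists, not_and, Set.mem_insert_iff]
  rcases hg : g.toWord with _ | ⟨b, l⟩
  · rw [toWord_eq_nil_iff] at hg
    simp [hg]
  · have h1 : g ≠ 1 := by
      rintro rfl
      simp at hg
    simp only [List.head?_cons, Option.some.injEq, h1, false_or]
    constructor
    · intro h
      exact ⟨b, fun hb => h b hb rfl, rfl⟩
    · rintro ⟨a, ha, rfl⟩ c hc rfl
      exact ha hc

theorem CB_singleton (a : ι × Bool) : CB {a} = C a := by
  ext g
  simp [CB, C]

theorem cyl_nil : cyl ([] : List (ι × Bool)) = Set.univ := by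
  ext g
  simp [cyl]

theorem cyl_concat {u : List (ι × Bool)} {a : ι × Bool} (h : IsReduced (u ++ [a])) :
    cyl (u ++ [a]) = tr (mk u) (C a) := by
  have hu : IsReduced u := red_of_sub h ⟨[], [a], by simp⟩
  have huw := toWord_mk_of_isReduced hu
  ext g
  rw [mem_tr, mem_C, cyl, Set.mem_setOf_eq]
  constructor
  · rintro ⟨t, ht⟩
    have hr : IsReduced (u ++ (a :: t)) := by
      have : IsReduced g.toWord := isReduced_toWord
      rw [← ht] at this
      simpa using this
    have ht2 : IsReduced (a :: t) := red_of_sub hr ⟨u, [], by simp⟩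
    have hg : g = mk u * mk (a :: t) := by
      rw [mul_mk, ← mk_toWord (x := g), ← ht]
      simp
    rw [hg, inv_mul_cancel_left, toWord_mk_of_isReduced ht2]
    rfl
  · intro h1
    rcases hk : ((mk u)⁻¹ * g).toWord with _ | ⟨b, t⟩
    · rw [hk] at h1
      simp at h1
    · rw [hk] at h1
      simp only [List.head?_cons, Option.some.injEq] at h1
      subst h1
      have ht2 : IsReduced (b :: t) := hk ▸ isReduced_toWord
      have hr := isReduced_append_cons h ht2
      have hg : g = mk u * ((mk u)⁻¹ * g) := by group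
      have : g.toWord = u ++ b :: t := by
        rw [hg, toWord_mul_of_isReduced, huw, hk]
        rw [huw, hk]
        exact hr
      rw [this]
      exact ⟨t, by simp⟩

theorem cyl_eq_empty {u : List (ι × Bool)} (h : ¬ IsReduced u) : cyl u = ∅ := by
  rw [Set.eq_empty_iff_forall_notMem]
  rintro g ⟨t, ht⟩
  apply h
  have : IsReduced g.toWord := isReduced_toWord
  rw [← ht] at this
  exact red_of_sub this ⟨[], t, by simp⟩

theorem tr_one (A : Set (FreeGroup ι)) : tr 1 A = A := by
  ext g
  simp [tr]

theorem tr_tr (g h : FreeGroup ι) (A : Set (FreeGroup ι)) : tr g (tr h A) = tr (g * h) A := by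
  ext x
  simp [tr, mul_assoc]

theorem tr_compl (g : FreeGroup ι) (A : Set (FreeGroup ι)) : tr g Aᶜ = (tr g A)ᶜ := rfl

theorem tr_inter (g : FreeGroup ι) (A B : Set (FreeGroup ι)) : tr g (A ∩ B) = tr g A ∩ tr g B := rfl

theorem tr_union (g : FreeGroup ι) (A B : Set (FreeGroup ι)) : tr g (A ∪ B) = tr g A ∪ tr g B := rfl

theorem im_tr (τ : FreeGroup ι ≃* FreeGroup ι) (g : FreeGroup ι) (A : Set (FreeGroup ι)) :
    im τ (tr g A) = tr (τ g) (im τ A) := by
  ext x
  simp [tr, im]

end PPos
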